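import Pool.Agent.Lib.MP_106261_lc.Big

/-!
# The distinguishing sentence
-/

set_option autoImplicit false

namespace Pool.Agent.Lib.MP_106261_lc

open Classical

/-- the distinguishing sentence -/
def Sent (k N : ℕ) (M : Type) [Group M] [Lattice M] : Prop :=
  ∀ y : Fin (N + 1) → M, ∃ z e : M, Big k M e ∧
    ∃ q : Fin (N + 1) × Fin (N + 1), q.1 ≠ q.2 ∧
      ¬ Big k M (|(y q.1)⁻¹ * y q.2 * (z * z)⁻¹|ₘ ⊓ |e|ₘ)

variable {n : ℕ} {F : Type} [Group F] [Lattice F] [MulLeftMono F] [MulRightMono F]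
  {ι : Fin n → F}

theorem IsFree.continuous_av (hF : IsFree n F ι) (f : F) :
    Continuous fun α : Fin n → ℝ => Multiplicative.toAdd (hF.av α f) := by
  refine hF.induction (p := fun f => Continuous fun α : Fin n → ℝ =>
    Multiplicative.toAdd (hF.av α f)) ?_ ?_ ?_ ?_ ?_ f
  · simp only [map_one, toAdd_one]; exact continuous_const
  · intro i
    simp only [hF.av_gen, toAdd_ofAdd]
    exact continuous_apply i
  · intro a b ha hb
    simp only [map_mul, toAdd_mul]
    exact ha.add hb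
  · intro a ha
    simp only [map_inv, toAdd_inv]
    exact ha.neg
  · intro a b ha hb
    have h : (fun α : Fin n → ℝ => Multiplicative.toAdd (hF.av α (a ⊔ b)))
        = fun α => max (Multiplicative.toAdd (hF.av α a)) (Multiplicative.toAdd (hF.av α b)) := by
      funext α
      rw [(hF.av_isL α).1]; rfl
    rw [h]
    exact ha.max hb

/-- nonzero linear forms are weak units -/
theorem IsFree.weak_unit (hF : IsFree n F ι) {e : F} {d : FreeGroup (Fin n)}
    (he : ∃ α, hF.av α e ≠ 1) (hd : ∃ α : Fin n → ℝ, ah α d ≠ 1) :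
    ∃ α, hF.av α e ≠ 1 ∧ ah α d ≠ 1 := by
  obtain ⟨α₀, h0⟩ := he
  obtain ⟨α₁, h1⟩ := hd
  by_cases h2 : ah α₀ d = 1
  · have hcont : Continuous fun t : ℝ =>
        Multiplicative.toAdd (hF.av (fun i => α₀ i + t * α₁ i) e) := by
      refine (hF.continuous_av e).comp ?_
      fun_prop
    have h3 : ∀ᶠ t in nhds (0 : ℝ),
        Multiplicative.toAdd (hF.av (fun i => α₀ i + t * α₁ i) e) ≠ 0 := by
      refine hcont.continuousAt.eventually_ne ?_
      simp only [zero_mul, add_zero]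
      intro h
      exact h0 h
    obtain ⟨ε, hε, hball⟩ := Metric.eventually_nhds_iff.1 h3
    refine ⟨fun i => α₀ i + (ε / 2) * α₁ i, ?_, ?_⟩
    · intro h
      refine hball (y := ε / 2) ?_ ?_
      · rw [dist_zero_right, Real.norm_eq_abs, abs_of_pos (by linarith)]
        linarith
      · rw [h]; rfl
    · rw [ah_eq_sum] at h1 h2 ⊢
      intro h
      have h2' : ∑ i, ((Multiplicative.toAdd (ab n d) i : ℤ) : ℝ) * α₀ i = 0 := h2
      have h' : ∑ i, ((Multiplicative.toAdd (ab n d) i : ℤ) : ℝ) * (α₀ i + (ε / 2) * α₁ i) = 0 := h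
      have h4 : ∑ i, ((Multiplicative.toAdd (ab n d) i : ℤ) : ℝ) * (α₀ i + (ε / 2) * α₁ i)
          = ∑ i, ((Multiplicative.toAdd (ab n d) i : ℤ) : ℝ) * α₀ i
            + (ε / 2) * ∑ i, ((Multiplicative.toAdd (ab n d) i : ℤ) : ℝ) * α₁ i := by
        rw [Finset.mul_sum, ← Finset.sum_add_distrib]
        refine Finset.sum_congr rfl fun i _ => ?_
        ring
      rw [h4, h2', zero_add] at h'
      apply h1
      have h5 : ∑ i, ((Multiplicative.toAdd (ab n d) i : ℤ) : ℝ) * α₁ i = 0 := by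
        rcases mul_eq_zero.1 h' with h6 | h6
        · linarith
        · exact h6
      rw [h5]; rfl
  · exact ⟨α₀, h0, h2⟩

theorem IsFree.av_inf_mabs (hF : IsFree n F ι) (α : Fin n → ℝ) (a b : F) :
    hF.av α (|a|ₘ ⊓ |b|ₘ) = 1 ↔ hF.av α a = 1 ∨ hF.av α b = 1 := by
  rw [(hF.av_isL α).2, (hF.av_isL α).map_mabs, (hF.av_isL α).map_mabs]
  constructor
  · intro h
    rcases le_total |hF.av α a|ₘ |hF.av α b|ₘ with h1 | h1
    · rw [inf_eq_left.2 h1] at h
      exact Or.inl (mabs_eq_one.1 h)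
    · rw [inf_eq_right.2 h1] at h
      exact Or.inr (mabs_eq_one.1 h)
  · rintro (h | h)
    · rw [h, mabs_one]
      exact inf_eq_left.2 (one_le_mabs _)
    · rw [h, mabs_one]
      exact inf_eq_right.2 (one_le_mabs _)

/-- local linearity -/
theorem IsFree.loc_lin (hF : IsFree n F ι) (f : F) : ∀ e : F, (∃ α, hF.av α e ≠ 1) →
    ∃ (e' : F) (g : FreeGroup (Fin n)), (∃ α, hF.av α e' ≠ 1) ∧
      (∀ α, hF.av α e' ≠ 1 → hF.av α e ≠ 1) ∧ ∀ α, hF.av α e' ≠ 1 → hF.av α f = ah α g := by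
  refine hF.induction (p := fun f => ∀ e : F, (∃ α, hF.av α e ≠ 1) →
    ∃ (e' : F) (g : FreeGroup (Fin n)), (∃ α, hF.av α e' ≠ 1) ∧
      (∀ α, hF.av α e' ≠ 1 → hF.av α e ≠ 1) ∧ ∀ α, hF.av α e' ≠ 1 → hF.av α f = ah α g)
    ?_ ?_ ?_ ?_ ?_ f
  · intro e he
    exact ⟨e, 1, he, fun α h => h, fun α _ => by rw [map_one, map_one]⟩
  · intro i e he
    exact ⟨e, FreeGroup.of i, he, fun α h => h, fun α _ => by rw [hF.av_gen, ah_of]⟩
  · intro a b ha hb e he
    obtain ⟨e1, g1, h1, h1', h1''⟩ := ha e he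
    obtain ⟨e2, g2, h2, h2', h2''⟩ := hb e1 h1
    exact ⟨e2, g1 * g2, h2, fun α h => h1' α (h2' α h), fun α h => by
      rw [map_mul, map_mul, h1'' α (h2' α h), h2'' α h]⟩
  · intro a ha e he
    obtain ⟨e1, g1, h1, h1', h1''⟩ := ha e he
    exact ⟨e1, g1⁻¹, h1, h1', fun α h => by rw [map_inv, map_inv, h1'' α h]⟩
  · intro a b ha hb e he
    obtain ⟨e1, g1, h1, h1', h1''⟩ := ha e he
    obtain ⟨e2, g2, h2, h2', h2''⟩ := hb e1 h1
    by_cases hd : ∃ α : Fin n → ℝ, ah α (g1⁻¹ * g2) ≠ 1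
    · obtain ⟨α₀, hα0, hα0'⟩ := hF.weak_unit h2 hd
      -- the strict case
      have strict : ∀ (a b : F) (g1 g2 : FreeGroup (Fin n)),
          (∀ α, hF.av α e2 ≠ 1 → hF.av α a = ah α g1) →
          (∀ α, hF.av α e2 ≠ 1 → hF.av α b = ah α g2) → 1 < ah α₀ (g1⁻¹ * g2) →
          ∃ (e' : F) (g : FreeGroup (Fin n)), (∃ α, hF.av α e' ≠ 1) ∧
            (∀ α, hF.av α e' ≠ 1 → hF.av α e ≠ 1) ∧
            ∀ α, hF.av α e' ≠ 1 → hF.av α (a ⊔ b) = ah α g := by
        intro a b g1 g2 hag hbg hlt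
        have key : ∀ α, hF.av α (|e2|ₘ ⊓ |wd ι (g1⁻¹ * g2) ⊔ 1|ₘ) ≠ 1 ↔
            hF.av α e2 ≠ 1 ∧ 1 < ah α (g1⁻¹ * g2) := by
          intro α
          rw [ne_eq, hF.av_inf_mabs, not_or]
          refine and_congr Iff.rfl ?_
          rw [(hF.av_isL α).1, hF.av_wd, map_one]
          constructor
          · intro h
            by_contra hno
            push Not at hno
            exact h (sup_eq_right.2 hno)
          · intro h
            rw [sup_eq_left.2 h.le]
            exact h.ne'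
        refine ⟨|e2|ₘ ⊓ |wd ι (g1⁻¹ * g2) ⊔ 1|ₘ, g2, ⟨α₀, (key α₀).2 ⟨hα0, hlt⟩⟩,
          fun α h => h1' α (h2' α ((key α).1 h).1), ?_⟩
        intro α h
        obtain ⟨h3, h4⟩ := (key α).1 h
        rw [(hF.av_isL α).1, hag α h3, hbg α h3]
        apply sup_eq_right.2
        rw [map_mul, map_inv] at h4
        have := mul_le_mul_right h4.le (ah α g1)
        rwa [mul_one, mul_inv_cancel_left] at this
      rcases lt_or_gt_of_ne hα0' with h3 | h3
      · have h4 : 1 < ah α₀ (g2⁻¹ * g1) := by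
          have e5 : g2⁻¹ * g1 = (g1⁻¹ * g2)⁻¹ := by group
          rw [e5, map_inv]
          exact one_lt_inv'.2 h3
        rw [sup_comm]
        exact strict b a g2 g1 h2'' (fun α h => h1'' α (h2' α h)) h4
      · exact strict a b g1 g2 (fun α h => h1'' α (h2' α h)) h2'' h3
    · push Not at hd
      refine ⟨e2, g1, h2, fun α h => h1' α (h2' α h), fun α h => ?_⟩
      rw [(hF.av_isL α).1, h1'' α (h2' α h), h2'' α h]
      have h3 := hd α
      rw [map_mul, map_inv] at h3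
      have h4 : ah α g1 = ah α g2 := inv_mul_eq_one.1 h3
      rw [h4, sup_idem]

theorem IsFree.loc_lin_fam (hF : IsFree n F ι) (e : F) (he : ∃ α, hF.av α e ≠ 1) (N : ℕ)
    (y : Fin N → F) : ∃ (e' : F) (g : Fin N → FreeGroup (Fin n)), (∃ α, hF.av α e' ≠ 1) ∧
      ∀ i α, hF.av α e' ≠ 1 → hF.av α (y i) = ah α (g i) := by
  induction N with
  | zero => exact ⟨e, fun _ => 1, he, fun i => i.elim0⟩
  | succ N ih =>
    obtain ⟨e1, g, h1, h1'⟩ := ih (fun i => y i.castSucc)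
    obtain ⟨e2, g2, h2, h2', h2''⟩ := hF.loc_lin (y (Fin.last N)) e1 h1
    refine ⟨e2, Fin.snoc g g2, h2, ?_⟩
    intro i α hα
    refine Fin.lastCases ?_ (fun j => ?_) i
    · rw [Fin.snoc_last]; exact h2'' α hα
    · rw [Fin.snoc_castSucc]; exact h1' j α (h2' α hα)

/-- a word with given exponents -/
noncomputable def wv {n : ℕ} (v : Fin n → ℤ) : FreeGroup (Fin n) :=
  (List.ofFn fun l => FreeGroup.of l ^ v l).prod

theorem ah_wv (α : Fin n → ℝ) (v : Fin n → ℤ) :
    ah α (wv v) = Multiplicative.ofAdd (∑ l, (v l : ℝ) * α l) := by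
  rw [wv, map_list_prod, List.map_ofFn, List.prod_ofFn, ofAdd_sum]
  refine Finset.prod_congr rfl fun i _ => ?_
  rw [Function.comp_apply, map_zpow, ah_of, ← ofAdd_zsmul, zsmul_eq_mul]

theorem ah_single (l : Fin n) (g : FreeGroup (Fin n)) :
    ah (Pi.single l 1) g = Multiplicative.ofAdd ((Multiplicative.toAdd (ab n g) l : ℤ) : ℝ) := by
  rw [ah_eq_sum]
  congr 1
  rw [Finset.sum_eq_single l]
  · simp
  · intro i _ hil
    rw [Pi.single_eq_of_ne hil, mul_zero]
  · intro h; exact absurd (Finset.mem_univ l) h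

theorem IsFree.sent_true (hF : IsFree n F ι) (hn : 2 ≤ n) {k : ℕ} (hk : n ≤ k) :
    Sent k (2 ^ n) F := by
  intro y
  obtain ⟨e, g, he, hg⟩ := hF.loc_lin_fam (ι ⟨0, by omega⟩)
    ⟨fun _ => 1, by
      rw [hF.av_gen]
      intro h
      have : (1 : ℝ) = 0 := h
      norm_num at this⟩ _ y
  obtain ⟨i, j, hij, hpar⟩ := Fintype.exists_ne_map_eq_of_card_lt
    (fun i : Fin (2 ^ n + 1) => fun l : Fin n => ((Multiplicative.toAdd (ab n (g i)) l : ℤ) : ZMod 2))
    (by simp)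
  have hdiv : ∀ l : Fin n, ∃ z : ℤ, Multiplicative.toAdd (ab n (g j)) l
      - Multiplicative.toAdd (ab n (g i)) l = 2 * z := by
    intro l
    have h1 := congrFun hpar l
    have h2 : ((Multiplicative.toAdd (ab n (g j)) l - Multiplicative.toAdd (ab n (g i)) l : ℤ)
        : ZMod 2) = 0 := by
      push_cast
      rw [← h1, sub_self]
    obtain ⟨z, hz⟩ := (ZMod.intCast_zmod_eq_zero_iff_dvd _ 2).1 h2
    exact ⟨z, by exact_mod_cast hz⟩
  choose z hz using hdiv
  refine ⟨wd ι (wv z), e, (hF.big_iff hn hk e).2 he, (i, j), hij, ?_⟩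
  rw [hF.big_iff hn hk]
  push Not
  intro α
  rw [hF.av_inf_mabs]
  by_cases hα : hF.av α e = 1
  · exact Or.inr hα
  · left
    simp only [map_mul, map_inv]
    rw [hg i α hα, hg j α hα, hF.av_wd, ah_wv, ah_eq_sum, ah_eq_sum]
    change -(∑ l, ((Multiplicative.toAdd (ab n (g i)) l : ℤ) : ℝ) * α l)
      + (∑ l, ((Multiplicative.toAdd (ab n (g j)) l : ℤ) : ℝ) * α l)
      + -((∑ l, (z l : ℝ) * α l) + (∑ l, (z l : ℝ) * α l)) = 0
    have h1 : ∑ l, ((Multiplicative.toAdd (ab n (g j)) l : ℤ) : ℝ) * α l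
        = ∑ l, ((Multiplicative.toAdd (ab n (g i)) l : ℤ) : ℝ) * α l
          + (∑ l, (z l : ℝ) * α l + ∑ l, (z l : ℝ) * α l) := by
      rw [← Finset.sum_add_distrib, ← Finset.sum_add_distrib]
      refine Finset.sum_congr rfl fun l _ => ?_
      have h2 : ((Multiplicative.toAdd (ab n (g j)) l : ℤ) : ℝ)
          = ((Multiplicative.toAdd (ab n (g i)) l : ℤ) : ℝ) + 2 * (z l : ℝ) := by
        have h3 := hz l
        have h4 : Multiplicative.toAdd (ab n (g j)) l
          = Multiplicative.toAdd (ab n (g i)) l + 2 * z l := by linarith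
        exact_mod_cast h4
      rw [h2]; ring
    rw [h1]; ring

theorem IsFree.sent_false (hF : IsFree n F ι) (hn : 2 ≤ n) {k n' : ℕ} (hk : n ≤ k)
    (hn' : n' < n) : ¬ Sent k (2 ^ n') F := by
  intro hS
  obtain ⟨b, hb⟩ : ∃ b : Fin (2 ^ n' + 1) → (Fin n → Bool), Function.Injective b := by
    have hcard : Fintype.card (Fin (2 ^ n' + 1)) ≤ Fintype.card (Fin n → Bool) := by
      simp only [Fintype.card_fin, Fintype.card_pi, Fintype.card_bool, Finset.prod_const,
        Finset.card_univ]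
      exact Nat.pow_lt_pow_right (by norm_num) hn'
    obtain ⟨f⟩ := Function.Embedding.nonempty_of_card_le hcard
    exact ⟨f, f.injective⟩
  let v : Fin (2 ^ n' + 1) → (Fin n → ℤ) := fun i l => if b i l then 1 else 0
  obtain ⟨z, e, he, ⟨i, j⟩, hij, hnot⟩ := hS (fun i => wd ι (wv (v i)))
  rw [hF.big_iff hn hk] at he
  rw [hF.big_iff hn hk] at hnot
  push Not at hnot
  obtain ⟨e', g, he', hee', hzg⟩ := hF.loc_lin z e he
  have hd : ∃ α : Fin n → ℝ, ah α ((wv (v i))⁻¹ * wv (v j) * (g * g)⁻¹) ≠ 1 := by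
    have h1 : b i ≠ b j := fun h => hij (hb h)
    obtain ⟨l, hl⟩ := Function.ne_iff.1 h1
    refine ⟨Pi.single l 1, ?_⟩
    simp only [map_mul, map_inv]
    rw [ah_wv, ah_wv, ah_single]
    intro h
    have h2 : -(∑ l', ((v i l' : ℤ) : ℝ) * (Pi.single l (1 : ℝ) : Fin n → ℝ) l')
      + (∑ l', ((v j l' : ℤ) : ℝ) * (Pi.single l (1 : ℝ) : Fin n → ℝ) l')
      + -(((Multiplicative.toAdd (ab n g) l : ℤ) : ℝ)
        + ((Multiplicative.toAdd (ab n g) l : ℤ) : ℝ)) = 0 := h
    have h3 : ∀ w : Fin n → ℤ, ∑ l', ((w l' : ℤ) : ℝ) * (Pi.single l (1 : ℝ) : Fin n → ℝ) l'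
        = (w l : ℝ) := by
      intro w
      rw [Finset.sum_eq_single l]
      · simp
      · intro i _ hil
        rw [Pi.single_eq_of_ne hil, mul_zero]
      · intro h; exact absurd (Finset.mem_univ l) h
    rw [h3, h3] at h2
    have h4 : -(v i l) + v j l - (Multiplicative.toAdd (ab n g) l
      + Multiplicative.toAdd (ab n g) l) = 0 := by
      have : ((-(v i l) + v j l - (Multiplicative.toAdd (ab n g) l
        + Multiplicative.toAdd (ab n g) l) : ℤ) : ℝ) = 0 := by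
        push_cast
        linarith
      exact_mod_cast this
    have h5 : (v i l = 0 ∧ v j l = 1) ∨ (v i l = 1 ∧ v j l = 0) := by
      simp only [v]
      cases hbi : b i l <;> cases hbj : b j l
      · exact absurd (hbi.trans hbj.symm) hl
      · left; simp
      · right; simp
      · exact absurd (hbi.trans hbj.symm) hl
    rcases h5 with ⟨h6, h7⟩ | ⟨h6, h7⟩ <;> rw [h6, h7] at h4 <;> omega
  obtain ⟨α, hα1, hα2⟩ := hF.weak_unit he' hd
  have h1 := hnot α
  rw [hF.av_inf_mabs] at h1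
  rcases h1 with h1 | h1
  · apply hα2
    rw [← h1]
    simp only [map_mul, map_inv]
    rw [hzg α hα1, hF.av_wd, hF.av_wd]
  · exact hee' α hα1 h1

end Pool.Agent.Lib.MP_106261_lc
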