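import Mathlib

/-!
# Order automorphisms of chains, free l-groups, left orders
-/

set_option autoImplicit false

namespace Pool.Agent.Lib.MP_106261_lc

open Classical

/-! ### The l-group of order automorphisms of a chain -/

section CAut

variable (Ω : Type) [LinearOrder Ω]

/-- order automorphisms of a chain -/
def CAut : Subgroup (Equiv.Perm Ω) where
  carrier := {σ | Monotone σ}
  mul_mem' := fun ha hb => ha.comp hb
  one_mem' := monotone_id
  inv_mem' := by
    intro σ hσ x y hxy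
    by_contra h
    push Not at h
    have h1 : σ (σ⁻¹ y) ≤ σ (σ⁻¹ x) := hσ h.le
    simp at h1
    have h2 : x = y := le_antisymm hxy h1
    rw [h2] at h
    exact lt_irrefl _ h

variable {Ω}

/-- pointwise supremum -/
def supPerm (σ τ : CAut Ω) : Equiv.Perm Ω where
  toFun x := σ.1 x ⊔ τ.1 x
  invFun y := σ⁻¹.1 y ⊓ τ⁻¹.1 y
  left_inv x := by
    have h1 : Monotone (σ⁻¹.1) := σ⁻¹.2
    have h2 : Monotone (τ⁻¹.1) := τ⁻¹.2
    have hs : ∀ z, (σ⁻¹.1) (σ.1 z) = z := fun z => by simp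
    have ht : ∀ z, (τ⁻¹.1) (τ.1 z) = z := fun z => by simp
    change (σ⁻¹.1) (σ.1 x ⊔ τ.1 x) ⊓ (τ⁻¹.1) (σ.1 x ⊔ τ.1 x) = x
    rcases le_total (σ.1 x) (τ.1 x) with h | h
    · rw [sup_eq_right.2 h, ht]
      refine inf_eq_right.2 ?_
      have := h1 h
      rwa [hs] at this
    · rw [sup_eq_left.2 h, hs]
      refine inf_eq_left.2 ?_
      have := h2 h
      rwa [ht] at this
  right_inv y := by
    have h1 : Monotone (σ.1) := σ.2
    have h2 : Monotone (τ.1) := τ.2
    have hs : ∀ z, (σ.1) (σ⁻¹.1 z) = z := fun z => by simp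
    have ht : ∀ z, (τ.1) (τ⁻¹.1 z) = z := fun z => by simp
    change σ.1 (σ⁻¹.1 y ⊓ τ⁻¹.1 y) ⊔ τ.1 (σ⁻¹.1 y ⊓ τ⁻¹.1 y) = y
    rcases le_total (σ⁻¹.1 y) (τ⁻¹.1 y) with h | h
    · rw [inf_eq_left.2 h, hs]
      refine sup_eq_left.2 ?_
      have := h2 h
      rwa [ht] at this
    · rw [inf_eq_right.2 h, ht]
      refine sup_eq_right.2 ?_
      have := h1 h
      rwa [hs] at this

theorem supPerm_mono (σ τ : CAut Ω) : supPerm σ τ ∈ CAut Ω := by
  intro x y hxy
  exact sup_le_sup (σ.2 hxy) (τ.2 hxy)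

instance : Lattice (CAut Ω) :=
  { PartialOrder.lift (fun σ : CAut Ω => (σ.1 : Ω → Ω))
      (fun σ τ h => Subtype.ext (Equiv.ext fun x => congrFun h x)) with
    sup := fun σ τ => ⟨supPerm σ τ, supPerm_mono σ τ⟩
    inf := fun σ τ => (⟨supPerm σ⁻¹ τ⁻¹, supPerm_mono σ⁻¹ τ⁻¹⟩ : CAut Ω)⁻¹
    le_sup_left := fun _ _ _ => le_sup_left
    le_sup_right := fun _ _ _ => le_sup_right
    sup_le := fun _ _ _ h1 h2 x => sup_le (h1 x) (h2 x)
    inf_le_left := fun σ τ x => by
      change (σ⁻¹)⁻¹.1 x ⊓ (τ⁻¹)⁻¹.1 x ≤ σ.1 x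
      rw [inv_inv]; exact inf_le_left
    inf_le_right := fun σ τ x => by
      change (σ⁻¹)⁻¹.1 x ⊓ (τ⁻¹)⁻¹.1 x ≤ τ.1 x
      rw [inv_inv]
      exact le_of_le_of_eq inf_le_right (by rw [inv_inv])
    le_inf := fun σ τ ρ h1 h2 x => by
      change σ.1 x ≤ (τ⁻¹)⁻¹.1 x ⊓ (ρ⁻¹)⁻¹.1 x
      rw [inv_inv, inv_inv]
      exact le_inf (h1 x) (h2 x) }

theorem CAut.sup_apply (σ τ : CAut Ω) (x : Ω) : (σ ⊔ τ).1 x = σ.1 x ⊔ τ.1 x := rfl

theorem CAut.mul_apply (σ τ : CAut Ω) (x : Ω) : (σ * τ).1 x = σ.1 (τ.1 x) := rfl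

theorem CAut.inv_apply_apply (σ : CAut Ω) (x : Ω) : (σ⁻¹).1 (σ.1 x) = x := by simp

theorem CAut.apply_inv_apply (σ : CAut Ω) (x : Ω) : σ.1 ((σ⁻¹).1 x) = x := by simp

instance : MulLeftMono (CAut Ω) := ⟨fun ρ _ _ h x => ρ.2 (h x)⟩

instance : MulRightMono (CAut Ω) := ⟨fun ρ _ _ h x => h (ρ.1 x)⟩

end CAut

/-! ### Free l-groups -/

/-- `φ` preserves the lattice operations -/
def IsL {F K : Type} [Group F] [Lattice F] [Group K] [Lattice K] (φ : F →* K) : Prop :=
  (∀ a b : F, φ (a ⊔ b) = φ a ⊔ φ b) ∧ (∀ a b : F, φ (a ⊓ b) = φ a ⊓ φ b)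

/-- `F` is a free l-group on `ι 0, …, ι (n - 1)` -/
def IsFree (n : ℕ) (F : Type) [Group F] [Lattice F] [MulLeftMono F] [MulRightMono F]
    (ι : Fin n → F) : Prop :=
  ∀ (K : Type) [Group K] [Lattice K] [MulLeftMono K] [MulRightMono K] (f : Fin n → K),
    ∃! φ : F →* K, (∀ a b : F, φ (a ⊔ b) = φ a ⊔ φ b) ∧ (∀ a b : F, φ (a ⊓ b) = φ a ⊓ φ b) ∧
      ∀ i, φ (ι i) = f i

section Free

variable {n : ℕ} {F : Type} [Group F] [Lattice F] [MulLeftMono F] [MulRightMono F]
  {ι : Fin n → F}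

theorem IsFree.induction (hF : IsFree n F ι) {p : F → Prop} (one : p 1) (gen : ∀ i, p (ι i))
    (mul : ∀ a b, p a → p b → p (a * b)) (inv : ∀ a, p a → p a⁻¹)
    (sup : ∀ a b, p a → p b → p (a ⊔ b)) (f : F) : p f := by
  let S : Subgroup F :=
    { carrier := {x | p x}
      mul_mem' := fun ha hb => mul _ _ ha hb
      one_mem' := one
      inv_mem' := fun ha => inv _ ha }
  have hinf : ∀ a b, p a → p b → p (a ⊓ b) := by
    intro a b ha hb
    have h1 : a ⊓ b = (a⁻¹ ⊔ b⁻¹)⁻¹ := by rw [inv_sup, inv_inv, inv_inv]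
    rw [h1]
    exact inv _ (sup _ _ (inv _ ha) (inv _ hb))
  let _ : Lattice S := Subtype.lattice (P := fun x => x ∈ S)
    (fun {x y} hx hy => sup x y hx hy) (fun {x y} hx hy => hinf x y hx hy)
  have _ : MulLeftMono S := ⟨fun a b c h => by
    have h1 : (b : F) ≤ c := h
    have h2 : (a : F) * b ≤ a * c := by gcongr
    exact h2⟩
  have _ : MulRightMono S := ⟨fun a b c h => by
    have h1 : (b : F) ≤ c := h
    have h2 : (b : F) * a ≤ c * a := by gcongr
    exact h2⟩
  obtain ⟨φ, ⟨hφ1, hφ2, hφ3⟩, -⟩ := hF S (fun i => ⟨ι i, gen i⟩)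
  obtain ⟨ψ, -, hψ⟩ := hF F ι
  have h1 : S.subtype.comp φ = ψ := by
    apply hψ
    refine ⟨fun a b => ?_, fun a b => ?_, fun i => ?_⟩
    · change (φ (a ⊔ b)).1 = _
      rw [hφ1]; rfl
    · change (φ (a ⊓ b)).1 = _
      rw [hφ2]; rfl
    · change (φ (ι i)).1 = _
      rw [hφ3]
  have h2 : MonoidHom.id F = ψ := by
    apply hψ
    exact ⟨fun a b => rfl, fun a b => rfl, fun i => rfl⟩
  have h3 : (φ f).1 = f := by
    have := DFunLike.congr_fun (h1.trans h2.symm) f
    exact this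
  rw [← h3]
  exact (φ f).2

/-- the l-homomorphism given by the images of the generators -/
noncomputable def IsFree.hom (hF : IsFree n F ι) (K : Type) [Group K] [Lattice K] [MulLeftMono K]
    [MulRightMono K] (f : Fin n → K) : F →* K :=
  (hF K f).choose

theorem IsFree.hom_isL (hF : IsFree n F ι) (K : Type) [Group K] [Lattice K] [MulLeftMono K]
    [MulRightMono K] (f : Fin n → K) : IsL (hF.hom K f) :=
  ⟨(hF K f).choose_spec.1.1, (hF K f).choose_spec.1.2.1⟩

theorem IsFree.hom_gen (hF : IsFree n F ι) (K : Type) [Group K] [Lattice K] [MulLeftMono K]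
    [MulRightMono K] (f : Fin n → K) (i : Fin n) : hF.hom K f (ι i) = f i :=
  (hF K f).choose_spec.1.2.2 i

/-- an equivariant monotone map between chains on which `F` acts -/
theorem IsFree.equivariant (hF : IsFree n F ι) {Ω Ω' : Type} [LinearOrder Ω] [LinearOrder Ω']
    (φ : F →* CAut Ω) (hφ : IsL φ) (φ' : F →* CAut Ω') (hφ' : IsL φ') (π : Ω → Ω')
    (hπ : Monotone π) (hgen : ∀ i x, π ((φ (ι i)).1 x) = (φ' (ι i)).1 (π x)) (f : F) :
    ∀ x, π ((φ f).1 x) = (φ' f).1 (π x) := by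
  refine hF.induction (p := fun f => ∀ x, π ((φ f).1 x) = (φ' f).1 (π x)) ?_ hgen ?_ ?_ ?_ f
  · intro x; simp
  · intro a b ha hb x
    rw [map_mul, map_mul, CAut.mul_apply, CAut.mul_apply, ha, hb]
  · intro a ha x
    have h1 := ha ((φ a)⁻¹.1 x)
    rw [CAut.apply_inv_apply] at h1
    rw [map_inv, map_inv, h1, CAut.inv_apply_apply]
  · intro a b ha hb x
    rw [hφ.1, hφ'.1, CAut.sup_apply, CAut.sup_apply, ← ha, ← hb, hπ.map_sup]

end Free

/-! ### Left orders -/

/-- left orders on a group, given by their sets of positive elements -/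
@[ext]
structure LO (G : Type) [Group G] where
  /-- the positive elements -/
  pos : Set G
  mul_mem : ∀ a ∈ pos, ∀ b ∈ pos, a * b ∈ pos
  one_notMem : (1 : G) ∉ pos
  total : ∀ a : G, a ≠ 1 → a ∈ pos ∨ a⁻¹ ∈ pos

section LO

variable {G : Type} [Group G]

theorem LO.inv_notMem (P : LO G) {a : G} (ha : a ∈ P.pos) : a⁻¹ ∉ P.pos := by
  intro h
  have := P.mul_mem _ ha _ h
  rw [mul_inv_cancel] at this
  exact P.one_notMem this

theorem LO.ne_one (P : LO G) {a : G} (ha : a ∈ P.pos) : a ≠ 1 := by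
  rintro rfl
  exact P.one_notMem ha

theorem LO.notMem_iff (P : LO G) {a : G} (ha : a ≠ 1) : a ∉ P.pos ↔ a⁻¹ ∈ P.pos := by
  constructor
  · intro h
    exact (P.total a ha).resolve_left h
  · intro h h'
    exact P.inv_notMem h' h

/-- the chain `(G, ≤_P)` -/
def Ch (_P : LO G) : Type := G

noncomputable instance (P : LO G) : LinearOrder (Ch P) where
  le x y := x = y ∨ (show G from x)⁻¹ * (show G from y) ∈ P.pos
  le_refl x := Or.inl rfl
  le_trans x y z := by
    rintro (rfl | h1) (rfl | h2)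
    · exact Or.inl rfl
    · exact Or.inr h2
    · exact Or.inr h1
    · right
      have := P.mul_mem _ h1 _ h2
      rwa [mul_assoc, mul_inv_cancel_left] at this
  le_antisymm x y := by
    rintro (rfl | h1) (h2 | h2)
    · rfl
    · rfl
    · exact h2.symm
    · exfalso
      have := P.mul_mem _ h1 _ h2
      rw [mul_assoc, mul_inv_cancel_left, inv_mul_cancel] at this
      exact P.one_notMem this
  le_total x y := by
    by_cases h : (show G from x)⁻¹ * (show G from y) = 1
    · left; left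
      have h2 : (show G from x) = (show G from y) := inv_mul_eq_one.1 h
      exact h2
    · rcases P.total _ h with h' | h'
      · exact Or.inl (Or.inr h')
      · right; right
        rwa [mul_inv_rev, inv_inv] at h'
  toDecidableLE := Classical.decRel _

/-- the order relation of `P` on `G` -/
def LO.lt (P : LO G) (x y : G) : Prop := x⁻¹ * y ∈ P.pos

theorem LO.lt_iff (P : LO G) (x y : G) : P.lt x y ↔ (show Ch P from x) < (show Ch P from y) := by
  rw [lt_iff_le_not_ge]
  change x⁻¹ * y ∈ P.pos ↔ (x = y ∨ x⁻¹ * y ∈ P.pos) ∧ ¬ (y = x ∨ y⁻¹ * x ∈ P.pos)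
  constructor
  · intro h
    refine ⟨Or.inr h, ?_⟩
    rintro (rfl | h')
    · rw [inv_mul_cancel] at h; exact P.one_notMem h
    · have := P.inv_notMem h
      rw [mul_inv_rev, inv_inv] at this
      exact this h'
  · rintro ⟨rfl | h, h'⟩
    · exact absurd (Or.inl rfl) h'
    · exact h

/-- left multiplication as a permutation -/
def lperm (P : LO G) (g : G) : Equiv.Perm (Ch P) := Equiv.mulLeft (G := G) g

/-- left multiplication -/
noncomputable def lmul (P : LO G) (g : G) : CAut (Ch P) :=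
  ⟨lperm P g, by
    have key : ∀ a b : G, a⁻¹ * b ∈ P.pos → (g * a)⁻¹ * (g * b) ∈ P.pos := by
      intro a b h
      rwa [mul_inv_rev, mul_assoc, inv_mul_cancel_left]
    intro x y hxy
    rcases hxy with rfl | h
    · exact le_rfl
    · exact Or.inr (key x y h)⟩

theorem lmul_apply (P : LO G) (g : G) (x : Ch P) :
    (show G from (lmul P g).1 x) = g * (show G from x) := rfl

/-- conjugation of left orders: `g • P = g P g⁻¹` -/
instance : MulAction G (LO G) where
  smul g P :=
    { pos := {x | g⁻¹ * x * g ∈ P.pos}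
      mul_mem := by
        intro a ha b hb
        have := P.mul_mem _ ha _ hb
        change g⁻¹ * (a * b) * g ∈ P.pos
        convert this using 1
        group
      one_notMem := by
        intro h
        change g⁻¹ * 1 * g ∈ P.pos at h
        rw [mul_one, inv_mul_cancel] at h
        exact P.one_notMem h
      total := by
        intro a ha
        have h1 : g⁻¹ * a * g ≠ 1 := by
          intro h
          apply ha
          have : a = g * (g⁻¹ * a * g) * g⁻¹ := by group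
          rw [this, h]; group
        rcases P.total _ h1 with h | h
        · exact Or.inl h
        · right
          change g⁻¹ * a⁻¹ * g ∈ P.pos
          convert h using 1
          group }
  one_smul P := by
    ext x
    change (1 : G)⁻¹ * x * 1 ∈ P.pos ↔ _
    simp
  mul_smul g h P := by
    ext x
    change (g * h)⁻¹ * x * (g * h) ∈ P.pos ↔ h⁻¹ * (g⁻¹ * x * g) * h ∈ P.pos
    have : (g * h)⁻¹ * x * (g * h) = h⁻¹ * (g⁻¹ * x * g) * h := by group
    rw [this]

theorem LO.mem_smul (P : LO G) (g x : G) : x ∈ (g • P).pos ↔ g⁻¹ * x * g ∈ P.pos := Iff.rfl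

/-- right multiplication is an isomorphism from the chain of `h • P` to the chain of `P` -/
theorem rmul_mono (P : LO G) (h : G) :
    Monotone (fun x : Ch (h • P) => (show Ch P from ((show G from x) * h : G))) := by
  intro x y hxy
  rcases hxy with rfl | hxy
  · exact le_rfl
  · right
    change ((show G from x) * h)⁻¹ * ((show G from y) * h) ∈ P.pos
    have h1 : h⁻¹ * ((show G from x)⁻¹ * (show G from y)) * h ∈ P.pos := hxy
    convert h1 using 1
    group

end LO

end Pool.Agent.Lib.MP_106261_lc
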