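import Mathlib

/-!
# Linearly ordered groups: commutators; Fourier-Motzkin
-/

set_option autoImplicit false

namespace Pool.Agent.Lib.MP_106261_lc

open Classical

/-! ### Commutators in linearly ordered groups -/

section

variable {Q : Type} [Group Q]

/-- the commutator `(w x)⁻¹ (x w)` -/
def cm (x w : Q) : Q := (w * x)⁻¹ * (x * w)

theorem cm_inv (x w : Q) : (cm x w)⁻¹ = cm w x := by
  simp [cm]

theorem cm_conj (y x w : Q) : y * cm x w * y⁻¹ = cm (y * x * y⁻¹) (y * w * y⁻¹) := by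
  simp only [cm]; group

theorem cm_sq (x w : Q) : cm (x * x) w = (x⁻¹ * cm x w * x) * cm x w := by
  simp only [cm]; group

theorem cm_inv_sq (x w : Q) : (cm (x⁻¹ * x⁻¹) w)⁻¹ = (x * cm x w * x⁻¹) *
    (x * (x * cm x w * x⁻¹) * x⁻¹) := by
  simp [cm, mul_assoc]

variable [LinearOrder Q] [MulLeftMono Q] [MulRightMono Q]

omit [MulRightMono Q] in
theorem lt_mul_left' {a b : Q} (c : Q) (h : a < b) : c * a < c * b := by
  rcases lt_or_eq_of_le (mul_le_mul_right h.le c) with h1 | h1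
  · exact h1
  · exact absurd (mul_left_cancel h1) h.ne

omit [MulLeftMono Q] in
theorem lt_mul_right' {a b : Q} (c : Q) (h : a < b) : a * c < b * c := by
  rcases lt_or_eq_of_le (mul_le_mul_left h.le c) with h1 | h1
  · exact h1
  · exact absurd (mul_right_cancel h1) h.ne

theorem conj_mono {a b : Q} (y : Q) (h : a ≤ b) : y * a * y⁻¹ ≤ y * b * y⁻¹ := by
  gcongr

/-- doubling, positive case -/
theorem exists_double_pos (x w : Q) :
    ∃ x' w' : Q, cm x w * cm x w ≤ |cm x' w'|ₘ := by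
  rcases le_total (cm x w) (x⁻¹ * cm x w * x) with h1 | h1
  · refine ⟨x * x, w, ?_⟩
    rw [cm_sq]
    refine le_trans ?_ (le_mabs_self _)
    gcongr
  · refine ⟨x⁻¹ * x⁻¹, w, ?_⟩
    refine le_trans ?_ (inv_le_mabs _)
    rw [cm_inv_sq]
    have h2 : cm x w ≤ x * cm x w * x⁻¹ := by
      have := conj_mono x h1
      have e : x * (x⁻¹ * cm x w * x) * x⁻¹ = cm x w := by group
      rwa [e] at this
    have h3 : cm x w ≤ x * (x * cm x w * x⁻¹) * x⁻¹ := h2.trans (conj_mono x h2)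
    exact mul_le_mul' h2 h3

theorem exists_double (x w : Q) : ∃ x' w' : Q, |cm x w|ₘ * |cm x w|ₘ ≤ |cm x' w'|ₘ := by
  rcases le_total 1 (cm x w) with h | h
  · rw [mabs_of_one_le h]
    exact exists_double_pos x w
  · have h1 : 1 ≤ cm w x := by rw [← cm_inv]; exact Right.one_le_inv_iff.2 h
    have h2 : |cm x w|ₘ = cm w x := by rw [mabs_of_le_one h, cm_inv]
    rw [h2]
    exact exists_double_pos w x

theorem mabs_mul_le_max (g h : Q) : |g * h|ₘ ≤ max |g|ₘ |h|ₘ * max |g|ₘ |h|ₘ := by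
  refine sup_le ?_ ?_
  · exact mul_le_mul' ((le_mabs_self g).trans (le_max_left _ _))
      ((le_mabs_self h).trans (le_max_right _ _))
  · rw [mul_inv_rev]
    exact mul_le_mul' ((inv_le_mabs h).trans (le_max_right _ _))
      ((inv_le_mabs g).trans (le_max_left _ _))

theorem mabs_conj (y g : Q) : |y * g * y⁻¹|ₘ = y * |g|ₘ * y⁻¹ := by
  rw [mabs, mabs, mul_sup, sup_mul]
  congr 1
  group

variable (Q) in
/-- elements dominated by commutators -/
def Dsub : Subgroup Q where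
  carrier := {g | ∃ x w : Q, |g|ₘ ≤ |cm x w|ₘ}
  mul_mem' := by
    rintro g h ⟨x, w, hg⟩ ⟨x', w', hh⟩
    have key : ∃ y z : Q, max |g|ₘ |h|ₘ ≤ |cm y z|ₘ := by
      rcases le_total |cm x w|ₘ |cm x' w'|ₘ with h1 | h1
      · exact ⟨x', w', max_le (hg.trans h1) hh⟩
      · exact ⟨x, w, max_le hg (hh.trans h1)⟩
    obtain ⟨y, z, hyz⟩ := key
    obtain ⟨y', z', hyz'⟩ := exists_double y z
    exact ⟨y', z', (mabs_mul_le_max g h).trans ((mul_le_mul' hyz hyz).trans hyz')⟩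
  one_mem' := ⟨1, 1, by rw [mabs_one]; exact one_le_mabs _⟩
  inv_mem' := by
    rintro g ⟨x, w, hg⟩
    exact ⟨x, w, by rwa [mabs_inv]⟩

theorem mem_Dsub (g : Q) : g ∈ Dsub Q ↔ ∃ x w : Q, |g|ₘ ≤ |cm x w|ₘ := Iff.rfl

theorem Dsub_convex {g h : Q} (hgh : |g|ₘ ≤ |h|ₘ) (hh : h ∈ Dsub Q) : g ∈ Dsub Q := by
  obtain ⟨x, w, h1⟩ := hh
  exact ⟨x, w, hgh.trans h1⟩

theorem cm_mem_Dsub (x w : Q) : cm x w ∈ Dsub Q := ⟨x, w, le_rfl⟩

theorem Dsub_normal (y : Q) {g : Q} (hg : g ∈ Dsub Q) : y * g * y⁻¹ ∈ Dsub Q := by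
  obtain ⟨x, w, h1⟩ := hg
  refine ⟨y * x * y⁻¹, y * w * y⁻¹, ?_⟩
  rw [← cm_conj, mabs_conj, mabs_conj]
  exact conj_mono y h1

theorem Dsub_sign {v w : Q} (hv : v ∉ Dsub Q) (hv1 : 1 < v) (hw : w⁻¹ * v ∈ Dsub Q) : 1 < w := by
  by_contra hno
  push Not at hno
  apply hv
  have h1 : v ≤ w⁻¹ * v := by
    calc v = 1 * v := (one_mul v).symm
      _ ≤ w⁻¹ * v := by
        have : 1 ≤ w⁻¹ := Right.one_le_inv_iff.2 hno
        gcongr
  refine Dsub_convex ?_ hw
  rw [mabs_of_one_le hv1.le, mabs_of_one_le (hv1.le.trans h1)]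
  exact h1

/-- if all commutators are at most `|v|²` and `Q` is not commutative then `v` is not dominated by
a commutator -/
theorem notMem_Dsub {v : Q} (h : ∀ x w : Q, |cm x w|ₘ ≤ |v|ₘ * |v|ₘ)
    (hnc : ∃ x w : Q, x * w ≠ w * x) : v ∉ Dsub Q := by
  rintro ⟨x, w, hv⟩
  obtain ⟨x2, w2, h2⟩ := exists_double x w
  obtain ⟨x3, w3, h3⟩ := exists_double x2 w2
  have h4 : |v|ₘ * |v|ₘ ≤ |cm x2 w2|ₘ := (mul_le_mul' hv hv).trans h2
  have h5 : |cm x2 w2|ₘ * |cm x2 w2|ₘ ≤ |cm x2 w2|ₘ := h3.trans ((h x3 w3).trans h4)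
  have h6 : |cm x2 w2|ₘ ≤ 1 := by
    by_contra hno
    push Not at hno
    have := lt_mul_left' |cm x2 w2|ₘ hno
    rw [mul_one] at this
    exact absurd h5 (not_le.2 this)
  obtain ⟨x, w, hxw⟩ := hnc
  have h7 : |cm x w|ₘ ≤ 1 := (h x w).trans (h4.trans h6)
  have h8 : cm x w = 1 := by
    apply le_antisymm
    · exact (le_mabs_self _).trans h7
    · have := (inv_le_mabs (cm x w)).trans h7
      exact Right.inv_le_one_iff.1 this
  apply hxw
  rw [cm] at h8
  exact (inv_mul_eq_one.1 h8).symm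

/-- the commutator bound in the presence of a strong unit -/
theorem cm_lt_of_unit {A : Q} (hA : 1 < A)
    (hu : ∀ g : Q, ∃ N : ℕ, (A ^ N)⁻¹ ≤ g ∧ g ≤ A ^ N) (x w : Q) : cm x w < A * A := by
  have hmono : ∀ a b : ℤ, a ≤ b → A ^ a ≤ A ^ b := by
    intro a b hab
    obtain ⟨k, rfl⟩ := Int.le.dest hab
    rw [zpow_add, zpow_natCast]
    calc A ^ a = A ^ a * 1 := (mul_one _).symm
      _ ≤ A ^ a * A ^ k := by
        have : 1 ≤ A ^ k := one_le_pow_of_one_le' hA.le k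
        gcongr
  have hstrict : ∀ a b : ℤ, A ^ a < A ^ b → a < b := by
    intro a b hab
    by_contra hno
    push Not at hno
    exact absurd (hmono b a hno) (not_le.2 hab)
  have hsucc : ∀ a : ℤ, A ^ a < A ^ (a + 1) := by
    intro a
    rw [zpow_add_one]
    calc A ^ a = A ^ a * 1 := (mul_one _).symm
      _ < A ^ a * A := lt_mul_left' _ hA
  have hfloor : ∀ g : Q, ∃ a : ℤ, A ^ a ≤ g ∧ g < A ^ (a + 1) := by
    intro g
    obtain ⟨N, h1, h2⟩ := hu g
    obtain ⟨a, ha, hmax⟩ := Int.exists_greatest_of_bdd (P := fun a : ℤ => A ^ a ≤ g)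
      ⟨(N : ℤ) + 1, by
        intro z hz
        have h3 : A ^ z < A ^ ((N : ℤ) + 1) := by
          refine lt_of_le_of_lt (hz.trans h2) ?_
          have := hsucc (N : ℤ)
          rwa [zpow_natCast] at this
        exact (hstrict _ _ h3).le⟩ ⟨-(N : ℤ), by
        rwa [zpow_neg, zpow_natCast]⟩
    refine ⟨a, ha, ?_⟩
    by_contra hno
    push Not at hno
    have := hmax (a + 1) hno
    omega
  obtain ⟨a, ha1, ha2⟩ := hfloor x
  obtain ⟨b, hb1, hb2⟩ := hfloor w
  have h1 : x * w < A ^ (a + 1) * A ^ (b + 1) := by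
    calc x * w ≤ x * A ^ (b + 1) := by have := hb2.le; gcongr
      _ < A ^ (a + 1) * A ^ (b + 1) := lt_mul_right' _ ha2
  have h2 : A ^ b * A ^ a ≤ w * x := mul_le_mul' hb1 ha1
  have h3 : (w * x)⁻¹ ≤ (A ^ b * A ^ a)⁻¹ := inv_le_inv_iff.2 h2
  calc cm x w = (w * x)⁻¹ * (x * w) := rfl
    _ ≤ (A ^ b * A ^ a)⁻¹ * (x * w) := by gcongr
    _ < (A ^ b * A ^ a)⁻¹ * (A ^ (a + 1) * A ^ (b + 1)) := lt_mul_left' _ h1
    _ = A * A := by
      rw [← zpow_add, ← zpow_add, ← zpow_neg, ← zpow_add]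
      have : -(b + a) + (a + 1 + (b + 1)) = 1 + 1 := by ring
      rw [this, zpow_add, zpow_one]

theorem mabs_cm_le_of_unit {A : Q} (hA : 1 ≤ A)
    (hu : ∀ g : Q, ∃ N : ℕ, (A ^ N)⁻¹ ≤ g ∧ g ≤ A ^ N) (x w : Q) : |cm x w|ₘ ≤ A * A := by
  rcases lt_or_eq_of_le hA with hA | hA
  · refine sup_le (cm_lt_of_unit hA hu x w).le ?_
    rw [cm_inv]
    exact (cm_lt_of_unit hA hu w x).le
  · have h1 : ∀ g : Q, g = 1 := by
      intro g
      obtain ⟨N, h1, h2⟩ := hu g
      rw [← hA, one_pow] at h1 h2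
      rw [inv_one] at h1
      exact le_antisymm h2 h1
    rw [h1 (cm x w), mabs_one]
    exact one_le_mul hA.le hA.le

end

/-! ### Fourier-Motzkin elimination -/

theorem fm (n : ℕ) (A : Set (Fin n → ℤ)) (hadd : ∀ x ∈ A, ∀ y ∈ A, x + y ∈ A)
    (h0 : (0 : Fin n → ℤ) ∉ A) (S : Finset (Fin n → ℤ)) (hS : ∀ s ∈ S, s ∈ A) :
    ∃ α : Fin n → ℝ, ∀ s ∈ S, 0 < ∑ i, (s i : ℝ) * α i := by
  induction n with
  | zero =>
    refine ⟨fun i => i.elim0, ?_⟩
    intro s hs
    have : s = 0 := Subsingleton.elim _ _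
    exact absurd (this ▸ hS s hs) h0
  | succ n ih =>
    have hmul : ∀ k : ℕ, 0 < k → ∀ x ∈ A, (k : ℤ) • x ∈ A := by
      intro k hk
      induction k with
      | zero => exact absurd hk (lt_irrefl _)
      | succ k ihk =>
        intro x hx
        rcases Nat.eq_zero_or_pos k with rfl | hk'
        · simpa using hx
        · have := hadd _ (ihk hk' x hx) _ hx
          have e : ((k + 1 : ℕ) : ℤ) • x = (k : ℤ) • x + x := by
            push_cast
            rw [add_smul, one_smul]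
          rw [e]; exact this
    have hmul' : ∀ k : ℤ, 0 < k → ∀ x ∈ A, k • x ∈ A := by
      intro k hk x hx
      obtain ⟨m, rfl⟩ := Int.eq_ofNat_of_zero_le hk.le
      exact hmul m (by exact_mod_cast hk) x hx
    let A' : Set (Fin n → ℤ) := {v | (Fin.cons 0 v : Fin (n + 1) → ℤ) ∈ A}
    let S0 := S.filter (fun s => s 0 = 0)
    let Sp := S.filter (fun s => 0 < s 0)
    let Sn := S.filter (fun s => s 0 < 0)
    let S' : Finset (Fin n → ℤ) := S0.image Fin.tail ∪
      (Sp ×ˢ Sn).image (fun q => (-(q.2 0)) • Fin.tail q.1 + (q.1 0) • Fin.tail q.2)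
    obtain ⟨α', hα'⟩ := ih A' (by
        intro x hx y hy
        change (Fin.cons 0 (x + y) : Fin (n + 1) → ℤ) ∈ A
        have e : (Fin.cons 0 (x + y) : Fin (n + 1) → ℤ)
            = (Fin.cons 0 x : Fin (n + 1) → ℤ) + (Fin.cons 0 y : Fin (n + 1) → ℤ) := by
          funext i
          refine Fin.cases ?_ (fun j => ?_) i <;> simp
        rw [e]
        exact hadd _ hx _ hy) (by
        change ¬ (Fin.cons 0 (0 : Fin n → ℤ) : Fin (n + 1) → ℤ) ∈ A
        have e : (Fin.cons 0 (0 : Fin n → ℤ) : Fin (n + 1) → ℤ) = 0 := by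
          funext i
          refine Fin.cases ?_ (fun j => ?_) i <;> simp
        rw [e]; exact h0) S' (by
        intro s hs
        rcases Finset.mem_union.1 hs with hs | hs
        · obtain ⟨t, ht, rfl⟩ := Finset.mem_image.1 hs
          obtain ⟨ht1, ht2⟩ := Finset.mem_filter.1 ht
          change (Fin.cons 0 (Fin.tail t) : Fin (n + 1) → ℤ) ∈ A
          have e : (Fin.cons 0 (Fin.tail t) : Fin (n + 1) → ℤ) = t := by
            rw [← ht2]; exact Fin.cons_self_tail t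
          rw [e]; exact hS t ht1
        · obtain ⟨q, hq, rfl⟩ := Finset.mem_image.1 hs
          obtain ⟨hq1, hq2⟩ := Finset.mem_product.1 hq
          obtain ⟨hp1, hp2⟩ := Finset.mem_filter.1 hq1
          obtain ⟨hn1, hn2⟩ := Finset.mem_filter.1 hq2
          change (Fin.cons 0 ((-(q.2 0)) • Fin.tail q.1 + (q.1 0) • Fin.tail q.2) :
            Fin (n + 1) → ℤ) ∈ A
          have e : (Fin.cons 0 ((-(q.2 0)) • Fin.tail q.1 + (q.1 0) • Fin.tail q.2) :
            Fin (n + 1) → ℤ) = (-(q.2 0)) • q.1 + (q.1 0) • q.2 := by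
            funext i
            refine Fin.cases ?_ (fun j => ?_) i
            · simp; ring
            · simp [Fin.tail]
          rw [e]
          exact hadd _ (hmul' _ (by linarith) _ (hS _ hp1)) _ (hmul' _ hp2 _ (hS _ hn1)))
    obtain ⟨m, hm1, hm2⟩ := Order.exists_between_finsets
      (Sp.image (fun s => -(∑ i, (s (Fin.succ i) : ℝ) * α' i) / (s 0 : ℝ)))
      (Sn.image (fun s => (∑ i, (s (Fin.succ i) : ℝ) * α' i) / (-(s 0 : ℝ)))) (by
        intro x hx y hy
        obtain ⟨p, hp, rfl⟩ := Finset.mem_image.1 hx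
        obtain ⟨q, hq, rfl⟩ := Finset.mem_image.1 hy
        obtain ⟨hp1, hp2⟩ := Finset.mem_filter.1 hp
        obtain ⟨hq1, hq2⟩ := Finset.mem_filter.1 hq
        have h1 := hα' ((-(q 0)) • Fin.tail p + (p 0) • Fin.tail q) (by
          apply Finset.mem_union_right
          exact Finset.mem_image.2 ⟨(p, q), Finset.mem_product.2 ⟨hp, hq⟩, rfl⟩)
        have h2 : ∑ i, (((-(q 0)) • Fin.tail p + (p 0) • Fin.tail q) i : ℝ) * α' i
            = (-(q 0 : ℝ)) * (∑ i, (p (Fin.succ i) : ℝ) * α' i)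
              + (p 0 : ℝ) * (∑ i, (q (Fin.succ i) : ℝ) * α' i) := by
          rw [Finset.mul_sum, Finset.mul_sum, ← Finset.sum_add_distrib]
          refine Finset.sum_congr rfl fun i _ => ?_
          simp only [Pi.add_apply, Pi.smul_apply, smul_eq_mul, Fin.tail]
          push_cast
          ring
        rw [h2] at h1
        have hp' : (0 : ℝ) < (p 0 : ℝ) := by exact_mod_cast hp2
        have hq' : (0 : ℝ) < -(q 0 : ℝ) := by
          have : (q 0 : ℝ) < 0 := by exact_mod_cast hq2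
          linarith
        rw [div_lt_div_iff₀ hp' hq']
        nlinarith)
    refine ⟨Fin.cons m α', ?_⟩
    intro s hs
    rw [Fin.sum_univ_succ]
    simp only [Fin.cons_zero, Fin.cons_succ]
    rcases lt_trichotomy (s 0) 0 with h | h | h
    · have h1 := hm2 _ (Finset.mem_image_of_mem _ (Finset.mem_filter.2 ⟨hs, h⟩))
      have hq' : (0 : ℝ) < -(s 0 : ℝ) := by
        have : (s 0 : ℝ) < 0 := by exact_mod_cast h
        linarith
      rw [lt_div_iff₀ hq'] at h1
      nlinarith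
    · have h1 := hα' (Fin.tail s) (by
        apply Finset.mem_union_left
        exact Finset.mem_image_of_mem _ (Finset.mem_filter.2 ⟨hs, h⟩))
      rw [h]
      simpa [Fin.tail] using h1
    · have h1 := hm1 _ (Finset.mem_image_of_mem _ (Finset.mem_filter.2 ⟨hs, h⟩))
      have hp' : (0 : ℝ) < (s 0 : ℝ) := by exact_mod_cast h
      rw [div_lt_iff₀ hp'] at h1
      nlinarith

end Pool.Agent.Lib.MP_106261_lc
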