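import Pool.Agent.Lib.MP_106261_lc.Theta
import Pool.Agent.Lib.MP_106261_lc.Ordered

/-!
# The predicate `Big`: non-vanishing on the abelian part is first-order
-/

set_option autoImplicit false

namespace Pool.Agent.Lib.MP_106261_lc

open Classical

/-! ### Bi-invariant orders as linearly ordered groups -/

section

variable {G : Type} [Group G]

instance (P : LO G) : Group (Ch P) := inferInstanceAs (Group G)

theorem LO.one_lt_iff (P : LO G) (g : Ch P) : 1 < g ↔ (show G from g) ∈ P.pos := by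
  have h := P.lt_iff (1 : G) (show G from g)
  rw [LO.lt, inv_one, one_mul] at h
  exact h.symm

instance (P : LO G) : MulLeftMono (Ch P) := ⟨by
  have key : ∀ a b c : G, b⁻¹ * c ∈ P.pos → (a * b)⁻¹ * (a * c) ∈ P.pos := by
    intro a b c h
    rwa [mul_inv_rev, mul_assoc, inv_mul_cancel_left]
  intro a b c h
  rcases h with rfl | h
  · exact le_rfl
  · exact Or.inr (key a b c h)⟩

theorem LO.IsBi.mulRightMono {P : LO G} (hP : P.IsBi) : MulRightMono (Ch P) := ⟨by
  have key : ∀ a b c : G, b⁻¹ * c ∈ P.pos → (b * a)⁻¹ * (c * a) ∈ P.pos := by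
    intro a b c h
    have h1 : b⁻¹ * c ∈ (a • P).pos := by rw [hP]; exact h
    rw [LO.mem_smul] at h1
    have e : (b * a)⁻¹ * (c * a) = a⁻¹ * (b⁻¹ * c) * a := by group
    rw [e]; exact h1
  intro a b c h
  rcases h with rfl | h
  · exact le_rfl
  · exact Or.inr (key a b c h)⟩

end

theorem IsL.map_mabs {F K : Type} [Group F] [Lattice F] [Group K] [Lattice K] {φ : F →* K}
    (hφ : IsL φ) (a : F) : φ |a|ₘ = |φ a|ₘ := by
  rw [mabs, mabs, hφ.1, map_inv]

variable {n : ℕ} {F : Type} [Group F] [Lattice F] [MulLeftMono F] [MulRightMono F]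
  {ι : Fin n → F}

/-- evaluation at a bi-invariant order -/
noncomputable def IsFree.evHom (hF : IsFree n F ι) (P : LO (FreeGroup (Fin n))) (hP : P.IsBi) :
    F →* Ch P where
  toFun f := hF.ev P f
  map_one' := hF.ev_one P
  map_mul' f g := by
    rw [hF.ev_mul, hP]; rfl

theorem IsFree.evHom_isL (hF : IsFree n F ι) (P : LO (FreeGroup (Fin n))) (hP : P.IsBi) :
    IsL (hF.evHom P hP) :=
  ⟨hF.ev_sup P, hF.ev_inf P⟩

theorem IsFree.hom_ext (hF : IsFree n F ι) {K : Type} [Group K] [Lattice K] [MulLeftMono K]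
    [MulRightMono K] {φ ψ : F →* K} (hφ : IsL φ) (hψ : IsL ψ) (h : ∀ i, φ (ι i) = ψ (ι i)) :
    φ = ψ := by
  obtain ⟨χ, -, hχ⟩ := hF K (fun i => ψ (ι i))
  rw [hχ φ ⟨hφ.1, hφ.2, h⟩, hχ ψ ⟨hψ.1, hψ.2, fun i => rfl⟩]

theorem IsFree.isClopen_ev (hF : IsFree n F ι) (f : F) (A : Set (FreeGroup (Fin n))) :
    IsClopen {P | hF.ev P f ∈ A} := by
  have hopen : ∀ A : Set (FreeGroup (Fin n)), IsOpen {P | hF.ev P f ∈ A} := by
    intro A
    rw [isOpen_iff_mem_nhds]
    intro P hP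
    obtain ⟨S, hS, hS'⟩ := hF.locConst f P
    have h1 : IsOpen (⋂ s ∈ S, {P' : LO (FreeGroup (Fin n)) | s ∈ P'.pos}) :=
      isOpen_biInter_finset fun s _ => (LO.isClopen_pos s).isOpen
    refine Filter.mem_of_superset (h1.mem_nhds (by simpa using hS)) ?_
    intro P' hP'
    have h2 : hF.ev P' f = hF.ev P f := hS' P' (by simpa using hP')
    change hF.ev P' f ∈ A
    rw [h2]
    exact hP
  refine ⟨⟨?_⟩, hopen A⟩
  exact hopen Aᶜ

/-! ### Real evaluations -/

/-- evaluation of the free l-group at a real point -/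
noncomputable def IsFree.av (hF : IsFree n F ι) (α : Fin n → ℝ) : F →* Multiplicative ℝ :=
  hF.hom _ (fun i => Multiplicative.ofAdd (α i))

theorem IsFree.av_isL (hF : IsFree n F ι) (α : Fin n → ℝ) : IsL (hF.av α) := hF.hom_isL _ _

theorem IsFree.av_gen (hF : IsFree n F ι) (α : Fin n → ℝ) (i : Fin n) :
    hF.av α (ι i) = Multiplicative.ofAdd (α i) := hF.hom_gen _ _ i

/-- evaluation of the free group at a real point -/
noncomputable def ah (α : Fin n → ℝ) : FreeGroup (Fin n) →* Multiplicative ℝ :=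
  FreeGroup.lift (fun i => Multiplicative.ofAdd (α i))

theorem ah_of (α : Fin n → ℝ) (i : Fin n) : ah α (FreeGroup.of i) = Multiplicative.ofAdd (α i) := by
  rw [ah, FreeGroup.lift_apply_of]

theorem IsFree.av_wd (hF : IsFree n F ι) (α : Fin n → ℝ) (g : FreeGroup (Fin n)) :
    hF.av α (wd ι g) = ah α g := by
  have h : (hF.av α).comp (wd ι) = ah α := by
    apply FreeGroup.ext_hom
    intro i
    rw [MonoidHom.comp_apply, wd, FreeGroup.lift_apply_of, hF.av_gen, ah_of]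
  exact DFunLike.congr_fun h g

/-- the bi-invariant order refining a real evaluation -/
theorem exists_lo_of_real (α : Fin n → ℝ) : ∃ P : LO (FreeGroup (Fin n)), P.IsBi ∧
    (∀ g, 1 < ah α g → g ∈ P.pos) ∧ (∀ g ∈ P.pos, 1 ≤ ah α g) := by
  obtain ⟨Q, hQ1, hQ2, hQ3, hQ4⟩ := exists_biorder (Fin n)
  refine ⟨⟨{g | 1 < ah α g ∨ (ah α g = 1 ∧ g ∈ Q)}, ?_, ?_, ?_⟩, ?_, ?_, ?_⟩
  · rintro a (ha | ⟨ha, ha'⟩) b (hb | ⟨hb, hb'⟩)
    · left; rw [map_mul]; exact one_lt_mul' ha hb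
    · left; rw [map_mul, hb, mul_one]; exact ha
    · left; rw [map_mul, ha, one_mul]; exact hb
    · right; exact ⟨by rw [map_mul, ha, hb, one_mul], hQ1 _ ha' _ hb'⟩
  · rintro (h | ⟨_, h⟩)
    · rw [map_one] at h; exact lt_irrefl _ h
    · exact hQ2 h
  · intro a ha
    rcases lt_trichotomy 1 (ah α a) with h | h | h
    · exact Or.inl (Or.inl h)
    · rcases hQ3 a ha with h' | h'
      · exact Or.inl (Or.inr ⟨h.symm, h'⟩)
      · exact Or.inr (Or.inr ⟨by rw [map_inv, ← h, inv_one], h'⟩)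
    · right; left
      rw [map_inv]; exact one_lt_inv'.2 h
  · intro g
    ext x
    change (1 < ah α (g⁻¹ * x * g) ∨ (ah α (g⁻¹ * x * g) = 1 ∧ g⁻¹ * x * g ∈ Q)) ↔
      (1 < ah α x ∨ (ah α x = 1 ∧ x ∈ Q))
    have e : ah α (g⁻¹ * x * g) = ah α x := by
      rw [map_mul, map_mul, map_inv, mul_comm, mul_inv_cancel_left]
    have e2 : g⁻¹ * x * g ∈ Q ↔ x ∈ Q := by
      constructor
      · intro h
        have := hQ4 _ h g
        have e3 : g * (g⁻¹ * x * g) * g⁻¹ = x := by group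
        rwa [e3] at this
      · intro h
        have := hQ4 _ h g⁻¹
        rwa [inv_inv] at this
    rw [e, e2]
  · intro g h
    exact Or.inl h
  · rintro g (h | ⟨h, _⟩)
    · exact h.le
    · exact h.symm.le

theorem IsFree.av_eq (hF : IsFree n F ι) (α : Fin n → ℝ) (P : LO (FreeGroup (Fin n)))
    (hP : P.IsBi) (hα : ∀ g ∈ P.pos, 1 ≤ ah α g) (f : F) : hF.av α f = ah α (hF.ev P f) := by
  let β : Ch P →* Multiplicative ℝ := ah α
  have hβ : Monotone β := by
    intro x y hxy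
    rcases hxy with rfl | hxy
    · exact le_rfl
    · have h1 : 1 ≤ β (x⁻¹ * y) := hα _ hxy
      rw [map_mul, map_inv] at h1
      have h2 := mul_le_mul_right h1 (β x)
      rwa [mul_one, mul_inv_cancel_left] at h2
  have h : hF.av α = β.comp (hF.evHom P hP) := by
    apply hF.hom_ext (hF.av_isL α)
    · constructor
      · intro a b
        rw [MonoidHom.comp_apply, (hF.evHom_isL P hP).1, hβ.map_sup]; rfl
      · intro a b
        rw [MonoidHom.comp_apply, (hF.evHom_isL P hP).2, hβ.map_inf]; rfl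
    · intro i
      rw [hF.av_gen]
      change _ = ah α (hF.ev P (ι i))
      rw [hF.ev_gen, ah_of]
  rw [h]; rfl

/-! ### The predicate `Big` -/

/-- the term expressing that the commutator of `x, w` is at most `|a|²` on the cozero set of
`V` -/
def tt {M : Type} [Group M] [Lattice M] (x w a V : M) : M :=
  ((|cm x w|ₘ * (|a|ₘ * |a|ₘ)⁻¹) ⊔ 1) ⊓ |V|ₘ

/-- `a` does not vanish on the abelian part -/
def Big (k : ℕ) (M : Type) [Group M] [Lattice M] (a : M) : Prop :=
  ∃ V : M, ¬ Theta k M V ∧ ∀ x w : M, Theta k M (tt x w a V)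

theorem tt_eq_one {Q : Type} [Group Q] [LinearOrder Q] [MulLeftMono Q] [MulRightMono Q]
    (x w a V : Q) : tt x w a V = 1 ↔ V = 1 ∨ |cm x w|ₘ ≤ |a|ₘ * |a|ₘ := by
  have h1 : |cm x w|ₘ * (|a|ₘ * |a|ₘ)⁻¹ ≤ 1 ↔ |cm x w|ₘ ≤ |a|ₘ * |a|ₘ := by
    constructor
    · intro h
      have := mul_le_mul_left h (|a|ₘ * |a|ₘ)
      rwa [inv_mul_cancel_right, one_mul] at this
    · intro h
      have := mul_le_mul_left h (|a|ₘ * |a|ₘ)⁻¹
      rwa [mul_inv_cancel] at this
  rw [tt]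
  constructor
  · intro h
    rcases le_total ((|cm x w|ₘ * (|a|ₘ * |a|ₘ)⁻¹) ⊔ 1) |V|ₘ with h2 | h2
    · rw [inf_eq_left.2 h2] at h
      right
      rw [← h1]
      exact le_sup_left.trans h.le
    · rw [inf_eq_right.2 h2] at h
      left
      exact mabs_eq_one.1 h
  · rintro (h | h)
    · rw [h, mabs_one]
      exact inf_eq_right.2 le_sup_right
    · rw [sup_eq_right.2 (h1.2 h)]
      exact inf_eq_left.2 (one_le_mabs V)

theorem IsL.map_tt {F K : Type} [Group F] [Lattice F] [Group K] [Lattice K] {φ : F →* K}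
    (hφ : IsL φ) (x w a V : F) : φ (tt x w a V) = tt (φ x) (φ w) (φ a) (φ V) := by
  simp only [tt, cm, hφ.1, hφ.2, hφ.map_mabs, map_mul, map_inv, map_one]

theorem IsFree.theta_tt (hF : IsFree n F ι) (hn : 0 < n) {k : ℕ} (hk : n ≤ k) (x w a V : F) :
    Theta k F (tt x w a V) ↔ ∀ (P : LO (FreeGroup (Fin n))) (hP : P.IsBi),
      hF.evHom P hP V = 1 ∨ |cm (hF.evHom P hP x) (hF.evHom P hP w)|ₘ
        ≤ |hF.evHom P hP a|ₘ * |hF.evHom P hP a|ₘ := by
  rw [hF.theta_iff hn hk]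
  refine forall_congr' fun P => forall_congr' fun hP => ?_
  haveI := hP.mulRightMono
  have h1 : hF.ev P (tt x w a V) = 1 ↔ hF.evHom P hP (tt x w a V) = 1 := Iff.rfl
  rw [h1, (hF.evHom_isL P hP).map_tt, tt_eq_one]

theorem exists_unit_bound {Q : Type} [Group Q] [LinearOrder Q] [MulLeftMono Q] [MulRightMono Q]
    {J : Type} (x : J → Q) (hx : Subgroup.closure (Set.range x) = ⊤) {A : Q} (K : ℕ)
    (h1 : ∀ i, x i ≤ A ^ K) (h2 : ∀ i, (x i)⁻¹ ≤ A ^ K) (g : Q) :
    ∃ N : ℕ, (A ^ N)⁻¹ ≤ g ∧ g ≤ A ^ N := by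
  let H : Subgroup Q :=
    { carrier := {g | ∃ N : ℕ, (A ^ N)⁻¹ ≤ g ∧ g ≤ A ^ N}
      mul_mem' := by
        rintro a b ⟨N, ha1, ha2⟩ ⟨M, hb1, hb2⟩
        refine ⟨N + M, ?_, ?_⟩
        · rw [add_comm, pow_add, mul_inv_rev]
          exact mul_le_mul' ha1 hb1
        · rw [pow_add]
          exact mul_le_mul' ha2 hb2
      one_mem' := ⟨0, by simp, by simp⟩
      inv_mem' := by
        rintro a ⟨N, ha1, ha2⟩
        exact ⟨N, inv_le_inv_iff.2 ha2, by
          have := inv_le_inv_iff.2 ha1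
          rwa [inv_inv] at this⟩ }
  have h3 : (⊤ : Subgroup Q) ≤ H := by
    rw [← hx, Subgroup.closure_le]
    rintro _ ⟨i, rfl⟩
    refine ⟨K, ?_, h1 i⟩
    have := inv_le_inv_iff.2 (h2 i)
    rwa [inv_inv] at this
  exact h3 (Subgroup.mem_top g)

theorem IsFree.big_of_av (hF : IsFree n F ι) (hn : 0 < n) {k : ℕ} (hk : n ≤ k) (a : F)
    (α : Fin n → ℝ) (h : hF.av α a ≠ 1) : Big k F a := by
  obtain ⟨P₀, hP₀, hpos, hpos'⟩ := exists_lo_of_real α
  -- the value and its positive version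
  have hv : ah α (hF.ev P₀ a) ≠ 1 := by rwa [← hF.av_eq α P₀ hP₀ hpos']
  obtain ⟨v', hv', hv'pos⟩ : ∃ v' : FreeGroup (Fin n),
      (v' = hF.ev P₀ a ∨ v' = (hF.ev P₀ a)⁻¹) ∧ 1 < ah α v' := by
    rcases lt_or_gt_of_ne hv with h1 | h1
    · exact ⟨(hF.ev P₀ a)⁻¹, Or.inr rfl, by rw [map_inv]; exact one_lt_inv'.2 h1⟩
    · exact ⟨hF.ev P₀ a, Or.inl rfl, h1⟩
  -- the exponent
  obtain ⟨K, hK⟩ : ∃ K : ℕ, ∀ i : Fin n, ∀ e : ℤ, (e = 1 ∨ e = -1) →
      1 < ah α (FreeGroup.of i ^ e * v' ^ K) := by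
    have hr : 0 < Multiplicative.toAdd (ah α v') := hv'pos
    obtain ⟨K, hK⟩ := exists_nat_gt ((∑ i, |α i|) / Multiplicative.toAdd (ah α v'))
    refine ⟨K, ?_⟩
    intro i e he
    rw [div_lt_iff₀ hr] at hK
    have h1 : |α i| ≤ ∑ i, |α i| :=
      Finset.single_le_sum (f := fun i => |α i|) (fun i _ => abs_nonneg _) (Finset.mem_univ i)
    rw [map_mul, map_zpow, map_pow, ah_of]
    change 0 < e • α i + K • Multiplicative.toAdd (ah α v')
    rw [nsmul_eq_mul]
    have h2 := neg_abs_le (α i)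
    have h3 := le_abs_self (α i)
    rcases he with rfl | rfl
    · rw [one_smul]; linarith
    · rw [neg_smul, one_smul]; linarith
  -- the clopen set
  let 𝒱 : Set (LO (FreeGroup (Fin n))) := {P | hF.ev P a ∈ ({hF.ev P₀ a} : Set _)} ∩
    ⋂ q : Fin n × Bool, {P | FreeGroup.of q.1 ^ (if q.2 then (1 : ℤ) else -1) * v' ^ K ∈ P.pos}
  have h𝒱 : IsClopen 𝒱 := (hF.isClopen_ev a _).inter
    (isClopen_iInter_of_finite fun q => LO.isClopen_pos _)
  obtain ⟨V, hV⟩ := hF.exists_coz_eq hn 𝒱 h𝒱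
  refine ⟨V, ?_, ?_⟩
  · intro hΘ
    have h1 := hF.theta_sound hn hΘ P₀ hP₀
    have h2 : P₀ ∈ hF.coz V := by
      rw [hV]
      refine ⟨rfl, Set.mem_iInter.2 ?_⟩
      rintro ⟨i, b⟩
      apply hpos
      cases b
      · exact hK i (-1) (Or.inr rfl)
      · exact hK i 1 (Or.inl rfl)
    exact h2 h1
  · intro x w
    rw [hF.theta_tt hn hk]
    intro P hP
    haveI := hP.mulRightMono
    by_cases hVP : hF.evHom P hP V = 1
    · exact Or.inl hVP
    · right
      have h2 : P ∈ 𝒱 := by rw [← hV]; exact hVP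
      obtain ⟨h3, h4⟩ := h2
      have h3 : hF.ev P a = hF.ev P₀ a := h3
      have h5 : (show Ch P from v') ≤ |hF.evHom P hP a|ₘ := by
        rcases hv' with h6 | h6
        · rw [h6, ← h3]; exact le_mabs_self _
        · rw [h6, ← h3]; exact inv_le_mabs _
      have h6 : (show Ch P from v') ^ K ≤ |hF.evHom P hP a|ₘ ^ K := pow_le_pow_left' h5 K
      have hcl : Subgroup.closure (Set.range (fun i : Fin n => (show Ch P from FreeGroup.of i)))
          = (⊤ : Subgroup (Ch P)) := FreeGroup.closure_range_of (Fin n)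
      refine mabs_cm_le_of_unit (one_le_mabs _) (exists_unit_bound _ hcl K ?_ ?_) _ _
      · intro i
        refine le_trans ?_ h6
        have h7 := Set.mem_iInter.1 h4 (i, false)
        have h8 : (1 : Ch P) < (show Ch P from FreeGroup.of i)⁻¹ * (show Ch P from v') ^ K := by
          rw [P.one_lt_iff]
          have : FreeGroup.of i ^ (-1 : ℤ) * v' ^ K ∈ P.pos := h7
          rwa [zpow_neg_one] at this
        have := mul_le_mul_right h8.le (show Ch P from FreeGroup.of i)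
        rwa [mul_one, mul_inv_cancel_left] at this
      · intro i
        refine le_trans ?_ h6
        have h7 := Set.mem_iInter.1 h4 (i, true)
        have h8 : (1 : Ch P) < (show Ch P from FreeGroup.of i) * (show Ch P from v') ^ K := by
          rw [P.one_lt_iff]
          have : FreeGroup.of i ^ (1 : ℤ) * v' ^ K ∈ P.pos := h7
          rwa [zpow_one] at this
        have := mul_le_mul_right h8.le (show Ch P from FreeGroup.of i)⁻¹
        rwa [mul_one, inv_mul_cancel_left] at this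

/-! ### The converse -/

/-- local structure modulo the convex normal subgroup of elements dominated by commutators -/
theorem IsFree.sloc (hF : IsFree n F ι) {Q : Type} [Group Q] [LinearOrder Q] [MulLeftMono Q]
    [MulRightMono Q] (φ : F →* Q) (hφ : IsL φ) (β : (Fin n → ℝ) → (Q →* Multiplicative ℝ))
    (hβ : ∀ α i, β α (φ (ι i)) = Multiplicative.ofAdd (α i)) (f : F) :
    ∃ W S : Finset Q, (∀ w ∈ W, w⁻¹ * φ f ∈ Dsub Q) ∧ (∀ s ∈ S, 1 < s ∧ s ∉ Dsub Q) ∧
      ∀ α, (∀ s ∈ S, 1 < β α s) → ∃ w ∈ W, hF.av α f = β α w := by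
  refine hF.induction (p := fun f => ∃ W S : Finset Q, (∀ w ∈ W, w⁻¹ * φ f ∈ Dsub Q) ∧
    (∀ s ∈ S, 1 < s ∧ s ∉ Dsub Q) ∧
      ∀ α, (∀ s ∈ S, 1 < β α s) → ∃ w ∈ W, hF.av α f = β α w) ?_ ?_ ?_ ?_ ?_ f
  · exact ⟨{1}, ∅, by simp [one_mem], by simp, fun α _ => ⟨1, by simp, by simp⟩⟩
  · intro i
    refine ⟨{φ (ι i)}, ∅, by simp [one_mem], by simp, fun α _ => ⟨φ (ι i), by simp, ?_⟩⟩
    rw [hβ, hF.av_gen]
  · rintro f g ⟨W1, S1, h1, h1', h1''⟩ ⟨W2, S2, h2, h2', h2''⟩
    refine ⟨(W1 ×ˢ W2).image (fun q => q.1 * q.2), S1 ∪ S2, ?_, ?_, ?_⟩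
    · intro w hw
      obtain ⟨⟨w1, w2⟩, hq, rfl⟩ := Finset.mem_image.1 hw
      obtain ⟨hw1, hw2⟩ := Finset.mem_product.1 hq
      have e : (w1 * w2)⁻¹ * φ (f * g)
          = (w2⁻¹ * (w1⁻¹ * φ f) * (w2⁻¹)⁻¹) * (w2⁻¹ * φ g) := by
        rw [map_mul]; group
      change (w1 * w2)⁻¹ * φ (f * g) ∈ Dsub Q
      rw [e]
      exact mul_mem (Dsub_normal _ (h1 w1 hw1)) (h2 w2 hw2)
    · intro s hs
      rcases Finset.mem_union.1 hs with hs | hs
      · exact h1' s hs
      · exact h2' s hs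
    · intro α hα
      obtain ⟨w1, hw1, hw1'⟩ := h1'' α (fun s hs => hα s (Finset.mem_union_left _ hs))
      obtain ⟨w2, hw2, hw2'⟩ := h2'' α (fun s hs => hα s (Finset.mem_union_right _ hs))
      refine ⟨w1 * w2, Finset.mem_image.2 ⟨(w1, w2), Finset.mem_product.2 ⟨hw1, hw2⟩, rfl⟩, ?_⟩
      rw [map_mul, map_mul, hw1', hw2']
  · rintro f ⟨W1, S1, h1, h1', h1''⟩
    refine ⟨W1.image (fun w => w⁻¹), S1, ?_, h1', ?_⟩
    · intro w hw
      obtain ⟨w1, hw1, rfl⟩ := Finset.mem_image.1 hw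
      have e : (w1⁻¹)⁻¹ * φ f⁻¹ = (w1 * (w1⁻¹ * φ f) * w1⁻¹)⁻¹ := by
        rw [map_inv]; group
      rw [e]
      exact inv_mem (Dsub_normal _ (h1 w1 hw1))
    · intro α hα
      obtain ⟨w1, hw1, hw1'⟩ := h1'' α hα
      exact ⟨w1⁻¹, Finset.mem_image_of_mem _ hw1, by rw [map_inv, map_inv, hw1']⟩
  · rintro f g ⟨W1, S1, h1, h1', h1''⟩ ⟨W2, S2, h2, h2', h2''⟩
    -- the strict case
    have strict : ∀ (f g : F) (W1 S1 W2 S2 : Finset Q), (∀ w ∈ W1, w⁻¹ * φ f ∈ Dsub Q) →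
        (∀ s ∈ S1, 1 < s ∧ s ∉ Dsub Q) →
        (∀ α, (∀ s ∈ S1, 1 < β α s) → ∃ w ∈ W1, hF.av α f = β α w) →
        (∀ w ∈ W2, w⁻¹ * φ g ∈ Dsub Q) → (∀ s ∈ S2, 1 < s ∧ s ∉ Dsub Q) →
        (∀ α, (∀ s ∈ S2, 1 < β α s) → ∃ w ∈ W2, hF.av α g = β α w) →
        (φ g)⁻¹ * φ f ∉ Dsub Q → φ g < φ f →
        ∃ W S : Finset Q, (∀ w ∈ W, w⁻¹ * φ (f ⊔ g) ∈ Dsub Q) ∧
          (∀ s ∈ S, 1 < s ∧ s ∉ Dsub Q) ∧
          ∀ α, (∀ s ∈ S, 1 < β α s) → ∃ w ∈ W, hF.av α (f ⊔ g) = β α w := by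
      intro f g W1 S1 W2 S2 h1 h1' h1'' h2 h2' h2'' hD hlt
      have hpos : 1 < (φ g)⁻¹ * φ f := by
        have := lt_mul_left' (φ g)⁻¹ hlt
        rwa [inv_mul_cancel] at this
      have hsup : φ (f ⊔ g) = φ f := by rw [hφ.1, sup_eq_left.2 hlt.le]
      refine ⟨W1, S1 ∪ S2 ∪ (W1 ×ˢ W2).image (fun q => q.2⁻¹ * q.1), ?_, ?_, ?_⟩
      · intro w hw
        rw [hsup]; exact h1 w hw
      · intro s hs
        rcases Finset.mem_union.1 hs with hs | hs
        · rcases Finset.mem_union.1 hs with hs | hs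
          · exact h1' s hs
          · exact h2' s hs
        · obtain ⟨⟨w1, w2⟩, hq, rfl⟩ := Finset.mem_image.1 hs
          obtain ⟨hw1, hw2⟩ := Finset.mem_product.1 hq
          change 1 < w2⁻¹ * w1 ∧ w2⁻¹ * w1 ∉ Dsub Q
          have e : (w2⁻¹ * w1)⁻¹ * ((φ g)⁻¹ * φ f)
              = (w1⁻¹ * (w2 * (w2⁻¹ * φ g) * w2⁻¹)⁻¹ * (w1⁻¹)⁻¹) * (w1⁻¹ * φ f) := by
            group
          have h3 : (w2⁻¹ * w1)⁻¹ * ((φ g)⁻¹ * φ f) ∈ Dsub Q := by
            rw [e]
            exact mul_mem (Dsub_normal _ (inv_mem (Dsub_normal _ (h2 w2 hw2)))) (h1 w1 hw1)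
          refine ⟨Dsub_sign hD hpos h3, ?_⟩
          intro h4
          apply hD
          have := mul_mem h4 h3
          rwa [mul_inv_cancel_left] at this
      · intro α hα
        obtain ⟨w1, hw1, hw1'⟩ := h1'' α (fun s hs => hα s (Finset.mem_union_left _
          (Finset.mem_union_left _ hs)))
        obtain ⟨w2, hw2, hw2'⟩ := h2'' α (fun s hs => hα s (Finset.mem_union_left _
          (Finset.mem_union_right _ hs)))
        refine ⟨w1, hw1, ?_⟩
        have h3 := hα (w2⁻¹ * w1) (Finset.mem_union_right _ (Finset.mem_image.2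
          ⟨(w1, w2), Finset.mem_product.2 ⟨hw1, hw2⟩, rfl⟩))
        rw [map_mul, map_inv] at h3
        have h4 : β α w2 < β α w1 := by
          have := lt_mul_left' (β α w2) h3
          rwa [mul_one, mul_inv_cancel_left] at this
        rw [(hF.av_isL α).1, hw1', hw2', sup_eq_left.2 h4.le]
    by_cases hD : (φ g)⁻¹ * φ f ∈ Dsub Q
    · have hsup : φ (f ⊔ g) = φ f ∨ φ (f ⊔ g) = φ g := by
        rw [hφ.1]
        rcases le_total (φ f) (φ g) with h | h
        · exact Or.inr (sup_eq_right.2 h)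
        · exact Or.inl (sup_eq_left.2 h)
      refine ⟨W1 ∪ W2, S1 ∪ S2, ?_, ?_, ?_⟩
      · intro w hw
        rcases Finset.mem_union.1 hw with hw | hw
        · rcases hsup with h | h
          · rw [h]; exact h1 w hw
          · rw [h]
            have := mul_mem (h1 w hw) (inv_mem hD)
            have e : w⁻¹ * φ f * ((φ g)⁻¹ * φ f)⁻¹ = w⁻¹ * φ g := by group
            rwa [e] at this
        · rcases hsup with h | h
          · rw [h]
            have := mul_mem (h2 w hw) hD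
            have e : w⁻¹ * φ g * ((φ g)⁻¹ * φ f) = w⁻¹ * φ f := by group
            rwa [e] at this
          · rw [h]; exact h2 w hw
      · intro s hs
        rcases Finset.mem_union.1 hs with hs | hs
        · exact h1' s hs
        · exact h2' s hs
      · intro α hα
        obtain ⟨w1, hw1, hw1'⟩ := h1'' α (fun s hs => hα s (Finset.mem_union_left _ hs))
        obtain ⟨w2, hw2, hw2'⟩ := h2'' α (fun s hs => hα s (Finset.mem_union_right _ hs))
        rw [(hF.av_isL α).1]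
        rcases le_total (hF.av α f) (hF.av α g) with h | h
        · exact ⟨w2, Finset.mem_union_right _ hw2, by rw [sup_eq_right.2 h, hw2']⟩
        · exact ⟨w1, Finset.mem_union_left _ hw1, by rw [sup_eq_left.2 h, hw1']⟩
    · rcases lt_trichotomy (φ f) (φ g) with h | h | h
      · have hD' : (φ f)⁻¹ * φ g ∉ Dsub Q := by
          intro h3
          apply hD
          have := inv_mem h3
          rwa [mul_inv_rev, inv_inv] at this
        rw [sup_comm]
        exact strict g f W2 S2 W1 S1 h2 h2' h2'' h1 h1' h1'' hD' h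
      · exfalso
        apply hD
        rw [h, inv_mul_cancel]; exact one_mem _
      · exact strict f g W1 S1 W2 S2 h1 h1' h1'' h2 h2' h2'' hD h

/-- the abelianisation -/
noncomputable def ab (n : ℕ) : FreeGroup (Fin n) →* Multiplicative (Fin n → ℤ) :=
  FreeGroup.lift (fun i => Multiplicative.ofAdd (Pi.single i 1))

theorem ab_factor {C : Type} [CommGroup C] (π : FreeGroup (Fin n) →* C) (g : FreeGroup (Fin n)) :
    π g = ∏ i, π (FreeGroup.of i) ^ (Multiplicative.toAdd (ab n g) i) := by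
  let π' : FreeGroup (Fin n) →* C :=
    { toFun := fun g => ∏ i, π (FreeGroup.of i) ^ (Multiplicative.toAdd (ab n g) i)
      map_one' := by simp
      map_mul' := fun g h => by
        rw [← Finset.prod_mul_distrib]
        refine Finset.prod_congr rfl fun i _ => ?_
        rw [map_mul, toAdd_mul, Pi.add_apply, zpow_add] }
  have h : π = π' := by
    apply FreeGroup.ext_hom
    intro j
    change _ = ∏ i, π (FreeGroup.of i) ^ (Multiplicative.toAdd (ab n (FreeGroup.of j)) i)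
    rw [ab, FreeGroup.lift_apply_of, toAdd_ofAdd]
    rw [Finset.prod_eq_single j]
    · simp
    · intro i _ hij
      rw [Pi.single_eq_of_ne hij, zpow_zero]
    · intro h; exact absurd (Finset.mem_univ j) h
  exact DFunLike.congr_fun h g

theorem ah_eq_sum (α : Fin n → ℝ) (g : FreeGroup (Fin n)) :
    ah α g = Multiplicative.ofAdd (∑ i, ((Multiplicative.toAdd (ab n g) i : ℤ) : ℝ) * α i) := by
  rw [ab_factor (ah α) g, ofAdd_sum]
  refine Finset.prod_congr rfl fun i _ => ?_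
  rw [ah_of, ← ofAdd_zsmul, zsmul_eq_mul]

theorem IsFree.av_of_big (hF : IsFree n F ι) (hn : 2 ≤ n) {k : ℕ} (hk : n ≤ k) (a : F)
    (h : Big k F a) : ∃ α : Fin n → ℝ, hF.av α a ≠ 1 := by
  have hn0 : 0 < n := by omega
  obtain ⟨V, hV, hx⟩ := h
  rw [hF.theta_iff hn0 hk] at hV
  push Not at hV
  obtain ⟨P, hP, hVP⟩ := hV
  haveI := hP.mulRightMono
  have hcm : ∀ x w : Ch P, |cm x w|ₘ ≤ |hF.evHom P hP a|ₘ * |hF.evHom P hP a|ₘ := by
    intro x w
    have h1 := ((hF.theta_tt hn0 hk _ _ _ _).1 (hx (wd ι (show FreeGroup (Fin n) from x))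
      (wd ι (show FreeGroup (Fin n) from w))) P hP).resolve_left hVP
    have e1 : hF.evHom P hP (wd ι (show FreeGroup (Fin n) from x)) = x := hF.ev_wd P _
    have e2 : hF.evHom P hP (wd ι (show FreeGroup (Fin n) from w)) = w := hF.ev_wd P _
    rwa [e1, e2] at h1
  have hnc : ∃ x w : Ch P, x * w ≠ w * x := by
    refine ⟨(show Ch P from FreeGroup.of (⟨0, by omega⟩ : Fin n)),
      (show Ch P from FreeGroup.of (⟨1, by omega⟩ : Fin n)), ?_⟩
    intro he
    have he' : FreeGroup.of (⟨0, by omega⟩ : Fin n) * FreeGroup.of (⟨1, by omega⟩ : Fin n)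
      = FreeGroup.of (⟨1, by omega⟩ : Fin n) * FreeGroup.of (⟨0, by omega⟩ : Fin n) := he
    have h1 := congrArg FreeGroup.toWord he'
    simp [FreeGroup.toWord_mul, FreeGroup.toWord_of, FreeGroup.reduce] at h1
  have hv : hF.evHom P hP a ∉ Dsub (Ch P) := notMem_Dsub hcm hnc
  let β : (Fin n → ℝ) → (Ch P →* Multiplicative ℝ) := fun α => ah α
  obtain ⟨W, S, hW, hS, hloc⟩ := hF.sloc (hF.evHom P hP) (hF.evHom_isL P hP) β (by
    intro α i
    change ah α (hF.ev P (ι i)) = _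
    rw [hF.ev_gen, ah_of]) a
  -- the semigroup of images of large elements
  have hnormal : (Dsub (Ch P)).Normal := ⟨fun g hg y => Dsub_normal y hg⟩
  let C : CommGroup (Ch P ⧸ Dsub (Ch P)) :=
    { (inferInstance : Group (Ch P ⧸ Dsub (Ch P))) with
      mul_comm := by
        intro x y
        induction x using QuotientGroup.induction_on with
        | H x =>
          induction y using QuotientGroup.induction_on with
          | H y =>
            rw [← QuotientGroup.mk_mul, ← QuotientGroup.mk_mul, QuotientGroup.eq]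
            exact cm_mem_Dsub y x }
  have hker : ∀ g : Ch P, Multiplicative.toAdd (ab n g) = 0 → g ∈ Dsub (Ch P) := by
    intro g hg
    have h1 := @ab_factor n (Ch P ⧸ Dsub (Ch P)) C (QuotientGroup.mk' (Dsub (Ch P))) g
    rw [hg] at h1
    have h2 : (QuotientGroup.mk' (Dsub (Ch P))) g = 1 := by
      refine h1.trans ?_
      exact Finset.prod_eq_one (fun i _ => zpow_zero _)
    exact (QuotientGroup.eq_one_iff g).1 h2
  let A : Set (Fin n → ℤ) :=
    {x | ∃ g : Ch P, 1 < g ∧ g ∉ Dsub (Ch P) ∧ Multiplicative.toAdd (ab n g) = x}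
  have hA0 : (0 : Fin n → ℤ) ∉ A := by
    rintro ⟨g, _, hg2, hg3⟩
    exact hg2 (hker g hg3)
  have hAadd : ∀ x ∈ A, ∀ y ∈ A, x + y ∈ A := by
    rintro x ⟨g, hg1, hg2, rfl⟩ y ⟨g', hg1', hg2', rfl⟩
    have h2 : g ≤ g * g' := by
      calc g = g * 1 := (mul_one g).symm
        _ ≤ g * g' := by have := hg1'.le; gcongr
    refine ⟨g * g', lt_of_lt_of_le hg1 h2, ?_, ?_⟩
    · intro h1
      apply hg2
      refine Dsub_convex ?_ h1
      rw [mabs_of_one_le hg1.le, mabs_of_one_le (hg1.le.trans h2)]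
      exact h2
    · have e : ab n (g * g') = ab n g * ab n g' := map_mul (ab n) _ _
      rw [e, toAdd_mul]
  -- the final choice
  have final : ∀ W' : Finset (Ch P), (∀ w ∈ W', 1 < w ∧ w ∉ Dsub (Ch P)) →
      ∃ α : Fin n → ℝ, (∀ s ∈ S, 1 < β α s) ∧ (∀ w ∈ W', 1 < β α w) := by
    intro W' hW'
    obtain ⟨α, hα⟩ := fm n A hAadd hA0
      ((S ∪ W').image (fun g : Ch P => Multiplicative.toAdd (ab n g))) (by
        intro s hs
        obtain ⟨g, hg, rfl⟩ := Finset.mem_image.1 hs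
        rcases Finset.mem_union.1 hg with hg | hg
        · exact ⟨g, (hS g hg).1, (hS g hg).2, rfl⟩
        · exact ⟨g, (hW' g hg).1, (hW' g hg).2, rfl⟩)
    have h1 : ∀ g ∈ S ∪ W', 1 < β α g := by
      intro g hg
      have h2 := hα _ (Finset.mem_image_of_mem _ hg)
      change 1 < ah α g
      rw [ah_eq_sum]
      exact h2
    exact ⟨α, fun s hs => h1 s (Finset.mem_union_left _ hs),
      fun w hw => h1 w (Finset.mem_union_right _ hw)⟩
  rcases lt_trichotomy (hF.evHom P hP a) 1 with h1 | h1 | h1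
  · -- negative value
    obtain ⟨α, hα1, hα2⟩ := final (W.image (fun w => w⁻¹)) (by
      intro w hw
      obtain ⟨w', hw', rfl⟩ := Finset.mem_image.1 hw
      have h2 : (hF.evHom P hP a)⁻¹ ∉ Dsub (Ch P) := fun h => hv (by
        have := inv_mem h
        rwa [inv_inv] at this)
      have h3 : 1 < (hF.evHom P hP a)⁻¹ := by
        have := lt_mul_left' (hF.evHom P hP a)⁻¹ h1
        rwa [inv_mul_cancel, mul_one] at this
      have h4 : (w'⁻¹)⁻¹ * (hF.evHom P hP a)⁻¹ ∈ Dsub (Ch P) := by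
        have := inv_mem (Dsub_normal w' (hW w' hw'))
        have e : (w' * (w'⁻¹ * hF.evHom P hP a) * w'⁻¹)⁻¹
            = (w'⁻¹)⁻¹ * (hF.evHom P hP a)⁻¹ := by group
        rwa [e] at this
      refine ⟨Dsub_sign h2 h3 h4, ?_⟩
      intro h5
      apply h2
      have := mul_mem h5 h4
      rwa [mul_inv_cancel_left] at this)
    refine ⟨α, ?_⟩
    obtain ⟨w, hw, hw'⟩ := hloc α hα1
    have h2 := hα2 _ (Finset.mem_image_of_mem _ hw)
    rw [hw']
    rw [map_inv] at h2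
    intro h3
    rw [h3, inv_one] at h2
    exact lt_irrefl _ h2
  · exact absurd (h1 ▸ one_mem _) hv
  · obtain ⟨α, hα1, hα2⟩ := final W (by
      intro w hw
      refine ⟨Dsub_sign hv h1 (hW w hw), ?_⟩
      intro h5
      apply hv
      have := mul_mem h5 (hW w hw)
      rwa [mul_inv_cancel_left] at this)
    refine ⟨α, ?_⟩
    obtain ⟨w, hw, hw'⟩ := hloc α hα1
    rw [hw']
    exact (hα2 w hw).ne'

theorem IsFree.big_iff (hF : IsFree n F ι) (hn : 2 ≤ n) {k : ℕ} (hk : n ≤ k) (a : F) :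
    Big k F a ↔ ∃ α : Fin n → ℝ, hF.av α a ≠ 1 :=
  ⟨hF.av_of_big hn hk a, fun ⟨α, hα⟩ => hF.big_of_av (by omega) hk a α hα⟩

end Pool.Agent.Lib.MP_106261_lc
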