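import Mathlib

/-!
# Lattice-ordered groups: maximal ideals of the positive cone and the induced total preorders
-/

set_option autoImplicit false

namespace Pool.Agent.Lib.MP_106261_lc

variable {F : Type} [Group F] [Lattice F] [MulLeftMono F] [MulRightMono F]

theorem inf_mul_le' {x y z : F} (hx : 1 ≤ x) (hy : 1 ≤ y) (hz : 1 ≤ z) :
    (y * z) ⊓ x ≤ (y ⊓ x) * (z ⊓ x) := by
  have h : (y ⊓ x) * (z ⊓ x) = (y * z ⊓ x * z) ⊓ (y * x ⊓ x * x) := by
    rw [mul_inf, inf_mul, inf_mul]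
  rw [h]
  refine le_inf (le_inf inf_le_left ?_) (le_inf ?_ ?_)
  · exact inf_le_right.trans (le_mul_of_one_le_right' hz)
  · exact inf_le_right.trans (le_mul_of_one_le_left' hy)
  · exact inf_le_right.trans (le_mul_of_one_le_left' hx)

/-- Ideals of the positive cone. -/
structure IsIdl (J : Set F) : Prop where
  one_le : ∀ a ∈ J, 1 ≤ a
  one_mem : (1 : F) ∈ J
  mul_mem : ∀ a ∈ J, ∀ b ∈ J, a * b ∈ J
  down : ∀ a ∈ J, ∀ b : F, 1 ≤ b → b ≤ a → b ∈ J

/-- Prime ideals of the positive cone. -/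
structure IsPrm (J : Set F) : Prop extends IsIdl J where
  prime : ∀ a b : F, 1 ≤ a → 1 ≤ b → a ⊓ b = 1 → a ∈ J ∨ b ∈ J

theorem exists_maximal_idl {g : F} (hg : g ≠ 1) :
    ∃ J : Set F, Maximal (fun J : Set F => IsIdl J ∧ g ∉ J) J := by
  obtain ⟨J, -, hJ⟩ := zorn_subset_nonempty {J : Set F | IsIdl J ∧ g ∉ J} (by
    intro c hc hchain hne
    refine ⟨⋃₀ c, ⟨⟨?_, ?_, ?_, ?_⟩, ?_⟩, fun s hs => Set.subset_sUnion_of_mem hs⟩
    · rintro a ⟨s, hs, has⟩
      exact (hc hs).1.one_le a has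
    · obtain ⟨s, hs⟩ := hne
      exact ⟨s, hs, (hc hs).1.one_mem⟩
    · rintro a ⟨s, hs, has⟩ b ⟨t, ht, hbt⟩
      rcases hchain.total hs ht with h | h
      · exact ⟨t, ht, (hc ht).1.mul_mem a (h has) b hbt⟩
      · exact ⟨s, hs, (hc hs).1.mul_mem a has b (h hbt)⟩
    · rintro a ⟨s, hs, has⟩ b hb hba
      exact ⟨s, hs, (hc hs).1.down a has b hb hba⟩
    · rintro ⟨s, hs, hgs⟩
      exact (hc hs).2 hgs) {1} ⟨⟨fun a ha => by rw [Set.mem_singleton_iff.1 ha],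
        Set.mem_singleton _, fun a ha b hb => by
          rw [Set.mem_singleton_iff.1 ha, Set.mem_singleton_iff.1 hb, mul_one]
          exact Set.mem_singleton _, fun a ha b hb hba => by
          rw [Set.mem_singleton_iff.1 ha] at hba
          exact le_antisymm hba hb⟩, fun h => hg (Set.mem_singleton_iff.1 h)⟩
  exact ⟨J, hJ⟩

theorem adjoin {J : Set F} (hJ : IsIdl J) {a : F} (ha : 1 ≤ a) :
    IsIdl {y : F | 1 ≤ y ∧ ∃ p ∈ J, ∃ k : ℕ, y ≤ (p * a) ^ k} where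
  one_le y hy := hy.1
  one_mem := ⟨le_refl 1, 1, hJ.one_mem, 0, by simp⟩
  mul_mem := by
    rintro y ⟨hy, p, hp, k, hk⟩ z ⟨hz, q, hq, l, hl⟩
    refine ⟨one_le_mul hy hz, p * q, hJ.mul_mem p hp q hq, k + l, ?_⟩
    rw [pow_add]
    refine mul_le_mul' (hk.trans ?_) (hl.trans ?_)
    · exact pow_le_pow_left' (mul_le_mul_left (le_mul_of_one_le_right' (hJ.one_le q hq)) a) k
    · exact pow_le_pow_left' (mul_le_mul_left (le_mul_of_one_le_left' (hJ.one_le p hp)) a) l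
  down := by
    rintro y ⟨hy, p, hp, k, hk⟩ z hz hzy
    exact ⟨hz, p, hp, k, hzy.trans hk⟩

theorem prime_of_maximal {g : F} (hg : 1 ≤ g) {J : Set F}
    (hJ : Maximal (fun J : Set F => IsIdl J ∧ g ∉ J) J) : IsPrm J := by
  have hI : IsIdl J := hJ.prop.1
  refine { hI with prime := ?_ }
  intro a b ha hb hab
  by_contra hcon
  push Not at hcon
  have key : ∀ c : F, 1 ≤ c → c ∉ J → ∃ p ∈ J, ∃ k : ℕ, g ≤ (p * c) ^ k := by
    intro c hc hcJ
    by_contra h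
    have h1 : J ⊆ {y : F | 1 ≤ y ∧ ∃ p ∈ J, ∃ k : ℕ, y ≤ (p * c) ^ k} := by
      intro y hy
      refine ⟨hI.one_le y hy, y, hy, 1, ?_⟩
      rw [pow_one]
      exact le_mul_of_one_le_right' hc
    have h2 := hJ.le_of_ge ⟨adjoin hI hc, fun hg' => h hg'.2⟩ h1
    exact hcJ (h2 ⟨hc, 1, hI.one_mem, 1, by simp⟩)
  obtain ⟨p, hp, k, hk⟩ := key a ha hcon.1
  obtain ⟨q, hq, l, hl⟩ := key b hb hcon.2
  have hS : ∀ h : F, 1 ≤ h → ∀ c : F, 1 ≤ c → c ⊓ h ∈ J → ∀ r ∈ J, ∀ n : ℕ,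
      (r * c) ^ n ⊓ h ∈ J ∧ 1 ≤ (r * c) ^ n := by
    intro h hh c hc hch r hr n
    have hrc : 1 ≤ r * c := one_le_mul (hI.one_le r hr) hc
    have hrc' : (r * c) ⊓ h ∈ J := by
      refine hI.down _ (hI.mul_mem _ (?_ : r ⊓ h ∈ J) _ hch) _ (le_inf hrc hh)
        (inf_mul_le' hh (hI.one_le r hr) hc)
      exact hI.down r hr _ (le_inf (hI.one_le r hr) hh) inf_le_left
    induction n with
    | zero =>
      refine ⟨?_, by simp⟩
      rw [pow_zero, inf_eq_left.2 hh]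
      exact hI.one_mem
    | succ n ih =>
      have h1 : 1 ≤ (r * c) ^ (n + 1) := by
        rw [pow_succ]
        exact one_le_mul ih.2 hrc
      refine ⟨?_, h1⟩
      refine hI.down _ (hI.mul_mem _ ih.1 _ hrc') _ (le_inf h1 hh) ?_
      rw [pow_succ]
      exact inf_mul_le' hh ih.2 hrc
  have h1 : g ⊓ b ∈ J := by
    have h2 := hS b hb a ha (by rw [hab]; exact hI.one_mem) p hp k
    exact hI.down _ h2.1 _ (le_inf hg hb) (inf_le_inf_right b hk)
  have h2 : (q * b) ^ l ⊓ g ∈ J := (hS g hg b hb (by rw [inf_comm]; exact h1) q hq l).1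
  rw [inf_eq_right.2 hl] at h2
  exact hJ.prop.2 h2

theorem exists_prime {g : F} (hg : 1 ≤ g) (hg' : g ≠ 1) : ∃ J : Set F, IsPrm J ∧ g ∉ J := by
  obtain ⟨J, hJ⟩ := exists_maximal_idl hg'
  exact ⟨J, prime_of_maximal hg hJ, hJ.prop.2⟩

/-- The total preorder given by a prime ideal. -/
def LeJ (J : Set F) (f h : F) : Prop := (h⁻¹ * f) ⊔ 1 ∈ J

namespace LeJ

variable {J : Set F}

theorem mul_left {f h : F} (k : F) (hfh : LeJ J f h) : LeJ J (k * f) (k * h) := by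
  unfold LeJ at *
  have : (k * h)⁻¹ * (k * f) = h⁻¹ * f := by group
  rwa [this]

theorem of_le (hJ : IsIdl J) {f h : F} (hfh : f ≤ h) : LeJ J f h := by
  unfold LeJ
  have : h⁻¹ * f ≤ 1 := by
    rw [inv_mul_le_iff_le_mul, mul_one]
    exact hfh
  rw [sup_eq_right.2 this]
  exact hJ.one_mem

theorem refl (hJ : IsIdl J) (f : F) : LeJ J f f := of_le hJ le_rfl

theorem trans (hJ : IsIdl J) {f h k : F} (h1 : LeJ J f h) (h2 : LeJ J h k) : LeJ J f k := by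
  unfold LeJ at *
  refine hJ.down _ (hJ.mul_mem _ h2 _ h1) _ le_sup_right (sup_le ?_ ?_)
  · have : k⁻¹ * f = (k⁻¹ * h) * (h⁻¹ * f) := by group
    rw [this]
    exact mul_le_mul' le_sup_left le_sup_left
  · exact one_le_mul le_sup_right le_sup_right

theorem total (hJ : IsPrm J) (f h : F) : LeJ J f h ∨ LeJ J h f := by
  unfold LeJ
  refine hJ.prime _ _ le_sup_right le_sup_right ?_
  have h1 : f⁻¹ * h = (h⁻¹ * f)⁻¹ := by group
  rw [h1]
  set x := h⁻¹ * f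
  have h2 : (x⁻¹ ⊔ 1) = x⁻¹ * (x ⊔ 1) := by
    rw [mul_sup, inv_mul_cancel, mul_one, sup_comm]
  apply le_antisymm
  · -- a common lower bound
    have h3 : (x ⊔ 1) ⊓ (x⁻¹ ⊔ 1) = (1 ⊓ x⁻¹) * (x ⊔ 1) := by
      rw [inf_mul, one_mul, ← h2]
    have h4 : (1 ⊓ x⁻¹) = (x ⊔ 1)⁻¹ := by
      rw [inv_sup, inv_one, inf_comm]
    rw [h3, h4, inv_mul_cancel]
  · exact le_inf le_sup_right le_sup_right

theorem sup_le' {f f' h : F} (h1 : LeJ J f h) (h2 : LeJ J f' h) (hJ : IsIdl J) :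
    LeJ J (f ⊔ f') h := by
  unfold LeJ at *
  refine hJ.down _ (hJ.mul_mem _ h1 _ h2) _ le_sup_right ?_
  rw [mul_sup]
  refine sup_le (sup_le ?_ ?_) ?_
  · exact le_sup_left.trans (le_mul_of_one_le_right' le_sup_right)
  · exact le_sup_left.trans (le_mul_of_one_le_left' le_sup_right)
  · exact one_le_mul le_sup_right le_sup_right

theorem le_inf' {f f' h : F} (h1 : LeJ J h f) (h2 : LeJ J h f') (hJ : IsIdl J) :
    LeJ J h (f ⊓ f') := by
  unfold LeJ at *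
  refine hJ.down _ (hJ.mul_mem _ h1 _ h2) _ le_sup_right ?_
  rw [inv_inf, sup_mul]
  refine sup_le (sup_le ?_ ?_) ?_
  · exact le_sup_left.trans (le_mul_of_one_le_right' le_sup_right)
  · exact le_sup_left.trans (le_mul_of_one_le_left' le_sup_right)
  · exact one_le_mul le_sup_right le_sup_right

end LeJ

end Pool.Agent.Lib.MP_106261_lc
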