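import Pool.Agent.Lib.MP_106261_lc.LAut
import Pool.Agent.Lib.MP_106261_lc.Prime

/-!
# Evaluation of the elements of a free lattice-ordered group at a left order
-/

set_option autoImplicit false

open Filter Topology

namespace Pool.Agent.Lib.MP_106261_lc

namespace LOrd

variable {G : Type} [Group G] (x : LOrd G)

/-- The maximum of two elements. -/
noncomputable def mx (a b : G) : G := max (α := Ch x) a b

theorem mx_eq_right {a b : G} (h : x.le a b) : x.mx a b = b :=
  max_eq_right (α := Ch x) (a := a) (b := b) h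

theorem mx_eq_left {a b : G} (h : x.le b a) : x.mx a b = a :=
  max_eq_left (α := Ch x) (a := a) (b := b) h

/-- Left multiplication. -/
def lmul : G →* LAut (Ch x) where
  toFun g := show Ch x ≃o Ch x from
    { toFun := fun a => (g * (show G from a) : G)
      invFun := fun a => (g⁻¹ * (show G from a) : G)
      left_inv := fun a => inv_mul_cancel_left g (show G from a)
      right_inv := fun a => mul_inv_cancel_left g (show G from a)
      map_rel_iff' := x.le_mul_left g }
  map_one' := LAut.ext' fun a => one_mul (show G from a)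
  map_mul' g h := LAut.ext' fun a => mul_assoc g h (show G from a)

theorem lmul_ap (g : G) (a : G) : (x.lmul g).ap (show Ch x from a) = g * a := rfl

end LOrd

namespace IsFreeLG

variable {n : ℕ} {F : Type} [Group F] [Lattice F] [MulLeftMono F] [MulRightMono F]
  {ι : Fin n → F} (hF : IsFreeLG ι)

/-- The action on the chain of a left order. -/
noncomputable def psi (x : LOrd (FreeGroup (Fin n))) : F →* LAut x.Ch :=
  (hF (LAut x.Ch) fun i => x.lmul (FreeGroup.of i)).exists.choose

theorem psi_sup (x : LOrd (FreeGroup (Fin n))) (a b : F) :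
    hF.psi x (a ⊔ b) = hF.psi x a ⊔ hF.psi x b :=
  (hF (LAut x.Ch) fun i => x.lmul (FreeGroup.of i)).exists.choose_spec.1 a b

theorem psi_gen (x : LOrd (FreeGroup (Fin n))) (i : Fin n) :
    hF.psi x (ι i) = x.lmul (FreeGroup.of i) :=
  (hF (LAut x.Ch) fun i => x.lmul (FreeGroup.of i)).exists.choose_spec.2.2 i

/-- The embedding of the free group. -/
def emb (ι : Fin n → F) : FreeGroup (Fin n) →* F := FreeGroup.lift ι

theorem emb_of (i : Fin n) : emb ι (FreeGroup.of i) = ι i := FreeGroup.lift_apply_of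

theorem psi_emb (x : LOrd (FreeGroup (Fin n))) (g : FreeGroup (Fin n)) :
    hF.psi x (emb ι g) = x.lmul g := by
  have : (hF.psi x).comp (emb ι) = x.lmul := by
    apply FreeGroup.ext_hom
    intro i
    show hF.psi x (emb ι (FreeGroup.of i)) = _
    rw [emb_of, psi_gen]
  exact DFunLike.congr_fun this g

/-- The action on the group. -/
noncomputable def act (x : LOrd (FreeGroup (Fin n))) (f : F) (a : FreeGroup (Fin n)) :
    FreeGroup (Fin n) := (hF.psi x f).ap (show x.Ch from a)

variable (x : LOrd (FreeGroup (Fin n)))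

theorem act_mul (f f' : F) (a : FreeGroup (Fin n)) :
    hF.act x (f * f') a = hF.act x f (hF.act x f' a) := by
  unfold act
  rw [map_mul]
  rfl

theorem act_one (a : FreeGroup (Fin n)) : hF.act x 1 a = a := by
  unfold act
  rw [map_one]
  rfl

theorem act_inv_act (f : F) (a : FreeGroup (Fin n)) : hF.act x f⁻¹ (hF.act x f a) = a := by
  rw [← act_mul, inv_mul_cancel, act_one]

theorem act_act_inv (f : F) (a : FreeGroup (Fin n)) : hF.act x f (hF.act x f⁻¹ a) = a := by
  rw [← act_mul, mul_inv_cancel, act_one]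

theorem act_emb (g a : FreeGroup (Fin n)) : hF.act x (emb ι g) a = g * a := by
  unfold act
  rw [psi_emb]
  rfl

theorem act_gen (i : Fin n) (a : FreeGroup (Fin n)) :
    hF.act x (ι i) a = FreeGroup.of i * a := by
  rw [← emb_of (ι := ι), act_emb]

theorem act_sup (f f' : F) (a : FreeGroup (Fin n)) :
    hF.act x (f ⊔ f') a = x.mx (hF.act x f a) (hF.act x f' a) := by
  unfold act
  rw [psi_sup]
  rfl

theorem act_le (f : F) (a b : FreeGroup (Fin n)) :
    x.le (hF.act x f a) (hF.act x f b) ↔ x.le a b :=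
  LAut.ap_le (hF.psi x f) (a := show x.Ch from a) (b := show x.Ch from b)

theorem act_right (f : F) (g a : FreeGroup (Fin n)) :
    hF.act x f (a * g) = hF.act (g • x) f a * g := by
  revert a
  refine hF.induction (fun f => ∀ a, hF.act x f (a * g) = hF.act (g • x) f a * g) ?_ ?_ ?_ ?_ ?_ f
  · intro i a
    rw [act_gen, act_gen, mul_assoc]
  · intro a
    rw [act_one, act_one]
  · intro f f' h h' a
    rw [act_mul, act_mul, h', h]
  · intro f h a
    have h1 := h (hF.act (g • x) f⁻¹ a)
    rw [act_act_inv] at h1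
    rw [← h1, act_inv_act]
  · intro f f' h h' a
    rw [act_sup, act_sup, h, h']
    rcases (g • x).le_total (hF.act (g • x) f a) (hF.act (g • x) f' a) with h1 | h1
    · rw [(g • x).mx_eq_right h1, x.mx_eq_right ((x.smul_le g _ _).1 h1)]
    · rw [(g • x).mx_eq_left h1, x.mx_eq_left ((x.smul_le g _ _).1 h1)]

/-- The value at a left order. -/
noncomputable def ev (f : F) : FreeGroup (Fin n) := hF.act x f 1

theorem act_eq (f : F) (a : FreeGroup (Fin n)) : hF.act x f a = hF.ev (a • x) f * a := by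
  have := hF.act_right x f a 1
  rwa [one_mul] at this

theorem ev_mul (f f' : F) : hF.ev x (f * f') = hF.ev (hF.ev x f' • x) f * hF.ev x f' := by
  unfold ev
  rw [act_mul, act_eq]
  rfl

theorem ev_one : hF.ev x 1 = 1 := hF.act_one x 1

theorem ev_emb (g : FreeGroup (Fin n)) : hF.ev x (emb ι g) = g := by
  unfold ev
  rw [act_emb, mul_one]

theorem ev_gen (i : Fin n) : hF.ev x (ι i) = FreeGroup.of i := by
  unfold ev
  rw [act_gen, mul_one]

theorem ev_sup (f f' : F) : hF.ev x (f ⊔ f') = x.mx (hF.ev x f) (hF.ev x f') :=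
  hF.act_sup x f f' 1

/-- The values are locally constant. -/
theorem eventually_ev (f : F) (x : LOrd (FreeGroup (Fin n))) :
    ∀ᶠ y in 𝓝 x, hF.ev y f = hF.ev x f := by
  revert x
  refine hF.induction (fun f => ∀ x, ∀ᶠ y in 𝓝 x, hF.ev y f = hF.ev x f) ?_ ?_ ?_ ?_ ?_ f
  · intro i x
    exact Eventually.of_forall fun y => by rw [ev_gen, ev_gen]
  · intro x
    exact Eventually.of_forall fun y => by rw [ev_one, ev_one]
  · intro f f' h h' x
    have h1 := (LOrd.continuous_smul' (hF.ev x f')).continuousAt.eventually (h (hF.ev x f' • x))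
    filter_upwards [h1, h' x] with y hy1 hy2
    rw [ev_mul, ev_mul, hy2, hy1]
  · intro f h x
    have h1 := (LOrd.continuous_smul' (hF.ev x f⁻¹)).continuousAt.eventually (h (hF.ev x f⁻¹ • x))
    filter_upwards [h1] with y hy
    have h2 : hF.ev (hF.ev x f⁻¹ • x) f * hF.ev x f⁻¹ = 1 := by
      rw [← ev_mul, mul_inv_cancel, ev_one]
    have h3 : hF.act y f (hF.ev x f⁻¹) = 1 := by
      rw [act_eq, hy, h2]
    have h4 := hF.act_inv_act y f (hF.ev x f⁻¹)
    rw [h3] at h4
    exact h4
  · intro f f' h h' x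
    have h1 : ∀ a b : FreeGroup (Fin n), ∀ᶠ y in 𝓝 x, y.mx a b = x.mx a b := by
      intro a b
      rcases x.le_total a b with hab | hab
      · rw [x.mx_eq_right hab]
        rcases hab with rfl | hab
        · exact Eventually.of_forall fun y => y.mx_eq_right (y.le_refl _)
        · have h2 : ∀ᶠ y in 𝓝 x, y.pos (a⁻¹ * b) :=
            (LOrd.isClopen_pos (a⁻¹ * b)).isOpen.mem_nhds hab
          exact h2.mono fun y hy => y.mx_eq_right (Or.inr hy)
      · rw [x.mx_eq_left hab]
        rcases hab with rfl | hab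
        · exact Eventually.of_forall fun y => y.mx_eq_left (y.le_refl _)
        · have h2 : ∀ᶠ y in 𝓝 x, y.pos (b⁻¹ * a) :=
            (LOrd.isClopen_pos (b⁻¹ * a)).isOpen.mem_nhds hab
          exact h2.mono fun y hy => y.mx_eq_left (Or.inr hy)
    filter_upwards [h x, h' x, h1 (hF.ev x f) (hF.ev x f')] with y hy1 hy2 hy3
    rw [ev_sup, ev_sup, hy1, hy2, hy3]

/-- The order given by a prime ideal, with ties broken by a given order. -/
noncomputable def ordOf {J : Set F} (hJ : IsPrm J) (y : LOrd (FreeGroup (Fin n))) :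
    LOrd (FreeGroup (Fin n)) := by
  classical
  refine ⟨fun a => decide (¬ LeJ J (emb ι a) 1 ∨ (LeJ J (emb ι a) 1 ∧ LeJ J 1 (emb ι a) ∧
    y.pos a)), ?_, ?_, ?_⟩
  · rw [decide_eq_false_iff_not, map_one]
    rintro (h | h)
    · exact h (LeJ.refl hJ.toIsIdl 1)
    · exact y.not_pos_one h.2.2
  · intro a b ha hb
    rw [decide_eq_true_eq] at ha hb ⊢
    have hI := hJ.toIsIdl
    have ha1 : LeJ J 1 (emb ι a) := by
      rcases ha with ha | ha
      · exact (LeJ.total hJ 1 (emb ι a)).resolve_right ha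
      · exact ha.2.1
    have hb1 : LeJ J 1 (emb ι b) := by
      rcases hb with hb | hb
      · exact (LeJ.total hJ 1 (emb ι b)).resolve_right hb
      · exact hb.2.1
    have hab : LeJ J (emb ι a) (emb ι (a * b)) := by
      have := LeJ.mul_left (emb ι a) hb1
      rwa [mul_one, ← map_mul] at this
    by_cases h : LeJ J (emb ι (a * b)) 1
    · right
      have ha2 : LeJ J (emb ι a) 1 := LeJ.trans hI hab h
      have hb2 : LeJ J (emb ι b) 1 := by
        have h2 : LeJ J (emb ι (a * b)) (emb ι a) := LeJ.trans hI h ha1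
        have h3 := LeJ.mul_left (emb ι a)⁻¹ h2
        rwa [map_mul, inv_mul_cancel_left, inv_mul_cancel] at h3
      refine ⟨h, LeJ.trans hI ha1 hab, y.pos_mul ?_ ?_⟩
      · rcases ha with ha | ha
        · exact absurd ha2 ha
        · exact ha.2.2
      · rcases hb with hb | hb
        · exact absurd hb2 hb
        · exact hb.2.2
    · exact Or.inl h
  · intro a ha
    simp only [decide_eq_true_eq]
    have hinv1 : LeJ J (emb ι a⁻¹) 1 → LeJ J 1 (emb ι a) := by
      intro h
      have := LeJ.mul_left (emb ι a) h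
      rwa [map_inv, mul_inv_cancel, mul_one] at this
    have hinv2 : LeJ J (emb ι a) 1 → LeJ J 1 (emb ι a⁻¹) := by
      intro h
      have := LeJ.mul_left (emb ι a)⁻¹ h
      rwa [inv_mul_cancel, mul_one, ← map_inv] at this
    have hinv3 : LeJ J 1 (emb ι a) → LeJ J (emb ι a⁻¹) 1 := by
      intro h
      have := LeJ.mul_left (emb ι a)⁻¹ h
      rwa [inv_mul_cancel, mul_one, ← map_inv] at this
    by_cases h1 : LeJ J (emb ι a) 1
    · by_cases h2 : LeJ J 1 (emb ι a)
      · rcases y.pos_or ha with h3 | h3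
        · exact Or.inl (Or.inr ⟨h1, h2, h3⟩)
        · exact Or.inr (Or.inr ⟨hinv3 h2, hinv2 h1, h3⟩)
      · exact Or.inr (Or.inl fun h3 => h2 (hinv1 h3))
    · exact Or.inl (Or.inl h1)

theorem ordOf_le {J : Set F} (hJ : IsPrm J) (y : LOrd (FreeGroup (Fin n)))
    {a b : FreeGroup (Fin n)} (h : (ordOf (ι := ι) hJ y).le a b) :
    LeJ J (emb ι a) (emb ι b) := by
  rcases h with rfl | h
  · exact LeJ.refl hJ.toIsIdl _
  · have h1 : ¬ LeJ J (emb ι (a⁻¹ * b)) 1 ∨ (LeJ J (emb ι (a⁻¹ * b)) 1 ∧
        LeJ J 1 (emb ι (a⁻¹ * b)) ∧ y.pos (a⁻¹ * b)) := by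
      classical
      exact of_decide_eq_true h
    have h2 : LeJ J 1 (emb ι (a⁻¹ * b)) := by
      rcases h1 with h1 | h1
      · exact (LeJ.total hJ 1 _).resolve_right h1
      · exact h1.2.1
    have := LeJ.mul_left (emb ι a) h2
    rwa [mul_one, ← map_mul, mul_inv_cancel_left] at this

/-- Two elements with the same values at all left orders are equal. -/
theorem eq_one_of_ev (y : LOrd (FreeGroup (Fin n))) (f : F) (h : ∀ x, hF.ev x f = 1) : f = 1 := by
  by_contra hf
  have hg : ∃ g : F, 1 ≤ g ∧ g ≠ 1 ∧ (g = f ⊔ 1 ∨ g = f⁻¹ ⊔ 1) := by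
    by_cases h1 : f ⊔ 1 = 1
    · refine ⟨f⁻¹ ⊔ 1, le_sup_right, fun h2 => hf ?_, Or.inr rfl⟩
      have h3 : f ≤ 1 := sup_eq_right.1 h1
      have h4 : f⁻¹ ≤ 1 := sup_eq_right.1 h2
      exact le_antisymm h3 (inv_le_one'.1 h4)
    · exact ⟨f ⊔ 1, le_sup_right, h1, Or.inl rfl⟩
  obtain ⟨g, hg1, hg2, hg3⟩ := hg
  obtain ⟨J, hJ, hgJ⟩ := exists_prime hg1 hg2
  have hI := hJ.toIsIdl
  let x := ordOf (ι := ι) hJ y
  have key : ∀ f : F, ∀ a, LeJ J (f * emb ι a) (emb ι (hF.act x f a)) ∧
      LeJ J (emb ι (hF.act x f a)) (f * emb ι a) := by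
    refine hF.induction _ ?_ ?_ ?_ ?_ ?_
    · intro i a
      rw [act_gen, map_mul, emb_of]
      exact ⟨LeJ.refl hI _, LeJ.refl hI _⟩
    · intro a
      rw [act_one, one_mul]
      exact ⟨LeJ.refl hI _, LeJ.refl hI _⟩
    · intro f f' h h' a
      rw [act_mul, mul_assoc]
      exact ⟨LeJ.trans hI (LeJ.mul_left f (h' a).1) (h _).1,
        LeJ.trans hI (h _).2 (LeJ.mul_left f (h' a).2)⟩
    · intro f h a
      have h1 := h (hF.act x f⁻¹ a)
      rw [act_act_inv] at h1
      have h2 := LeJ.mul_left f⁻¹ h1.1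
      have h3 := LeJ.mul_left f⁻¹ h1.2
      rw [inv_mul_cancel_left] at h2 h3
      exact ⟨h3, h2⟩
    · intro f f' h h' a
      rw [act_sup, sup_mul]
      rcases x.le_total (hF.act x f a) (hF.act x f' a) with h1 | h1
      · rw [x.mx_eq_right h1]
        refine ⟨LeJ.sup_le' (LeJ.trans hI (h a).1 (ordOf_le hJ y h1)) (h' a).1 hI,
          LeJ.trans hI (h' a).2 (LeJ.of_le hI le_sup_right)⟩
      · rw [x.mx_eq_left h1]
        refine ⟨LeJ.sup_le' (h a).1 (LeJ.trans hI (h' a).1 (ordOf_le hJ y h1)) hI,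
          LeJ.trans hI (h a).2 (LeJ.of_le hI le_sup_left)⟩
  have h1 := key f 1
  have h2 : hF.act x f 1 = 1 := h x
  rw [h2, map_one, mul_one] at h1
  unfold LeJ at h1
  rw [inv_one, one_mul, mul_one] at h1
  rcases hg3 with rfl | rfl
  · exact hgJ h1.1
  · exact hgJ h1.2

end IsFreeLG

end Pool.Agent.Lib.MP_106261_lc
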