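import Pool.Agent.Lib.MP_106261_lc.LOrd

/-!
# The lattice-ordered group of automorphisms of a chain; free lattice-ordered groups
-/

set_option autoImplicit false

namespace Pool.Agent.Lib.MP_106261_lc

/-- The automorphisms of a chain. -/
def LAut (α : Type) [LinearOrder α] : Type := α ≃o α

namespace LAut

variable {α : Type} [LinearOrder α]

instance : Group (LAut α) := inferInstanceAs (Group (α ≃o α))

/-- The action on the chain. -/
def ap (f : LAut α) (a : α) : α := (show α ≃o α from f) a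

theorem ap_mul (f g : LAut α) (a : α) : (f * g).ap a = f.ap (g.ap a) := rfl

theorem ap_one (a : α) : (1 : LAut α).ap a = a := rfl

theorem ap_inv (f : LAut α) (a : α) : f⁻¹.ap (f.ap a) = a :=
  (show α ≃o α from f).symm_apply_apply a

theorem ap_inv' (f : LAut α) (a : α) : f.ap (f⁻¹.ap a) = a :=
  (show α ≃o α from f).apply_symm_apply a

theorem ext' {f g : LAut α} (h : ∀ a, f.ap a = g.ap a) : f = g :=
  OrderIso.ext (funext h)

theorem ap_le (f : LAut α) {a b : α} : f.ap a ≤ f.ap b ↔ a ≤ b :=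
  (show α ≃o α from f).le_iff_le

theorem ap_strictMono (f : LAut α) : StrictMono f.ap := (show α ≃o α from f).strictMono

/-- Automorphisms from strictly monotone surjections. -/
noncomputable def mk' (F : α → α) (h : StrictMono F) (hs : Function.Surjective F) : LAut α :=
  h.orderIsoOfSurjective F hs

theorem mk'_ap (F : α → α) (h : StrictMono F) (hs : Function.Surjective F) (a : α) :
    (mk' F h hs).ap a = F a := rfl

theorem sup_surj (f g : LAut α) : Function.Surjective fun a => f.ap a ⊔ g.ap a := by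
  intro b
  rcases le_total (f⁻¹.ap b) (g⁻¹.ap b) with h | h
  · refine ⟨f⁻¹.ap b, ?_⟩
    show f.ap (f⁻¹.ap b) ⊔ g.ap (f⁻¹.ap b) = b
    rw [ap_inv']
    have : g.ap (f⁻¹.ap b) ≤ b := by
      have := g.ap_le.2 h
      rwa [ap_inv'] at this
    exact sup_eq_left.2 this
  · refine ⟨g⁻¹.ap b, ?_⟩
    show f.ap (g⁻¹.ap b) ⊔ g.ap (g⁻¹.ap b) = b
    rw [ap_inv']
    have : f.ap (g⁻¹.ap b) ≤ b := by
      have := f.ap_le.2 h
      rwa [ap_inv'] at this
    exact sup_eq_right.2 this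

theorem inf_surj (f g : LAut α) : Function.Surjective fun a => f.ap a ⊓ g.ap a := by
  intro b
  rcases le_total (f⁻¹.ap b) (g⁻¹.ap b) with h | h
  · refine ⟨g⁻¹.ap b, ?_⟩
    show f.ap (g⁻¹.ap b) ⊓ g.ap (g⁻¹.ap b) = b
    rw [ap_inv']
    have : b ≤ f.ap (g⁻¹.ap b) := by
      have := f.ap_le.2 h
      rwa [ap_inv'] at this
    exact inf_eq_right.2 this
  · refine ⟨f⁻¹.ap b, ?_⟩
    show f.ap (f⁻¹.ap b) ⊓ g.ap (f⁻¹.ap b) = b
    rw [ap_inv']
    have : b ≤ g.ap (f⁻¹.ap b) := by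
      have := g.ap_le.2 h
      rwa [ap_inv'] at this
    exact inf_eq_left.2 this

noncomputable instance : Lattice (LAut α) where
  le f g := ∀ a, f.ap a ≤ g.ap a
  le_refl f a := le_refl _
  le_trans f g h h1 h2 a := (h1 a).trans (h2 a)
  le_antisymm f g h1 h2 := ext' fun a => le_antisymm (h1 a) (h2 a)
  sup f g := mk' (fun a => f.ap a ⊔ g.ap a)
    (fun a b hab => max_lt_max (f.ap_strictMono hab) (g.ap_strictMono hab)) (sup_surj f g)
  inf f g := mk' (fun a => f.ap a ⊓ g.ap a)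
    (fun a b hab => min_lt_min (f.ap_strictMono hab) (g.ap_strictMono hab)) (inf_surj f g)
  le_sup_left f g a := le_sup_left (a := f.ap a) (b := g.ap a)
  le_sup_right f g a := le_sup_right (a := f.ap a) (b := g.ap a)
  sup_le f g h h1 h2 a := sup_le (h1 a) (h2 a)
  inf_le_left f g a := inf_le_left (a := f.ap a) (b := g.ap a)
  inf_le_right f g a := inf_le_right (a := f.ap a) (b := g.ap a)
  le_inf f g h h1 h2 a := le_inf (h1 a) (h2 a)

theorem ap_sup (f g : LAut α) (a : α) : (f ⊔ g).ap a = f.ap a ⊔ g.ap a := rfl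

theorem ap_inf (f g : LAut α) (a : α) : (f ⊓ g).ap a = f.ap a ⊓ g.ap a := rfl

theorem le_def (f g : LAut α) : f ≤ g ↔ ∀ a, f.ap a ≤ g.ap a := Iff.rfl

instance : MulLeftMono (LAut α) := ⟨fun h f g hfg a => h.ap_le.2 (hfg a)⟩

instance : MulRightMono (LAut α) := ⟨fun h _ _ hfg a => hfg (h.ap a)⟩

end LAut

/-- `F` is free on `ι` in the class of lattice-ordered groups. -/
def IsFreeLG {n : ℕ} {F : Type} [Group F] [Lattice F] [MulLeftMono F] [MulRightMono F]
    (ι : Fin n → F) : Prop :=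
  ∀ (K : Type) [Group K] [Lattice K] [MulLeftMono K] [MulRightMono K] (f : Fin n → K),
    ∃! φ : F →* K, (∀ a b : F, φ (a ⊔ b) = φ a ⊔ φ b) ∧ (∀ a b : F, φ (a ⊓ b) = φ a ⊓ φ b) ∧
      ∀ i, φ (ι i) = f i

theorem IsFreeLG.induction {n : ℕ} {F : Type} [Group F] [Lattice F] [MulLeftMono F]
    [MulRightMono F] {ι : Fin n → F} (hF : IsFreeLG ι) (D : F → Prop) (hι : ∀ i, D (ι i))
    (h1 : D 1) (hmul : ∀ a b, D a → D b → D (a * b)) (hinv : ∀ a, D a → D a⁻¹)
    (hsup : ∀ a b, D a → D b → D (a ⊔ b)) (g : F) : D g := by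
  have hinf : ∀ a b, D a → D b → D (a ⊓ b) := by
    intro a b ha hb
    have e : a ⊓ b = (a⁻¹ ⊔ b⁻¹)⁻¹ := by
      rw [inv_sup, inv_inv, inv_inv]
    rw [e]
    exact hinv _ (hsup _ _ (hinv a ha) (hinv b hb))
  let D' : Subgroup F :=
    { carrier := {g | D g}
      mul_mem' := fun {a b} ha hb => hmul a b ha hb
      one_mem' := h1
      inv_mem' := fun {a} ha => hinv a ha }
  letI : Lattice D' := Subtype.lattice (P := fun g => g ∈ D') (fun {a b} ha hb => hsup a b ha hb)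
    (fun {a b} ha hb => hinf a b ha hb)
  haveI : MulLeftMono D' := ⟨fun h f g hfg =>
    mul_le_mul_right (show (f : F) ≤ (g : F) from hfg) (h : F)⟩
  haveI : MulRightMono D' := ⟨fun h f g hfg =>
    mul_le_mul_left (show (f : F) ≤ (g : F) from hfg) (h : F)⟩
  obtain ⟨φ, ⟨hφ1, hφ2, hφ3⟩, -⟩ := hF D' fun i => ⟨ι i, hι i⟩
  obtain ⟨ψ, -, hψ⟩ := hF F ι
  have h2 := hψ (D'.subtype.comp φ) ⟨fun a b => by
    show ((φ (a ⊔ b) : D') : F) = (φ a : F) ⊔ (φ b : F)
    rw [hφ1]; rfl, fun a b => by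
    show ((φ (a ⊓ b) : D') : F) = (φ a : F) ⊓ (φ b : F)
    rw [hφ2]; rfl, fun i => by
    show ((φ (ι i) : D') : F) = ι i
    rw [hφ3]⟩
  have h3 := hψ (MonoidHom.id F) ⟨fun a b => rfl, fun a b => rfl, fun i => rfl⟩
  have h4 : ((φ g : D') : F) = g := by
    have := DFunLike.congr_fun (h2.trans h3.symm) g
    exact this
  rw [← h4]
  exact (φ g).2

end Pool.Agent.Lib.MP_106261_lc
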