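import Mathlib

/-!
# The space of left orders of a group
-/

set_option autoImplicit false

open Filter Topology

namespace Pool.Agent.Lib.MP_106261_lc

variable {G : Type} [Group G]

/-- Positive cones of left orders. -/
structure IsCone (P : G → Bool) : Prop where
  one : P 1 = false
  mul : ∀ a b, P a = true → P b = true → P (a * b) = true
  total : ∀ a, a ≠ 1 → P a = true ∨ P a⁻¹ = true

variable (G) in
/-- The space of left orders. -/
def LOrd : Type := {P : G → Bool // IsCone P}

namespace LOrd

instance : TopologicalSpace (LOrd G) := inferInstanceAs (TopologicalSpace {P : G → Bool // IsCone P})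

theorem isClosed_cones : IsClosed {P : G → Bool | IsCone P} := by
  have h1 : {P : G → Bool | IsCone P} = {P | P 1 = false} ∩
      ((⋂ a : G, ⋂ b : G, {P | P a = true → P b = true → P (a * b) = true}) ∩
        ⋂ a : G, {P | a ≠ 1 → P a = true ∨ P a⁻¹ = true}) := by
    ext P
    simp only [Set.mem_ofPred_eq, Set.mem_inter_iff, Set.mem_iInter]
    exact ⟨fun h => ⟨h.one, h.mul, h.total⟩, fun h => ⟨h.1, h.2.1, h.2.2⟩⟩
  have hcl : ∀ a : G, IsClopen {P : G → Bool | P a = true} := fun a =>
    (isClopen_discrete ({true} : Set Bool)).preimage (continuous_apply a)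
  have hcl' : ∀ a : G, IsClopen {P : G → Bool | P a = false} := fun a =>
    (isClopen_discrete ({false} : Set Bool)).preimage (continuous_apply a)
  rw [h1]
  refine (hcl' 1).isClosed.inter (IsClosed.inter ?_ ?_)
  · refine isClosed_iInter fun a => isClosed_iInter fun b => ?_
    have : {P : G → Bool | P a = true → P b = true → P (a * b) = true} =
        {P | P a = true}ᶜ ∪ ({P | P b = true}ᶜ ∪ {P | P (a * b) = true}) := by
      ext P
      simp only [Set.mem_ofPred_eq, Set.mem_union, Set.mem_compl_iff]
      tauto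
    rw [this]
    exact ((hcl a).compl.union ((hcl b).compl.union (hcl _))).isClosed
  · refine isClosed_iInter fun a => ?_
    by_cases ha : a = 1
    · have : {P : G → Bool | a ≠ 1 → P a = true ∨ P a⁻¹ = true} = Set.univ := by
        ext P; simp [ha]
      rw [this]
      exact isClosed_univ
    · have : {P : G → Bool | a ≠ 1 → P a = true ∨ P a⁻¹ = true} =
          {P | P a = true} ∪ {P | P a⁻¹ = true} := by
        ext P; simp [ha]
      rw [this]
      exact ((hcl a).union (hcl _)).isClosed

instance : CompactSpace (LOrd G) :=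
  isCompact_iff_compactSpace.1 (isClosed_cones (G := G)).isCompact

/-- `a` is positive. -/
def pos (x : LOrd G) (a : G) : Prop := x.1 a = true

variable (x : LOrd G)

theorem not_pos_one : ¬ x.pos 1 := by
  intro h
  have := x.2.one
  unfold pos at h
  rw [this] at h
  cases h

theorem pos_mul {a b : G} (ha : x.pos a) (hb : x.pos b) : x.pos (a * b) := x.2.mul a b ha hb

theorem pos_or {a : G} (ha : a ≠ 1) : x.pos a ∨ x.pos a⁻¹ := x.2.total a ha

theorem pos_asymm {a : G} (ha : x.pos a) (hb : x.pos a⁻¹) : False := by
  have := x.pos_mul ha hb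
  rw [mul_inv_cancel] at this
  exact x.not_pos_one this

theorem isClopen_pos (a : G) : IsClopen {x : LOrd G | x.pos a} :=
  (isClopen_discrete ({true} : Set Bool)).preimage
    ((continuous_apply a).comp continuous_subtype_val)

/-- The order. -/
def le (a b : G) : Prop := a = b ∨ x.pos (a⁻¹ * b)

theorem le_refl (a : G) : x.le a a := Or.inl rfl

theorem le_trans {a b c : G} (h1 : x.le a b) (h2 : x.le b c) : x.le a c := by
  rcases h1 with rfl | h1
  · exact h2
  · rcases h2 with rfl | h2
    · exact Or.inr h1
    · right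
      have := x.pos_mul h1 h2
      have e : a⁻¹ * b * (b⁻¹ * c) = a⁻¹ * c := by group
      rwa [e] at this

theorem le_antisymm {a b : G} (h1 : x.le a b) (h2 : x.le b a) : a = b := by
  rcases h1 with h1 | h1
  · exact h1
  · rcases h2 with h2 | h2
    · exact h2.symm
    · exfalso
      refine x.pos_asymm h1 ?_
      have e : (a⁻¹ * b)⁻¹ = b⁻¹ * a := by group
      rwa [e]

theorem le_total (a b : G) : x.le a b ∨ x.le b a := by
  by_cases h : a = b
  · exact Or.inl (Or.inl h)
  · have h1 : a⁻¹ * b ≠ 1 := fun h1 => h (inv_mul_eq_one.1 h1)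
    rcases x.pos_or h1 with h2 | h2
    · exact Or.inl (Or.inr h2)
    · refine Or.inr (Or.inr ?_)
      have e : (a⁻¹ * b)⁻¹ = b⁻¹ * a := by group
      rwa [e] at h2

theorem le_mul_left {a b : G} (g : G) : x.le (g * a) (g * b) ↔ x.le a b := by
  unfold le
  have e : (g * a)⁻¹ * (g * b) = a⁻¹ * b := by group
  rw [e, mul_right_inj]

/-- Conjugation of orders. -/
instance : SMul G (LOrd G) where
  smul g x := ⟨fun a => x.1 (g⁻¹ * a * g), by
    refine ⟨?_, ?_, ?_⟩
    · have e : g⁻¹ * 1 * g = 1 := by group
      rw [e]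
      exact x.2.one
    · intro a b ha hb
      have e : g⁻¹ * (a * b) * g = (g⁻¹ * a * g) * (g⁻¹ * b * g) := by group
      rw [e]
      exact x.2.mul _ _ ha hb
    · intro a ha
      have e : g⁻¹ * a⁻¹ * g = (g⁻¹ * a * g)⁻¹ := by group
      rw [e]
      refine x.2.total _ fun h => ha ?_
      have : a = g * (g⁻¹ * a * g) * g⁻¹ := by group
      rw [this, h]
      group⟩

theorem smul_pos (g a : G) : (g • x).pos a ↔ x.pos (g⁻¹ * a * g) := Iff.rfl

theorem ext' {x y : LOrd G} (h : ∀ a, x.pos a ↔ y.pos a) : x = y := by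
  apply Subtype.ext
  funext a
  have := h a
  unfold pos at this
  cases hx : x.1 a <;> cases hy : y.1 a <;> simp_all

instance : MulAction G (LOrd G) where
  one_smul x := by
    apply ext'
    intro a
    rw [smul_pos]
    have e : (1 : G)⁻¹ * a * 1 = a := by group
    rw [e]
  mul_smul g h x := by
    apply ext'
    intro a
    rw [smul_pos, smul_pos, smul_pos]
    have e : (g * h)⁻¹ * a * (g * h) = h⁻¹ * (g⁻¹ * a * g) * h := by group
    rw [e]

theorem smul_le (g a b : G) : (g • x).le a b ↔ x.le (a * g) (b * g) := by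
  unfold le
  rw [smul_pos, mul_left_inj]
  have e : (a * g)⁻¹ * (b * g) = g⁻¹ * (a⁻¹ * b) * g := by group
  rw [e]

theorem continuous_smul' (g : G) : Continuous fun x : LOrd G => g • x := by
  apply Continuous.subtype_mk
  exact continuous_pi fun a => (continuous_apply _).comp continuous_subtype_val

/-- The chain of an order. -/
def Ch (_ : LOrd G) : Type := G

noncomputable instance instLinearOrderCh : LinearOrder (Ch x) where
  le a b := x.le a b
  le_refl := x.le_refl
  le_trans _ _ _ := x.le_trans
  le_antisymm _ _ := x.le_antisymm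
  le_total := x.le_total
  toDecidableLE := Classical.decRel _

theorem tendsto_iff {ι : Type} {l : Filter ι} {u : ι → LOrd G} {x : LOrd G}
    (h : ∀ a, ∀ᶠ i in l, ((u i).pos a ↔ x.pos a)) : Tendsto u l (𝓝 x) := by
  refine (tendsto_subtype_rng (p := IsCone)).2 (tendsto_pi_nhds.2 fun a => ?_)
  have h1 : ∀ᶠ i in l, (u i).1 a = x.1 a := by
    refine (h a).mono fun i hi => ?_
    unfold pos at hi
    cases hx : x.1 a <;> cases hy : (u i).1 a <;> simp_all
  exact Tendsto.congr' (h1.mono fun i hi => hi.symm) tendsto_const_nhds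

end LOrd

end Pool.Agent.Lib.MP_106261_lc
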