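import Mathlib

/-!
# The Magnus representation of the free group and its filtration
-/

set_option autoImplicit false

namespace Pool.Agent.Lib.MP_106261_lc.Magnus

variable {I : Type} [DecidableEq I]

variable (I) in
/-- Formal power series in noncommuting variables. -/
abbrev PS : Type := List I → ℤ

/-- Multiplication by a variable on the left. -/
def Xm (i : I) (f : PS I) : PS I
  | [] => 0
  | j :: u => if j = i then f u else 0

/-- The inverse of `1 + X i`. -/
def Ei (i : I) (f : PS I) : PS I
  | [] => f []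
  | j :: u => f (j :: u) - if j = i then Ei i f u else 0

theorem Ei_spec (i : I) (f : PS I) (u : List I) : Ei i f u + Xm i (Ei i f) u = f u := by
  cases u with
  | nil => simp [Ei, Xm]
  | cons j u => simp [Ei, Xm]

theorem Ei_spec' (i : I) (f : PS I) (u : List I) : Ei i (fun v => f v + Xm i f v) u = f u := by
  induction u with
  | nil => simp [Ei, Xm]
  | cons j u ih =>
    show (f (j :: u) + if j = i then f u else 0) -
      (if j = i then Ei i (fun v => f v + Xm i f v) u else 0) = f (j :: u)
    rw [ih]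
    split_ifs <;> ring

theorem Xm_add (i : I) (f g : PS I) (u : List I) : Xm i (f + g) u = Xm i f u + Xm i g u := by
  cases u with
  | nil => simp [Xm]
  | cons j u =>
    simp only [Xm, Pi.add_apply]
    split_ifs <;> ring

theorem Xm_smul (i : I) (c : ℤ) (f : PS I) (u : List I) : Xm i (c • f) u = c * Xm i f u := by
  cases u with
  | nil => simp [Xm]
  | cons j u =>
    simp only [Xm, Pi.smul_apply, smul_eq_mul]
    split_ifs <;> ring

/-- Multiplication by `1 + X i`. -/
def E (i : I) : PS I ≃ₗ[ℤ] PS I where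
  toFun f := fun u => f u + Xm i f u
  invFun := Ei i
  left_inv f := funext fun u => Ei_spec' i f u
  right_inv f := funext fun u => Ei_spec i f u
  map_add' f g := by
    funext u
    simp only [Xm_add, Pi.add_apply]
    ring
  map_smul' c f := by
    funext u
    simp only [Xm_smul, Pi.smul_apply, smul_eq_mul, RingHom.id_apply]
    ring

theorem E_apply (i : I) (f : PS I) (u : List I) : E i f u = f u + Xm i f u := rfl

theorem E_inv_apply (i : I) (f : PS I) : (E i)⁻¹ f = Ei i f := rfl

/-- The Magnus representation. -/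
def mu : FreeGroup I →* (PS I ≃ₗ[ℤ] PS I) := FreeGroup.lift E

theorem mu_mul (w w' : FreeGroup I) (f : PS I) : mu (w * w') f = mu w (mu w' f) := by
  rw [map_mul]; rfl

theorem mu_one (f : PS I) : mu (1 : FreeGroup I) f = f := by
  rw [map_one]; rfl

theorem mu_of (i : I) (f : PS I) (u : List I) : mu (FreeGroup.of i) f u = f u + Xm i f u := by
  unfold mu
  rw [FreeGroup.lift_apply_of]
  rfl

theorem mu_inv_mu (w : FreeGroup I) (f : PS I) : mu w⁻¹ (mu w f) = f := by
  rw [← mu_mul, inv_mul_cancel, mu_one]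

theorem mu_mu_inv (w : FreeGroup I) (f : PS I) : mu w (mu w⁻¹ f) = f := by
  rw [← mu_mul, mul_inv_cancel, mu_one]

theorem mu_of_inv (i : I) (f : PS I) : mu (FreeGroup.of i)⁻¹ f = Ei i f := by
  unfold mu
  rw [map_inv, FreeGroup.lift_apply_of]
  rfl

/-- Series without terms of degree less than `e`. -/
def Lo (e : ℕ) (f : PS I) : Prop := ∀ u : List I, u.length < e → f u = 0

theorem Lo.mono {e e' : ℕ} (h : e ≤ e') {f : PS I} (hf : Lo e' f) : Lo e f :=
  fun u hu => hf u (hu.trans_le h)

theorem Lo.add {e : ℕ} {f g : PS I} (hf : Lo e f) (hg : Lo e g) : Lo e (f + g) := fun u hu => by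
  rw [Pi.add_apply, hf u hu, hg u hu, add_zero]

theorem Lo.sub {e : ℕ} {f g : PS I} (hf : Lo e f) (hg : Lo e g) : Lo e (f - g) := fun u hu => by
  rw [Pi.sub_apply, hf u hu, hg u hu, sub_zero]

theorem Lo.neg {e : ℕ} {f : PS I} (hf : Lo e f) : Lo e (-f) := fun u hu => by
  rw [Pi.neg_apply, hf u hu, neg_zero]

theorem Lo.Xm {e : ℕ} {f : PS I} (hf : Lo e f) (i : I) : Lo (e + 1) (Xm i f) := by
  intro u hu
  cases u with
  | nil => rfl
  | cons j u =>
    show (if j = i then f u else 0) = 0
    rw [List.length_cons] at hu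
    rw [hf u (by omega), ite_self]

theorem Lo.Ei {e : ℕ} {f : PS I} (hf : Lo e f) (i : I) : Lo e (Ei i f) := by
  intro u
  induction u with
  | nil => intro hu; exact hf [] hu
  | cons j u ih =>
    intro hu
    show (f (j :: u) - if j = i then Magnus.Ei i f u else 0) = 0
    rw [List.length_cons] at hu
    rw [hf _ (by rw [List.length_cons]; exact hu), ih (by omega), ite_self, sub_zero]

theorem Lo.mu (w : FreeGroup I) : ∀ {e : ℕ} {f : PS I}, Lo e f → Lo e (mu w f) := by
  refine FreeGroup.induction_on (C := fun w => ∀ {e : ℕ} {f : PS I}, Lo e f → Lo e (Magnus.mu w f))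
    w ?_ ?_ ?_ ?_
  · intro e f hf
    rw [mu_one]; exact hf
  · intro i e f hf
    have h : Magnus.mu (FreeGroup.of i) f = f + Magnus.Xm i f := funext fun u => mu_of i f u
    rw [h]
    exact hf.add ((hf.Xm i).mono (Nat.le_succ e))
  · intro i _ e f hf
    rw [mu_of_inv]
    exact hf.Ei i
  · intro w w' h h' e f hf
    rw [mu_mul]
    exact h (h' hf)

/-- The `d`-th dimension subgroup. -/
def S (d : ℕ) (w : FreeGroup I) : Prop := ∀ (e : ℕ) (f : PS I), Lo e f → Lo (e + d) (mu w f - f)

theorem S_one_mem (d : ℕ) : S d (1 : FreeGroup I) := by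
  intro e f _
  rw [mu_one, sub_self]
  intro u _
  rfl

theorem S_mul {d : ℕ} {w w' : FreeGroup I} (h : S d w) (h' : S d w') : S d (w * w') := by
  intro e f hf
  have e1 : mu (w * w') f - f = (mu w (mu w' f) - mu w' f) + (mu w' f - f) := by
    rw [mu_mul]; abel
  rw [e1]
  exact (h e _ (hf.mu w')).add (h' e f hf)

theorem S_inv {d : ℕ} {w : FreeGroup I} (h : S d w) : S d w⁻¹ := by
  intro e f hf
  have e1 : mu w⁻¹ f - f = -(mu w (mu w⁻¹ f) - mu w⁻¹ f) := by
    rw [mu_mu_inv]; abel
  rw [e1]
  exact (h e _ (hf.mu w⁻¹)).neg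

theorem S_conj {d : ℕ} {w : FreeGroup I} (h : S d w) (g : FreeGroup I) : S d (g * w * g⁻¹) := by
  intro e f hf
  have e1 : mu (g * w * g⁻¹) f - f = mu g (mu w (mu g⁻¹ f) - mu g⁻¹ f) := by
    rw [mu_mul, mu_mul, map_sub, mu_mu_inv]
  rw [e1]
  exact (h e _ (hf.mu g⁻¹)).mu g

theorem S_one_all (w : FreeGroup I) : S 1 w := by
  refine FreeGroup.induction_on w (S_one_mem 1) ?_ ?_ fun w w' h h' => S_mul h h'
  · intro i e f hf
    have h : mu (FreeGroup.of i) f - f = Xm i f := by
      funext u
      rw [Pi.sub_apply, mu_of]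
      ring
    rw [h]
    exact hf.Xm i
  · intro i h
    exact S_inv h

theorem S_comm {d : ℕ} {w : FreeGroup I} (h : S d w) (g : FreeGroup I) :
    S (d + 1) (g * w * g⁻¹ * w⁻¹) := by
  intro e f hf
  set f' := mu (g⁻¹ * w⁻¹) f with hf'
  have hf1 : Lo e f' := hf.mu _
  have e1 : mu (g * w * g⁻¹ * w⁻¹) f = mu g (mu w f') := by
    rw [hf', ← mu_mul, ← mu_mul]
    congr 2
    group
  have e2 : f = mu w (mu g f') := by
    rw [hf', ← mu_mul, ← mu_mul]
    have : w * g * (g⁻¹ * w⁻¹) = 1 := by group
    rw [this, mu_one]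
  have e3 : mu (g * w * g⁻¹ * w⁻¹) f - f =
      (mu g (mu w f' - f') - (mu w f' - f')) - (mu w (mu g f' - f') - (mu g f' - f')) := by
    rw [e1]
    conv_lhs => rw [e2]
    rw [map_sub, map_sub]
    abel
  rw [e3]
  refine Lo.sub ?_ ?_
  · have := S_one_all g (e + d) _ (h e f' hf1)
    rwa [add_assoc] at this
  · have := h (e + 1) _ (S_one_all g e f' hf1)
    rwa [add_assoc, add_comm 1 d] at this

theorem S_anti {d d' : ℕ} (hd : d ≤ d') {w : FreeGroup I} (h : S d' w) : S d w :=
  fun e f hf => (h e f hf).mono (Nat.add_le_add_left hd e)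

variable (I) in
/-- The index set of the functionals. -/
abbrev Ix : Type := ℕ × PS I × List I

open Classical in
/-- The functionals. -/
noncomputable def ph (d : ℕ) (i : Ix I) (w : FreeGroup I) : ℤ :=
  if Lo i.1 i.2.1 ∧ i.2.2.length = i.1 + d then (mu w i.2.1 - i.2.1) i.2.2 else 0

theorem ph_mul {d : ℕ} (hd : 1 ≤ d) (i : Ix I) {w w' : FreeGroup I} (h : S d w) (h' : S d w') :
    ph d i (w * w') = ph d i w + ph d i w' := by
  unfold ph
  split_ifs with hc
  · have e1 : mu (w * w') i.2.1 - i.2.1 =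
        (mu w (mu w' i.2.1 - i.2.1) - (mu w' i.2.1 - i.2.1)) + (mu w i.2.1 - i.2.1) +
          (mu w' i.2.1 - i.2.1) := by
      rw [mu_mul, map_sub]; abel
    rw [e1, Pi.add_apply, Pi.add_apply]
    have h1 := h (i.1 + d) _ (h' i.1 _ hc.1) i.2.2 (by omega)
    rw [h1, zero_add]
  · rfl

theorem ph_zero {d : ℕ} (i : Ix I) {w : FreeGroup I} (h : S (d + 1) w) : ph d i w = 0 := by
  unfold ph
  split_ifs with hc
  · exact h i.1 _ hc.1 i.2.2 (by omega)
  · rfl

theorem ph_one {d : ℕ} (i : Ix I) : ph d i (1 : FreeGroup I) = 0 := ph_zero i (S_one_mem _)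

theorem ph_inv {d : ℕ} (hd : 1 ≤ d) (i : Ix I) {w : FreeGroup I} (h : S d w) :
    ph d i w⁻¹ = - ph d i w := by
  have := ph_mul hd i h (S_inv h)
  rw [mul_inv_cancel, ph_one] at this
  omega

theorem ph_conj {d : ℕ} (hd : 1 ≤ d) (i : Ix I) {w : FreeGroup I} (h : S d w) (g : FreeGroup I) :
    ph d i (g * w * g⁻¹) = ph d i w := by
  have e : g * w * g⁻¹ = (g * w * g⁻¹ * w⁻¹) * w := by group
  rw [e, ph_mul hd i (S_anti (Nat.le_succ d) (S_comm h g)) h, ph_zero i (S_comm h g), zero_add]

theorem S_succ_of {d : ℕ} {w : FreeGroup I} (h : S d w) (h0 : ∀ i : Ix I, ph d i w = 0) :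
    S (d + 1) w := by
  intro e f hf u hu
  rcases Nat.lt_succ_iff_lt_or_eq.1 (by omega : u.length < e + d + 1) with h1 | h1
  · exact h e f hf u h1
  · have := h0 (e, f, u)
    unfold ph at this
    rwa [if_pos ⟨hf, h1⟩] at this

/-! ### Faithfulness -/

/-- The unit series. -/
def dl : PS I := fun u => if u = [] then 1 else 0

/-- The action of one letter. -/
def Eb (a : I × Bool) : PS I ≃ₗ[ℤ] PS I := cond a.2 (E a.1) (E a.1)⁻¹

theorem mu_mk (L : List (I × Bool)) : mu (FreeGroup.mk L) = (L.map Eb).prod := by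
  unfold mu
  rw [FreeGroup.lift_mk]
  rfl

/-- The sign of a letter. -/
def sg (b : Bool) : ℤ := if b then 1 else -1

theorem Eb_of_ne (a : I × Bool) (f : PS I) (u : List I) (hu : u.head? ≠ some a.1) :
    Eb a f u = f u := by
  obtain ⟨i, b⟩ := a
  cases b with
  | true =>
    show f u + Xm i f u = f u
    cases u with
    | nil => simp [Xm]
    | cons j u =>
      have : j ≠ i := fun h => hu (by simp [h])
      simp [Xm, this]
  | false =>
    show Ei i f u = f u
    cases u with
    | nil => rfl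
    | cons j u =>
      have : j ≠ i := fun h => hu (by simp [h])
      simp [Ei, this]

theorem Eb_cons (a : I × Bool) (f : PS I) (u : List I) (hu : u.head? ≠ some a.1) :
    Eb a f (a.1 :: u) = f (a.1 :: u) + sg a.2 * f u := by
  obtain ⟨i, b⟩ := a
  cases b with
  | true =>
    show f (i :: u) + Xm i f (i :: u) = _
    simp [Xm, sg]
  | false =>
    have h1 := Eb_of_ne (i, false) f u hu
    have h2 : Ei i f u = f u := h1
    show Ei i f (i :: u) = _
    simp only [Ei, sg]
    rw [h2]
    simp
    ring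

/-- The series of a word. -/
def fw (L : List (I × Bool)) : PS I := (L.map Eb).prod dl

theorem fw_cons (a : I × Bool) (L : List (I × Bool)) : fw (a :: L) = Eb a (fw L) := by
  unfold fw
  rw [List.map_cons, List.prod_cons]
  rfl

theorem head_ne_of_chain {i : I} {v : List I} (hv : (i :: v).IsChain (· ≠ ·)) :
    v.head? ≠ some i := by
  intro h
  cases v with
  | nil => simp at h
  | cons k v =>
    have h3 := (List.isChain_cons_cons.1 hv).1
    rw [List.head?_cons] at h
    exact h3 (Option.some.inj h).symm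

theorem chain_cons_of {i : I} {v : List I} (hv : v.IsChain (· ≠ ·)) (h : v.head? ≠ some i) :
    (i :: v).IsChain (· ≠ ·) := by
  cases v with
  | nil => exact List.isChain_singleton i
  | cons k v =>
    refine List.isChain_cons_cons.2 ⟨fun h1 => h ?_, hv⟩
    rw [List.head?_cons, h1]

theorem fw_inv (L : List (I × Bool)) : ∀ a : I × Bool, FreeGroup.IsReduced (a :: L) →
    ∃ (u : List I) (q : ℤ) (r : ℕ), u.head? ≠ some a.1 ∧ u.IsChain (· ≠ ·) ∧ q ≠ 0 ∧ 0 < r ∧
      fw (a :: L) u = q ∧ fw (a :: L) (a.1 :: u) = sg a.2 * r * q ∧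
      (∀ v : List I, v.IsChain (· ≠ ·) → u.length < v.length → v.head? ≠ some a.1 →
        fw (a :: L) v = 0) ∧
      ∀ v : List I, v.IsChain (· ≠ ·) → u.length + 1 < v.length → fw (a :: L) v = 0 := by
  induction L with
  | nil =>
    intro a _
    have h0 : ∀ v : List I, v ≠ [] → fw ([] : List (I × Bool)) v = 0 := fun v hv => by
      show dl v = 0
      simp [dl, hv]
    refine ⟨[], 1, 1, by simp, List.isChain_nil, by norm_num, by norm_num, ?_, ?_, ?_, ?_⟩
    · rw [fw_cons, Eb_of_ne _ _ _ (by simp)]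
      rfl
    · rw [fw_cons, Eb_cons _ _ _ (by simp), h0 _ (by simp)]
      show 0 + sg a.2 * dl ([] : List I) = _
      simp [dl]
    · intro v _ hl hv
      rw [fw_cons, Eb_of_ne _ _ _ hv, h0 _ (by rintro rfl; simp at hl)]
    · intro v hv hl
      cases v with
      | nil => simp at hl
      | cons j v =>
        rw [fw_cons]
        by_cases hj : j = a.1
        · subst hj
          rw [Eb_cons _ _ _ (head_ne_of_chain hv), h0 _ (by simp),
            h0 _ (by rintro rfl; simp at hl)]
          simp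
        · rw [Eb_of_ne _ _ _ (by simpa using hj), h0 _ (by simp)]
  | cons b L ih =>
    intro a ha
    rw [FreeGroup.isReduced_cons_cons] at ha
    obtain ⟨u, q, r, hu1, hu2, hq, hr, h1, h2, h3, h4⟩ := ih b ha.2
    by_cases hab : a.1 = b.1
    · have hab2 := ha.1 hab
      have hab' : a = b := Prod.ext hab hab2
      subst hab'
      refine ⟨u, q, r + 1, hu1, hu2, hq, Nat.succ_pos r, ?_, ?_, ?_, ?_⟩
      · rw [fw_cons, Eb_of_ne _ _ _ hu1, h1]
      · rw [fw_cons, Eb_cons _ _ _ hu1, h1, h2]
        push_cast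
        ring
      · intro v hv hl hh
        rw [fw_cons, Eb_of_ne _ _ _ hh]
        exact h3 v hv hl hh
      · intro v hv hl
        rw [fw_cons]
        cases v with
        | nil => simp at hl
        | cons j v =>
          by_cases hj : j = a.1
          · subst hj
            rw [List.length_cons] at hl
            rw [Eb_cons _ _ _ (head_ne_of_chain hv), h4 _ hv (by rw [List.length_cons]; omega),
              h3 v hv.of_cons (by omega) (head_ne_of_chain hv)]
            simp
          · rw [Eb_of_ne _ _ _ (by simpa using hj)]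
            exact h4 _ hv hl
    · have hba : b.1 ≠ a.1 := fun h => hab h.symm
      have hc : (b.1 :: u).IsChain (· ≠ ·) := chain_cons_of hu2 hu1
      have hh : (b.1 :: u).head? ≠ some a.1 := by simpa using hba
      refine ⟨b.1 :: u, sg b.2 * r * q, 1, hh, hc, ?_, Nat.one_pos, ?_, ?_, ?_, ?_⟩
      · refine mul_ne_zero (mul_ne_zero ?_ ?_) hq
        · cases b.2 <;> simp [sg]
        · exact_mod_cast hr.ne'
      · rw [fw_cons, Eb_of_ne _ _ _ hh, h2]
      · rw [fw_cons, Eb_cons _ _ _ hh, h2, h4 _ (chain_cons_of hc hh) (by simp)]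
        push_cast
        ring
      · intro v hv hl hh'
        rw [List.length_cons] at hl
        rw [fw_cons, Eb_of_ne _ _ _ hh']
        exact h4 v hv hl
      · intro v hv hl
        rw [fw_cons]
        rw [List.length_cons] at hl
        cases v with
        | nil => simp at hl
        | cons j v =>
          rw [List.length_cons] at hl
          by_cases hj : j = a.1
          · subst hj
            rw [Eb_cons _ _ _ (head_ne_of_chain hv), h4 _ hv (by rw [List.length_cons]; omega),
              h4 v hv.of_cons (by omega)]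
            simp
          · rw [Eb_of_ne _ _ _ (by simpa using hj)]
            exact h4 _ hv (by rw [List.length_cons]; omega)

theorem mu_dl_ne {w : FreeGroup I} (hw : w ≠ 1) : ∃ u : List I, u ≠ [] ∧ mu w dl u ≠ 0 := by
  have h1 : mu w dl = fw w.toWord := by
    unfold fw
    rw [← mu_mk, FreeGroup.mk_toWord]
  have h2 : FreeGroup.IsReduced w.toWord := FreeGroup.isReduced_toWord
  rw [h1]
  rcases hL : w.toWord with _ | ⟨a, L⟩
  · exact absurd (FreeGroup.toWord_eq_nil_iff.1 hL) hw
  · rw [hL] at h2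
    obtain ⟨u, q, r, -, -, hq, hr, -, h3, -⟩ := fw_inv L a h2
    refine ⟨a.1 :: u, by simp, ?_⟩
    rw [h3]
    refine mul_ne_zero (mul_ne_zero ?_ ?_) hq
    · cases a.2 <;> simp [sg]
    · exact_mod_cast hr.ne'

/-- The filtration is separated. -/
theorem exists_not_S {w : FreeGroup I} (hw : w ≠ 1) : ∃ d, ¬ S d w := by
  obtain ⟨u, hu, hne⟩ := mu_dl_ne hw
  refine ⟨u.length + 1, fun h => hne ?_⟩
  have h1 := h 0 dl (fun v hv => absurd hv (Nat.not_lt_zero _)) u (by omega)
  rw [Pi.sub_apply] at h1
  have h2 : (dl : PS I) u = 0 := by simp [dl, hu]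
  rw [h2, sub_zero] at h1
  exact h1

end Pool.Agent.Lib.MP_106261_lc.Magnus
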