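import Pool.Agent.Lib.MP_106261_lc.Magnus
import Pool.Agent.Lib.MP_106261_lc.LOrd

/-!
# The Magnus order of the free group and its perturbations
-/

set_option autoImplicit false

open Filter Topology

namespace Pool.Agent.Lib.MP_106261_lc.Magnus

variable {I : Type} [DecidableEq I]

/-- `d` and `i` witness the positivity of `w`. -/
def PosAt (d : ℕ) (i : Ix I) (w : FreeGroup I) : Prop :=
  1 ≤ d ∧ S d w ∧ (∀ j, WellOrderingRel j i → ph d j w = 0) ∧ 0 < ph d i w

/-- Positivity in the Magnus order. -/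
def Pos (w : FreeGroup I) : Prop := ∃ d i, PosAt d i w

theorem PosAt.not_S {d : ℕ} {i : Ix I} {w : FreeGroup I} (h : PosAt d i w) : ¬ S (d + 1) w :=
  fun h1 => by
    have := h.2.2.2
    rw [ph_zero i h1] at this
    exact lt_irrefl _ this

theorem not_pos_one : ¬ Pos (1 : FreeGroup I) := by
  rintro ⟨d, i, h⟩
  exact h.not_S (S_one_mem _)

theorem PosAt.mul_deep {d : ℕ} {i : Ix I} {w h : FreeGroup I} (hw : PosAt d i w)
    (hh : S (d + 1) h) : PosAt d i (w * h) := by
  have h1 : ∀ j, ph d j (w * h) = ph d j w := fun j => by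
    rw [ph_mul hw.1 j hw.2.1 (S_anti (Nat.le_succ d) hh), ph_zero j hh, add_zero]
  refine ⟨hw.1, S_mul hw.2.1 (S_anti (Nat.le_succ d) hh), fun j hj => ?_, ?_⟩
  · rw [h1]; exact hw.2.2.1 j hj
  · rw [h1]; exact hw.2.2.2

theorem PosAt.deep_mul {d : ℕ} {i : Ix I} {w h : FreeGroup I} (hw : PosAt d i w)
    (hh : S (d + 1) h) : PosAt d i (h * w) := by
  have h1 : ∀ j, ph d j (h * w) = ph d j w := fun j => by
    rw [ph_mul hw.1 j (S_anti (Nat.le_succ d) hh) hw.2.1, ph_zero j hh, zero_add]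
  refine ⟨hw.1, S_mul (S_anti (Nat.le_succ d) hh) hw.2.1, fun j hj => ?_, ?_⟩
  · rw [h1]; exact hw.2.2.1 j hj
  · rw [h1]; exact hw.2.2.2

theorem Pos.mul {w w' : FreeGroup I} (h : Pos w) (h' : Pos w') : Pos (w * w') := by
  obtain ⟨d, i, h⟩ := h
  obtain ⟨d', i', h'⟩ := h'
  rcases lt_trichotomy d d' with hd | rfl | hd
  · exact ⟨d, i, h.mul_deep (S_anti hd h'.2.1)⟩
  · have h1 : ∀ j, ph d j (w * w') = ph d j w + ph d j w' := fun j =>
      ph_mul h.1 j h.2.1 h'.2.1
    have htri : WellOrderingRel i i' ∨ i = i' ∨ WellOrderingRel i' i :=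
      trichotomous_of WellOrderingRel i i'
    rcases htri with hi | rfl | hi
    · refine ⟨d, i, h.1, S_mul h.2.1 h'.2.1, fun j hj => ?_, ?_⟩
      · rw [h1, h.2.2.1 j hj, h'.2.2.1 j (trans_of WellOrderingRel hj hi), add_zero]
      · rw [h1, h'.2.2.1 i hi, add_zero]; exact h.2.2.2
    · refine ⟨d, i, h.1, S_mul h.2.1 h'.2.1, fun j hj => ?_, ?_⟩
      · rw [h1, h.2.2.1 j hj, h'.2.2.1 j hj, add_zero]
      · rw [h1]; exact add_pos h.2.2.2 h'.2.2.2
    · refine ⟨d, i', h.1, S_mul h.2.1 h'.2.1, fun j hj => ?_, ?_⟩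
      · rw [h1, h.2.2.1 j (trans_of WellOrderingRel hj hi), h'.2.2.1 j hj, add_zero]
      · rw [h1, h.2.2.1 i' hi, zero_add]; exact h'.2.2.2
  · exact ⟨d', i', h'.deep_mul (S_anti hd h.2.1)⟩

theorem Pos.conj {w : FreeGroup I} (h : Pos w) (g : FreeGroup I) : Pos (g * w * g⁻¹) := by
  obtain ⟨d, i, h⟩ := h
  refine ⟨d, i, h.1, S_conj h.2.1 g, fun j hj => ?_, ?_⟩
  · rw [ph_conj h.1 j h.2.1]; exact h.2.2.1 j hj
  · rw [ph_conj h.1 i h.2.1]; exact h.2.2.2

theorem pos_or {w : FreeGroup I} (hw : w ≠ 1) : Pos w ∨ Pos w⁻¹ := by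
  classical
  have hex := exists_not_S hw
  let n := Nat.find hex
  have hn : ¬ S n w := Nat.find_spec hex
  have hn2 : 2 ≤ n := by
    by_contra h
    exact hn (S_anti (by omega) (S_one_all w))
  obtain ⟨d, hd⟩ : ∃ d, n = d + 1 := ⟨n - 1, by omega⟩
  have hd1 : 1 ≤ d := by omega
  have hSd : S d w := by
    by_contra h
    have := Nat.find_min' hex h
    omega
  rw [hd] at hn
  have hne : ∃ i : Ix I, ph d i w ≠ 0 := by
    by_contra h
    push Not at h
    exact hn (S_succ_of hSd h)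
  have hwf : WellFounded (WellOrderingRel (α := Ix I)) := IsWellFounded.wf
  let i := hwf.min {i | ph d i w ≠ 0} hne
  have hi : ph d i w ≠ 0 := hwf.min_mem {i | ph d i w ≠ 0} hne
  have hmin : ∀ j, WellOrderingRel j i → ph d j w = 0 := by
    intro j hj
    by_contra h
    exact hwf.not_lt_min {i | ph d i w ≠ 0} h hj
  rcases lt_or_gt_of_ne hi with h | h
  · right
    refine ⟨d, i, hd1, S_inv hSd, fun j hj => ?_, ?_⟩
    · rw [ph_inv hd1 j hSd, hmin j hj, neg_zero]
    · rw [ph_inv hd1 i hSd]; omega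
  · exact Or.inl ⟨d, i, hd1, hSd, hmin, h⟩

theorem Pos.asymm {w : FreeGroup I} (h : Pos w) (h' : Pos w⁻¹) : False := by
  have := h.mul h'
  rw [mul_inv_cancel] at this
  exact not_pos_one this

theorem Pos.mul_S {K : ℕ} {w h : FreeGroup I} (hw : Pos w) (hS : ¬ S K w) (hh : S K h) :
    Pos (w * h) := by
  obtain ⟨d, i, hw⟩ := hw
  have hd : d + 1 ≤ K := by
    by_contra h
    exact hS (S_anti (by omega) hw.2.1)
  exact ⟨d, i, hw.mul_deep (S_anti hd hh)⟩

theorem Pos.S_mul {K : ℕ} {w h : FreeGroup I} (hw : Pos w) (hS : ¬ S K w) (hh : S K h) :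
    Pos (h * w) := by
  obtain ⟨d, i, hw⟩ := hw
  have hd : d + 1 ≤ K := by
    by_contra h
    exact hS (S_anti (by omega) hw.2.1)
  exact ⟨d, i, hw.deep_mul (S_anti hd hh)⟩

open Classical in
/-- The Magnus order. -/
noncomputable def P0 : LOrd (FreeGroup I) := ⟨fun w => decide (Pos w), by
  refine ⟨decide_eq_false not_pos_one, fun a b ha hb => ?_, fun a ha => ?_⟩
  · rw [decide_eq_true_eq] at ha hb ⊢
    exact ha.mul hb
  · rw [decide_eq_true_eq, decide_eq_true_eq]
    exact pos_or ha⟩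

theorem P0_pos (w : FreeGroup I) : (P0 : LOrd (FreeGroup I)).pos w ↔ Pos w := by
  classical
  exact decide_eq_true_iff

/-! ### The metabelian representation -/

variable (l : I → ℤ) (b : I)

/-- The affine action of a generator. -/
def Aof (i : I) : Equiv.Perm (ℤ → ℤ) where
  toFun r := fun z => r (z - l i) + if i = b ∧ z = 0 then 1 else 0
  invFun r := fun z => r (z + l i) - if i = b ∧ z + l i = 0 then 1 else 0
  left_inv r := by
    funext z
    simp
  right_inv r := by
    funext z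
    simp

/-- The affine representation. -/
def A : FreeGroup I →* Equiv.Perm (ℤ → ℤ) := FreeGroup.lift (Aof l b)

/-- The weight. -/
def lam : FreeGroup I →* Multiplicative ℤ := FreeGroup.lift fun i => Multiplicative.ofAdd (l i)

/-- The weight as an integer. -/
def lm (w : FreeGroup I) : ℤ := Multiplicative.toAdd (lam l w)

/-- The translation part. -/
def tr (w : FreeGroup I) : ℤ → ℤ := A l b w fun _ => 0

theorem lm_mul (w w' : FreeGroup I) : lm l (w * w') = lm l w + lm l w' := by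
  unfold lm
  rw [map_mul, toAdd_mul]

theorem lm_one : lm l (1 : FreeGroup I) = 0 := by
  unfold lm
  rw [map_one, toAdd_one]

theorem lm_inv (w : FreeGroup I) : lm l w⁻¹ = - lm l w := by
  unfold lm
  rw [map_inv, toAdd_inv]

theorem lm_of (i : I) : lm l (FreeGroup.of i) = l i := by
  unfold lm lam
  rw [FreeGroup.lift_apply_of, toAdd_ofAdd]

theorem A_mul (w w' : FreeGroup I) (r : ℤ → ℤ) : A l b (w * w') r = A l b w (A l b w' r) := by
  rw [map_mul]; rfl

theorem A_one (r : ℤ → ℤ) : A l b (1 : FreeGroup I) r = r := by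
  rw [map_one]; rfl

theorem A_of (i : I) (r : ℤ → ℤ) (z : ℤ) :
    A l b (FreeGroup.of i) r z = r (z - l i) + if i = b ∧ z = 0 then 1 else 0 := by
  unfold A
  rw [FreeGroup.lift_apply_of]
  rfl

theorem A_of_inv (i : I) (r : ℤ → ℤ) (z : ℤ) :
    A l b (FreeGroup.of i)⁻¹ r z = r (z + l i) - if i = b ∧ z + l i = 0 then 1 else 0 := by
  unfold A
  rw [map_inv, FreeGroup.lift_apply_of]
  rfl

theorem A_apply (w : FreeGroup I) : ∀ (r : ℤ → ℤ) (z : ℤ),
    A l b w r z = r (z - lm l w) + tr l b w z := by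
  refine FreeGroup.induction_on (C := fun w => ∀ (r : ℤ → ℤ) (z : ℤ),
    A l b w r z = r (z - lm l w) + tr l b w z) w ?_ ?_ ?_ ?_
  · intro r z
    unfold tr
    rw [A_one, A_one, lm_one, sub_zero, add_zero]
  · intro i r z
    unfold tr
    rw [A_of, A_of, lm_of, zero_add]
  · intro i _ r z
    unfold tr
    rw [A_of_inv, A_of_inv, lm_inv, lm_of, sub_neg_eq_add]
    ring
  · intro w w' h h' r z
    unfold tr
    rw [A_mul, A_mul, h, h', h _ z, h' _ (z - lm l w), lm_mul]
    rw [show z - (lm l w + lm l w') = z - lm l w - lm l w' by ring]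
    ring

theorem tr_mul (w w' : FreeGroup I) (z : ℤ) :
    tr l b (w * w') z = tr l b w' (z - lm l w) + tr l b w z := by
  have : tr l b (w * w') z = A l b w (A l b w' fun _ => 0) z := by
    unfold tr
    rw [A_mul]
  rw [this, A_apply]
  rfl

theorem tr_one (z : ℤ) : tr l b (1 : FreeGroup I) z = 0 := by
  unfold tr
  rw [A_one]

theorem tr_inv (w : FreeGroup I) (z : ℤ) : tr l b w⁻¹ z = - tr l b w (z + lm l w) := by
  have := tr_mul l b w⁻¹ w z
  rw [inv_mul_cancel, tr_one, lm_inv, sub_neg_eq_add] at this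
  linarith

theorem tr_of (i : I) (z : ℤ) : tr l b (FreeGroup.of i) z = if i = b ∧ z = 0 then 1 else 0 := by
  unfold tr
  rw [A_of, zero_add]

theorem tr_conj {w : FreeGroup I} (hw : lm l w = 0) (g : FreeGroup I) (z : ℤ) :
    tr l b (g * w * g⁻¹) z = tr l b w (z - lm l g) := by
  rw [tr_mul, tr_mul, lm_mul, hw, add_zero, tr_inv, sub_add_cancel]
  ring

theorem tr_mul_of {w : FreeGroup I} (hw : lm l w = 0) (w' : FreeGroup I) (z : ℤ) :
    tr l b (w * w') z = tr l b w z + tr l b w' z := by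
  rw [tr_mul, hw, sub_zero]
  ring

theorem tr_inv_of {w : FreeGroup I} (hw : lm l w = 0) (z : ℤ) :
    tr l b w⁻¹ z = - tr l b w z := by
  rw [tr_inv, hw, add_zero]

/-- Elements of the second dimension subgroup have weight zero. -/
theorem lm_of_S [Fintype I] {w : FreeGroup I} (hw : S 2 w) : lm l w = 0 := by
  have hlo : Lo 0 (dl : PS I) := fun u hu => absurd hu (Nat.not_lt_zero _)
  have hX : ∀ a i : I, ph 1 (0, dl, [a]) (FreeGroup.of i) = if a = i then 1 else 0 := by
    intro a i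
    unfold ph
    rw [if_pos ⟨hlo, by simp⟩, Pi.sub_apply, mu_of]
    simp [Xm, dl]
  have hmul : ∀ (a : I) (w w' : FreeGroup I), ph 1 (0, dl, [a]) (w * w') =
      ph 1 (0, dl, [a]) w + ph 1 (0, dl, [a]) w' := fun a w w' =>
    ph_mul le_rfl _ (S_one_all w) (S_one_all w')
  have key : ∀ w : FreeGroup I, lm l w = ∑ a : I, l a * ph 1 (0, dl, [a]) w := by
    intro w
    refine FreeGroup.induction_on w ?_ ?_ ?_ ?_
    · simp [lm_one, ph_one]
    · intro i
      simp [lm_of, hX]
    · intro i h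
      have h1 : ∀ a : I, ph 1 (0, dl, [a]) (FreeGroup.of i)⁻¹ =
          - ph 1 (0, dl, [a]) (FreeGroup.of i) := fun a => ph_inv le_rfl _ (S_one_all _)
      rw [lm_inv, h]
      simp [h1]
    · intro w w' h h'
      rw [lm_mul, h, h', ← Finset.sum_add_distrib]
      refine Finset.sum_congr rfl fun a _ => ?_
      rw [hmul]
      ring
  rw [key]
  refine Finset.sum_eq_zero fun a _ => ?_
  rw [ph_zero _ hw, mul_zero]

/-! ### The perturbed orders -/

/-- Positivity in the perturbed order. -/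
def PosK (K : ℕ) (p : ℤ) (w : FreeGroup I) : Prop :=
  (¬ S (K + 2) w ∧ Pos w) ∨ (S (K + 2) w ∧ (0 < tr l b w p ∨ (tr l b w p = 0 ∧ Pos w)))

theorem S_mul_iff {K : ℕ} {w h : FreeGroup I} (hh : S K h) : S K (w * h) ↔ S K w := by
  constructor
  · intro h1
    have := S_mul h1 (S_inv hh)
    rwa [mul_inv_cancel_right] at this
  · intro h1
    exact S_mul h1 hh

theorem S_mul_iff' {K : ℕ} {w h : FreeGroup I} (hh : S K h) : S K (h * w) ↔ S K w := by
  constructor
  · intro h1
    have := S_mul (S_inv hh) h1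
    rwa [inv_mul_cancel_left] at this
  · intro h1
    exact S_mul hh h1

open Classical in
/-- The perturbed order. -/
noncomputable def PK [Fintype I] (K : ℕ) (p : ℤ) : LOrd (FreeGroup I) :=
  ⟨fun w => decide (PosK l b K p w), by
  refine ⟨decide_eq_false ?_, fun w w' hw hw' => ?_, fun w hw => ?_⟩
  · rintro (h | h)
    · exact not_pos_one h.2
    · rcases h.2 with h1 | h1
      · rw [tr_one] at h1
        exact lt_irrefl _ h1
      · exact not_pos_one h1.2
  · rw [decide_eq_true_eq] at hw hw' ⊢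
    rcases hw with ⟨h1, h2⟩ | ⟨h1, h2⟩ <;> rcases hw' with ⟨h1', h2'⟩ | ⟨h1', h2'⟩
    · left
      refine ⟨fun h => ?_, h2.mul h2'⟩
      have h3 : Pos (w' * (w * w')⁻¹) := h2'.mul_S h1' (S_inv h)
      rw [mul_inv_rev, mul_inv_cancel_left] at h3
      exact h2.asymm h3
    · exact Or.inl ⟨fun h => h1 ((S_mul_iff h1').1 h), h2.mul_S h1 h1'⟩
    · exact Or.inl ⟨fun h => h1' ((S_mul_iff' h1).1 h), h2'.S_mul h1' h1⟩
    · right
      refine ⟨S_mul h1 h1', ?_⟩
      rw [tr_mul_of l b (lm_of_S l (S_anti (by omega) h1))]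
      rcases h2 with h2 | h2 <;> rcases h2' with h2' | h2'
      · left; omega
      · left; omega
      · left; omega
      · right; exact ⟨by omega, h2.2.mul h2'.2⟩
  · rw [decide_eq_true_eq, decide_eq_true_eq]
    by_cases h1 : S (K + 2) w
    · have h2 := tr_inv_of l b (lm_of_S l (S_anti (by omega) h1)) p
      rcases lt_trichotomy (tr l b w p) 0 with h3 | h3 | h3
      · right; right
        exact ⟨S_inv h1, Or.inl (by rw [h2]; omega)⟩
      · rcases pos_or hw with h4 | h4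
        · exact Or.inl (Or.inr ⟨h1, Or.inr ⟨h3, h4⟩⟩)
        · exact Or.inr (Or.inr ⟨S_inv h1, Or.inr ⟨by rw [h2]; omega, h4⟩⟩)
      · exact Or.inl (Or.inr ⟨h1, Or.inl h3⟩)
    · rcases pos_or hw with h4 | h4
      · exact Or.inl (Or.inl ⟨h1, h4⟩)
      · refine Or.inr (Or.inl ⟨fun h => h1 ?_, h4⟩)
        have := S_inv h
        rwa [inv_inv] at this⟩

variable [Fintype I]

theorem PK_pos (K : ℕ) (p : ℤ) (w : FreeGroup I) : (PK l b K p).pos w ↔ PosK l b K p w := by
  classical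
  exact decide_eq_true_iff

theorem PosK_conj {K : ℕ} {p : ℤ} {w : FreeGroup I} (h : PosK l b K p w) {g : FreeGroup I}
    (hg : lm l g = 0) : PosK l b K p (g * w * g⁻¹) := by
  rcases h with ⟨h1, h2⟩ | ⟨h1, h2⟩
  · left
    refine ⟨fun h => h1 ?_, h2.conj g⟩
    have := S_conj h g⁻¹
    have e : g⁻¹ * (g * w * g⁻¹) * g⁻¹⁻¹ = w := by group
    rwa [e] at this
  · right
    refine ⟨S_conj h1 g, ?_⟩
    rw [tr_conj l b (lm_of_S l (S_anti (by omega) h1)), hg, sub_zero]
    rcases h2 with h2 | h2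
    · exact Or.inl h2
    · exact Or.inr ⟨h2.1, h2.2.conj g⟩

theorem PK_smul (K : ℕ) (p : ℤ) {g : FreeGroup I} (hg : lm l g = 0) :
    g • PK l b K p = PK l b K p := by
  apply LOrd.ext'
  intro a
  rw [LOrd.smul_pos, PK_pos, PK_pos]
  constructor
  · intro h
    have := PosK_conj l b h hg
    have e : g * (g⁻¹ * a * g) * g⁻¹ = a := by group
    rwa [e] at this
  · intro h
    have := PosK_conj l b h (g := g⁻¹) (by rw [lm_inv, hg, neg_zero])
    rwa [inv_inv] at this

theorem PK_tendsto (p : ℕ → ℤ) : Tendsto (fun K => PK l b K (p K)) atTop (𝓝 (P0 : LOrd (FreeGroup I))) := by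
  apply LOrd.tendsto_iff
  intro a
  by_cases ha : a = 1
  · subst ha
    exact Eventually.of_forall fun K =>
      iff_of_false (LOrd.not_pos_one _) (LOrd.not_pos_one _)
  · obtain ⟨d, hd⟩ := exists_not_S ha
    filter_upwards [eventually_ge_atTop d] with K hK
    rw [PK_pos, P0_pos]
    have h1 : ¬ S (K + 2) a := fun h => hd (S_anti (by omega) h)
    constructor
    · rintro (h | h)
      · exact h.2
      · exact absurd h.1 h1
    · intro h
      exact Or.inl ⟨h1, h⟩

/-- Iterated commutators. -/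
def hk (a b : I) : ℕ → FreeGroup I
  | 0 => FreeGroup.of a * FreeGroup.of b * (FreeGroup.of a)⁻¹ * (FreeGroup.of b)⁻¹
  | j + 1 => FreeGroup.of a * hk a b j * (FreeGroup.of a)⁻¹ * (hk a b j)⁻¹

omit [Fintype I] in
theorem hk_S (a b : I) (j : ℕ) : S (j + 2) (hk a b j) := by
  induction j with
  | zero => exact S_comm (S_one_all _) _
  | succ j ih => exact S_comm ih _

omit [Fintype I] in
theorem lm_hk (a : I) (j : ℕ) : lm l (hk a b j) = 0 := by
  cases j with
  | zero => simp only [hk, lm_mul, lm_inv, lm_of]; ring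
  | succ j => simp only [hk, lm_mul, lm_inv, lm_of]; ring

omit [Fintype I] in
theorem tr_hk {a : I} (hab : a ≠ b) (ha : l a ≠ 0) (j : ℕ) :
    tr l b (hk a b j) (l a * (j + 1 : ℕ)) = 1 ∧ tr l b (hk a b j) (l a * (j : ℕ)) = -(j + 1 : ℤ) ∧
      ∀ i : ℕ, j + 1 < i → tr l b (hk a b j) (l a * (i : ℕ)) = 0 := by
  induction j with
  | zero =>
    have h0 : ∀ z, tr l b (hk a b 0) z = (if z = l a then 1 else 0) - if z = 0 then 1 else 0 := by
      intro z
      simp only [hk]
      rw [tr_mul, tr_mul, tr_mul, tr_inv, tr_inv, tr_of, tr_of, tr_of, tr_of]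
      simp only [hab, false_and, if_false, neg_zero, zero_add, add_zero, true_and, lm_mul, lm_inv,
        lm_of]
      have e1 : z - l a = 0 ↔ z = l a := sub_eq_zero
      have e2 : z - (l a + l b + -l a) + l b = z := by ring
      simp only [e1, e2]
      ring
    refine ⟨?_, ?_, fun i hi => ?_⟩
    · rw [h0]
      simp [ha]
    · rw [h0]
      simp [Ne.symm ha]
    · rw [h0]
      have h1 : l a * (i : ℤ) ≠ l a := by
        intro h
        have h2 : l a * ((i : ℤ) - 1) = 0 := by linarith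
        rcases mul_eq_zero.1 h2 with h3 | h3
        · exact ha h3
        · omega
      have h2 : l a * (i : ℤ) ≠ 0 := mul_ne_zero ha (by omega)
      rw [if_neg h1, if_neg h2, sub_zero]
  | succ j ih =>
    obtain ⟨h1, h2, h3⟩ := ih
    have h0 : ∀ z, tr l b (hk a b (j + 1)) z = tr l b (hk a b j) (z - l a) - tr l b (hk a b j) z := by
      intro z
      have hl := lm_hk l b a j
      have hc : lm l (FreeGroup.of a * hk a b j * (FreeGroup.of a)⁻¹) = 0 := by
        rw [lm_mul, lm_mul, lm_inv, hl]; ring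
      simp only [hk]
      rw [tr_mul_of l b hc, tr_conj l b hl, tr_inv_of l b hl, lm_of]
      ring
    refine ⟨?_, ?_, fun i hi => ?_⟩
    · rw [h0, h3 (j + 1 + 1) (by omega)]
      have e : l a * ((j + 1 + 1 : ℕ) : ℤ) - l a = l a * ((j + 1 : ℕ) : ℤ) := by push_cast; ring
      rw [e, h1]; ring
    · rw [h0, h1]
      have e : l a * ((j + 1 : ℕ) : ℤ) - l a = l a * ((j : ℕ) : ℤ) := by push_cast; ring
      rw [e, h2]; push_cast; ring
    · rw [h0, h3 i (by omega)]
      obtain ⟨i', rfl⟩ : ∃ i', i = i' + 1 := ⟨i - 1, by omega⟩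
      have e : l a * ((i' + 1 : ℕ) : ℤ) - l a = l a * ((i' : ℕ) : ℤ) := by push_cast; ring
      rw [e, h3 i' (by omega)]; ring

/-- The perturbed order is not invariant. -/
theorem PK_hk {a : I} (hab : a ≠ b) (ha : l a ≠ 0) (K : ℕ) :
    (PK l b K (l a * (K + 1 : ℕ))).pos (hk a b K) ∧
    (PK l b K (l a * (K + 1 : ℕ))).pos
      (FreeGroup.of a * hk a b K * (FreeGroup.of a)⁻¹)⁻¹ := by
  obtain ⟨h1, h2, -⟩ := tr_hk l b hab ha K
  have hl := lm_hk l b a K
  rw [PK_pos, PK_pos]
  constructor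
  · exact Or.inr ⟨hk_S a b K, Or.inl (by rw [h1]; norm_num)⟩
  · refine Or.inr ⟨S_inv (S_conj (hk_S a b K) _), Or.inl ?_⟩
    have hc : lm l (FreeGroup.of a * hk a b K * (FreeGroup.of a)⁻¹) = 0 := by
      rw [lm_mul, lm_mul, lm_inv, hl]; ring
    rw [tr_inv_of l b hc, tr_conj l b hl, lm_of]
    have e : l a * ((K + 1 : ℕ) : ℤ) - l a = l a * ((K : ℕ) : ℤ) := by push_cast; ring
    rw [e, h2]
    omega

end Pool.Agent.Lib.MP_106261_lc.Magnus
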