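import Pool.Agent.Lib.MP_106261_lc.Sides
import Pool.Agent.Lib.MP_491b55_lc.UDef

/-!
# The first-order sentence
-/

set_option autoImplicit false

open FirstOrder FirstOrder.Language

namespace Pool.Agent.Lib.MP_106261_lc

open Pool.Agent.Lib.MP_491b55_lc

/-- The language of lattice-ordered groups. -/
abbrev LL : FirstOrder.Language.{0, 0} := FirstOrder.Language.mk (fun _ => Fin 3) (fun _ => Empty)

/-- Uniformly definable terms. -/
def UFun {α : Type} (T : ∀ (M : Type) [LL.Structure M], (α → M) → M) : Prop :=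
  ∃ t : LL.Term α, ∀ (M : Type) [LL.Structure M] (v : α → M), t.realize v = T M v

section terms

variable (M : Type) [LL.Structure M]

/-- product -/
def mT (a b : M) : M := Structure.funMap (L := LL) (n := 2) (0 : Fin 3) ![a, b]
/-- inverse -/
def iT (a : M) : M := Structure.funMap (L := LL) (n := 1) (1 : Fin 3) ![a]
/-- join -/
def sT (a b : M) : M := Structure.funMap (L := LL) (n := 2) (2 : Fin 3) ![a, b]
/-- unit -/
def oT : M := Structure.funMap (L := LL) (n := 0) (0 : Fin 3) ![]

end terms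

namespace UFun

variable {α : Type}

theorem var (i : α) : UFun fun _ _ (v : α → _) => v i := ⟨Term.var i, fun M _ v => rfl⟩

theorem mul {S T : ∀ (M : Type) [LL.Structure M], (α → M) → M} (hS : UFun S) (hT : UFun T) :
    UFun fun M _ v => mT M (S M v) (T M v) := by
  obtain ⟨s, hs⟩ := hS
  obtain ⟨t, ht⟩ := hT
  refine ⟨Term.func (L := LL) (l := 2) (0 : Fin 3) ![s, t], fun M _ v => ?_⟩
  show Structure.funMap (L := LL) (n := 2) (0 : Fin 3) (fun i => ((![s, t] : Fin 2 → LL.Term α) i).realize v) = _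
  have : (fun i => ((![s, t] : Fin 2 → LL.Term α) i).realize v) = ![S M v, T M v] := by
    funext i
    fin_cases i
    · exact hs M v
    · exact ht M v
  rw [this]
  rfl

theorem sup {S T : ∀ (M : Type) [LL.Structure M], (α → M) → M} (hS : UFun S) (hT : UFun T) :
    UFun fun M _ v => sT M (S M v) (T M v) := by
  obtain ⟨s, hs⟩ := hS
  obtain ⟨t, ht⟩ := hT
  refine ⟨Term.func (L := LL) (l := 2) (2 : Fin 3) ![s, t], fun M _ v => ?_⟩
  show Structure.funMap (L := LL) (n := 2) (2 : Fin 3) (fun i => ((![s, t] : Fin 2 → LL.Term α) i).realize v) = _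
  have : (fun i => ((![s, t] : Fin 2 → LL.Term α) i).realize v) = ![S M v, T M v] := by
    funext i
    fin_cases i
    · exact hs M v
    · exact ht M v
  rw [this]
  rfl

theorem inv {S : ∀ (M : Type) [LL.Structure M], (α → M) → M} (hS : UFun S) :
    UFun fun M _ v => iT M (S M v) := by
  obtain ⟨s, hs⟩ := hS
  refine ⟨Term.func (L := LL) (l := 1) (1 : Fin 3) ![s], fun M _ v => ?_⟩
  show Structure.funMap (L := LL) (n := 1) (1 : Fin 3) (fun i => ((![s] : Fin 1 → LL.Term α) i).realize v) = _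
  have : (fun i => ((![s] : Fin 1 → LL.Term α) i).realize v) = ![S M v] := by
    funext i
    fin_cases i
    exact hs M v
  rw [this]
  rfl

theorem one : UFun (α := α) fun M _ _ => oT M := by
  refine ⟨Term.func (L := LL) (l := 0) (0 : Fin 3) ![], fun M _ v => ?_⟩
  show Structure.funMap (L := LL) (n := 0) (0 : Fin 3) (fun i => ((![] : Fin 0 → LL.Term α) i).realize v) = _
  have : (fun i => ((![] : Fin 0 → LL.Term α) i).realize v) = ![] := by
    funext i
    exact i.elim0
  rw [this]
  rfl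

theorem eq {S T : ∀ (M : Type) [LL.Structure M], (α → M) → M} (hS : UFun S) (hT : UFun T) :
    UDef LL fun M _ v => S M v = T M v := by
  obtain ⟨s, hs⟩ := hS
  obtain ⟨t, ht⟩ := hT
  refine ⟨Term.equal s t, fun M _ v => ?_⟩
  rw [Formula.realize_equal, hs, ht]

end UFun

/-- meet -/
def nT (M : Type) [LL.Structure M] (a b : M) : M := iT M (sT M (iT M a) (iT M b))

theorem UFun.inf {α : Type} {S T : ∀ (M : Type) [LL.Structure M], (α → M) → M} (hS : UFun S)
    (hT : UFun T) : UFun fun M _ v => nT M (S M v) (T M v) :=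
  UFun.inv (UFun.sup (UFun.inv hS) (UFun.inv hT))

/-- The sentence. -/
def SentL (n : ℕ) (M : Type) [LL.Structure M] : Prop :=
  ∃ s : Fin n → M, ∀ w t : M, ∃ v : Fin n × Fin 3 → M,
    (∀ p, sT M (v p) (oT M) = v p ∧
      nT M (v p) (mT M (mT M (iT M (s p.1)) (v p)) (s p.1)) = oT M) ∧
    ∀ q : M, sT M q (oT M) = q → (∀ p, nT M q (v p) = oT M) →
      nT M q (nT M (sT M w (oT M)) (sT M (iT M (mT M (mT M (iT M t) w) t)) (oT M))) = oT M

theorem uSentL (n : ℕ) : UDef LL (α := Empty) fun M _ _ => SentL n M := by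
  unfold SentL
  refine UDef.exs (UDef.all (UDef.all (UDef.exs (UDef.and (UDef.fin fun p => UDef.and
    (UFun.eq ?_ ?_) (UFun.eq ?_ ?_)) (UDef.all (UDef.imp (UFun.eq ?_ ?_) (UDef.imp
      (UDef.fin fun p => UFun.eq ?_ ?_) (UFun.eq ?_ ?_))))))))
  · exact UFun.sup (UFun.var _) UFun.one
  · exact UFun.var _
  · exact UFun.inf (UFun.var _) (UFun.mul (UFun.mul (UFun.inv (UFun.var _)) (UFun.var _)) (UFun.var _))
  · exact UFun.one
  · exact UFun.sup (UFun.var _) UFun.one
  · exact UFun.var _
  · exact UFun.inf (UFun.var _) (UFun.var _)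
  · exact UFun.one
  · exact UFun.inf (UFun.var _) (UFun.inf (UFun.sup (UFun.var _) UFun.one) (UFun.sup (UFun.inv
      (UFun.mul (UFun.mul (UFun.inv (UFun.var _)) (UFun.var _)) (UFun.var _))) UFun.one))
  · exact UFun.one

/-- The structure of a lattice-ordered group. -/
@[instance_reducible]
def lgStr (G : Type) [Group G] [Lattice G] : LL.Structure G :=
  { funMap := fun {k} (i : Fin 3) (x : Fin k → G) =>
      if i = 0 then (List.ofFn x).prod
      else if i = 1 then ((List.ofFn x).prod)⁻¹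
      else (List.ofFn x).getD 0 1 ⊔ (List.ofFn x).getD 1 1,
    RelMap := fun {k} (r : Empty) (_ : Fin k → G) => r.elim }

theorem sentL_iff (n : ℕ) (G : Type) [Group G] [Lattice G] [MulLeftMono G] [MulRightMono G] :
    @SentL n G (lgStr G) ↔ Sent n G := by
  let _ : LL.Structure G := lgStr G
  have h1 : ∀ a b : G, mT G a b = a * b := fun a b => by
    show (if (0 : Fin 3) = 0 then (List.ofFn ![a, b]).prod
      else if (0 : Fin 3) = 1 then ((List.ofFn ![a, b]).prod)⁻¹
      else (List.ofFn ![a, b]).getD 0 1 ⊔ (List.ofFn ![a, b]).getD 1 1) = a * b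
    simp
  have h2 : ∀ a : G, iT G a = a⁻¹ := fun a => by
    show (if (1 : Fin 3) = 0 then (List.ofFn ![a]).prod
      else if (1 : Fin 3) = 1 then ((List.ofFn ![a]).prod)⁻¹
      else (List.ofFn ![a]).getD 0 1 ⊔ (List.ofFn ![a]).getD 1 1) = a⁻¹
    simp
  have h3 : ∀ a b : G, sT G a b = a ⊔ b := fun a b => by
    show (if (2 : Fin 3) = 0 then (List.ofFn ![a, b]).prod
      else if (2 : Fin 3) = 1 then ((List.ofFn ![a, b]).prod)⁻¹
      else (List.ofFn ![a, b]).getD 0 1 ⊔ (List.ofFn ![a, b]).getD 1 1) = a ⊔ b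
    rw [if_neg (by decide), if_neg (by decide)]
    simp
  have h4 : oT G = (1 : G) := by
    show (if (0 : Fin 3) = 0 then (List.ofFn (![] : Fin 0 → G)).prod
      else if (0 : Fin 3) = 1 then ((List.ofFn (![] : Fin 0 → G)).prod)⁻¹
      else (List.ofFn (![] : Fin 0 → G)).getD 0 1 ⊔ (List.ofFn (![] : Fin 0 → G)).getD 1 1) = 1
    simp
  have h5 : ∀ a b : G, nT G a b = a ⊓ b := fun a b => by
    unfold nT
    rw [h2, h2, h2, h3, inv_sup, inv_inv, inv_inv]
  unfold SentL Sent
  simp only [h1, h2, h3, h4, h5, sup_eq_left]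

theorem not_equiv_of_lt {n m : ℕ} (hn : 0 < n) (hnm : n < m)
    {G : Type} [Group G] [Lattice G] [MulLeftMono G] [MulRightMono G] {ιG : Fin n → G}
    (hG : IsFreeLG ιG)
    {H : Type} [Group H] [Lattice H] [MulLeftMono H] [MulRightMono H] {ιH : Fin m → H}
    (hH : IsFreeLG ιH) :
    @FirstOrder.Language.completeTheory LL G (lgStr G) ≠
      @FirstOrder.Language.completeTheory LL H (lgStr H) := by
  intro h
  obtain ⟨φ, hφ⟩ := uSentL n
  have h1 : (φ : LL.Sentence) ∈ @FirstOrder.Language.completeTheory LL G (lgStr G) := by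
    let _ : LL.Structure G := lgStr G
    exact (hφ G default).2 ((sentL_iff n G).2 (hG.sent hn))
  rw [h] at h1
  let _ : LL.Structure H := lgStr H
  have h2 : H ⊨ (φ : LL.Sentence) := h1
  exact hH.not_sent hn hnm ((sentL_iff n H).1 ((hφ H default).1 h2))

end Pool.Agent.Lib.MP_106261_lc
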