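import Pool.Agent.Lib.MP_106261_lc.Support
import Pool.Agent.Lib.MP_106261_lc.MagnusOrd

/-!
# The distinguishing property
-/

set_option autoImplicit false

open Filter Topology

namespace Pool.Agent.Lib.MP_106261_lc

/-- The property which holds in the free lattice-ordered group of rank `n` and fails in those of
larger rank. -/
def Sent (n : ℕ) (F : Type) [Group F] [Lattice F] : Prop :=
  ∃ s : Fin n → F, ∀ w t : F, ∃ v : Fin n × Fin 3 → F,
    (∀ p, 1 ≤ v p ∧ v p ⊓ ((s p.1)⁻¹ * v p * s p.1) = 1) ∧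
    ∀ q : F, 1 ≤ q → (∀ p, q ⊓ v p = 1) → q ⊓ ((w ⊔ 1) ⊓ ((t⁻¹ * w * t)⁻¹ ⊔ 1)) = 1

namespace IsFreeLG

open LOrd

variable {n : ℕ} {F : Type} [Group F] [Lattice F] [MulLeftMono F] [MulRightMono F]
  {ι : Fin n → F} (hF : IsFreeLG ι)

theorem eq_one (f : F) (h : ∀ x, hF.ev x f = 1) : f = 1 := hF.eq_one_of_ev Magnus.P0 f h

theorem inf_eq_one {f f' : F} (hf : 1 ≤ f) (hf' : 1 ≤ f')
    (h : ∀ x, hF.ev x f ≠ 1 → hF.ev x f' = 1) : f ⊓ f' = 1 := by
  apply hF.eq_one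
  intro x
  by_contra h1
  obtain ⟨h2, h3⟩ := (hF.ev_inf_ne x hf hf').1 h1
  exact h3 (h x h2)

theorem one_le_conj {v : F} (hv : 1 ≤ v) (s : F) : 1 ≤ s⁻¹ * v * s := by
  have h1 : s⁻¹ * 1 * s ≤ s⁻¹ * v * s := mul_le_mul_left (mul_le_mul_right hv s⁻¹) s
  rwa [mul_one, inv_mul_cancel] at h1

include hF in
/-- The free lattice-ordered group of rank `n` has the property. -/
theorem sent (hn : 0 < n) : Sent n F := by
  classical
  refine ⟨ι, fun w t => ?_⟩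
  let v₀ : F := (w ⊔ 1) ⊓ ((t⁻¹ * w * t)⁻¹ ⊔ 1)
  have hv₀ : (1 : F) ≤ v₀ := le_inf le_sup_right le_sup_right
  let V : Set (LOrd (FreeGroup (Fin n))) := {x | hF.ev x v₀ ≠ 1}
  have hV : IsClopen V := (hF.lc_ev v₀).isClopen fun a => a ≠ 1
  obtain ⟨c, hc1, hc2⟩ := exists_colouring (fun i : Fin n => FreeGroup.of i) V hV.isClosed (by
    intro x hx
    by_contra hcon
    push Not at hcon
    have hfix : ∀ g : FreeGroup (Fin n), g • x = x := by
      intro g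
      refine FreeGroup.induction_on g (one_smul _ x) hcon ?_ ?_
      · intro i hi
        rw [inv_smul_eq_iff]
        exact hi.symm
      · intro g g' h h'
        rw [mul_smul, h', h]
    have hx' : hF.ev x v₀ ≠ 1 := hx
    rw [hF.ev_inf_ne x le_sup_right le_sup_right, ev_sup_one_ne, ev_sup_one_ne] at hx'
    obtain ⟨h1, h2⟩ := hx'
    have hmul : ∀ f f' : F, hF.ev x (f * f') = hF.ev x f * hF.ev x f' := fun f f' => by
      rw [ev_mul, hfix]
    have hinv : ∀ f : F, hF.ev x f⁻¹ = (hF.ev x f)⁻¹ := fun f => by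
      have h3 : hF.ev x f⁻¹ * hF.ev x f = 1 := by
        rw [← hmul, inv_mul_cancel, ev_one]
      exact eq_inv_of_mul_eq_one_left h3
    rw [hinv, hmul, hmul, hinv] at h2
    have h3 : x.pos ((hF.ev x t)⁻¹ * (hF.ev x w)⁻¹ * hF.ev x t) := by
      have e : (hF.ev x t)⁻¹ * (hF.ev x w)⁻¹ * hF.ev x t =
        ((hF.ev x t)⁻¹ * hF.ev x w * hF.ev x t)⁻¹ := by group
      rw [e]
      exact h2
    rw [← LOrd.smul_pos, hfix] at h3
    exact x.pos_asymm h1 h3)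
  have hcl : ∀ p : Fin n × Fin 3, IsClopen {x | c p.1 x = some p.2} := fun p =>
    (hc1 p.1).lc.isClopen fun o => o = some p.2
  choose v hv1 hv2 using fun p : Fin n × Fin 3 => hF.exists_supp hn _ (hcl p)
  refine ⟨v, fun p => ⟨hv1 p, ?_⟩, fun q hq hqv => ?_⟩
  · refine hF.inf_eq_one (hv1 p) (one_le_conj (hv1 p) _) fun x hx => ?_
    rw [hv2] at hx
    rw [ev_conj, ev_gen]
    by_contra h
    rw [← ne_eq, hv2] at h
    exact (hc1 p.1).moved x p.2 hx h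
  · refine hF.inf_eq_one hq hv₀ fun x hx => ?_
    by_contra h
    obtain ⟨i, hi⟩ := hc2 x h
    obtain ⟨j, hj⟩ := Option.ne_none_iff_exists'.1 hi
    have h1 : hF.ev x (v (i, j)) ≠ 1 := (hv2 (i, j) x).2 hj
    have h2 : hF.ev x (q ⊓ v (i, j)) ≠ 1 := (hF.ev_inf_ne x hq (hv1 _)).2 ⟨hx, h1⟩
    rw [hqv (i, j), ev_one] at h2
    exact h2 rfl

end IsFreeLG

open Magnus

theorem lm_eq {I : Type} [Fintype I] [DecidableEq I] (l : I → ℤ) (w : FreeGroup I) :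
    lm l w = ∑ a : I, lm (Pi.single a 1) w * l a := by
  refine FreeGroup.induction_on w ?_ ?_ ?_ ?_
  · simp [lm_one]
  · intro i
    simp [lm_of, Pi.single_apply]
  · intro i h
    rw [lm_inv, h, ← Finset.sum_neg_distrib]
    refine Finset.sum_congr rfl fun a _ => ?_
    rw [lm_inv]
    ring
  · intro w w' h h'
    rw [lm_mul, h, h', ← Finset.sum_add_distrib]
    refine Finset.sum_congr rfl fun a _ => ?_
    rw [lm_mul]
    ring

theorem exists_weight {n m : ℕ} (hn : 0 < n) (hnm : n < m) (w : Fin n → FreeGroup (Fin m)) :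
    ∃ l : Fin m → ℤ, l ≠ 0 ∧ ∀ i, lm l (w i) = 0 := by
  obtain ⟨l, hl, h, -⟩ := Int.Matrix.exists_ne_zero_int_vec_norm_le
    (Matrix.of fun (i : Fin n) (a : Fin m) => lm (Pi.single a 1) (w i))
    (by simpa using hnm) (by simpa using hn)
  refine ⟨l, hl, fun i => ?_⟩
  rw [lm_eq]
  have := congrFun h i
  simpa [Matrix.mulVec, dotProduct] using this

open LOrd in
/-- The free lattice-ordered groups of rank `m > n` do not have the property. -/
theorem IsFreeLG.not_sent {n m : ℕ} (hn : 0 < n) (hnm : n < m) {F : Type} [Group F] [Lattice F]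
    [MulLeftMono F] [MulRightMono F] {ι : Fin m → F} (hF : IsFreeLG ι) : ¬ Sent n F := by
  classical
  rintro ⟨s, hs⟩
  let x₀ : LOrd (FreeGroup (Fin m)) := P0
  obtain ⟨l, hl, hlw⟩ := exists_weight hn hnm fun i => hF.ev x₀ (s i)
  obtain ⟨a, ha⟩ : ∃ a, l a ≠ 0 := by
    by_contra h
    push Not at h
    exact hl (funext h)
  obtain ⟨b, hab⟩ : ∃ b : Fin m, a ≠ b := by
    have : Nontrivial (Fin m) := Fin.nontrivial_iff_two_le.2 (by omega)
    obtain ⟨b, hb⟩ := exists_ne a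
    exact ⟨b, hb.symm⟩
  have hev : ∀ᶠ x in 𝓝 x₀, ∀ i, hF.ev x (s i) = hF.ev x₀ (s i) :=
    eventually_all.2 fun i => hF.eventually_ev (s i) x₀
  obtain ⟨K, hK⟩ := ((PK_tendsto l b fun K => l a * (K + 1 : ℕ)).eventually hev).exists
  let x : LOrd (FreeGroup (Fin m)) := PK l b K (l a * (K + 1 : ℕ))
  have hK' : ∀ i, hF.ev x (s i) = hF.ev x₀ (s i) := hK
  obtain ⟨hp1, hp2⟩ := PK_hk l b hab ha K
  let w : F := IsFreeLG.emb ι (hk a b K)
  let t : F := IsFreeLG.emb ι (FreeGroup.of a)⁻¹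
  obtain ⟨v, hv1, hv2⟩ := hs w t
  have hv₀ : hF.ev x ((w ⊔ 1) ⊓ ((t⁻¹ * w * t)⁻¹ ⊔ 1)) ≠ 1 := by
    rw [hF.ev_inf_ne x le_sup_right le_sup_right, IsFreeLG.ev_sup_one_ne, IsFreeLG.ev_sup_one_ne]
    constructor
    · rw [IsFreeLG.ev_emb]
      exact hp1
    · have e : (t⁻¹ * w * t)⁻¹ =
          IsFreeLG.emb ι (FreeGroup.of a * hk a b K * (FreeGroup.of a)⁻¹)⁻¹ := by
        show ((IsFreeLG.emb ι (FreeGroup.of a)⁻¹)⁻¹ * IsFreeLG.emb ι (hk a b K) *
          IsFreeLG.emb ι (FreeGroup.of a)⁻¹)⁻¹ = _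
        rw [← map_inv, ← map_mul, ← map_mul, ← map_inv, inv_inv]
      rw [e, IsFreeLG.ev_emb]
      exact hp2
  have hex : ∃ p, hF.ev x (v p) ≠ 1 := by
    by_contra hcon
    push Not at hcon
    let V : Set (LOrd (FreeGroup (Fin m))) := {y | ∀ p, hF.ev y (v p) = 1}
    have hV : IsClopen V := by
      have : V = ⋂ p, {y | hF.ev y (v p) = 1} := by
        ext y
        simp [V]
      rw [this]
      exact isClopen_iInter_of_finite fun p => (hF.lc_ev (v p)).isClopen fun c => c = 1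
    obtain ⟨q, hq1, hq2⟩ := hF.exists_supp (hn.trans hnm) V hV
    have h1 := hv2 q hq1 fun p => hF.inf_eq_one hq1 (hv1 p).1 fun y hy => (hq2 y).1 hy p
    have h2 : hF.ev x (q ⊓ ((w ⊔ 1) ⊓ ((t⁻¹ * w * t)⁻¹ ⊔ 1))) ≠ 1 :=
      (hF.ev_inf_ne x hq1 (le_inf le_sup_right le_sup_right)).2 ⟨(hq2 x).2 hcon, hv₀⟩
    rw [h1, IsFreeLG.ev_one] at h2
    exact h2 rfl
  obtain ⟨p, hp⟩ := hex
  have h1 : hF.ev x ((s p.1)⁻¹ * v p * s p.1) ≠ 1 := by
    intro h
    rw [IsFreeLG.ev_conj, hK', PK_smul l b K _ (hlw p.1)] at h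
    exact hp h
  have h2 : hF.ev x (v p ⊓ ((s p.1)⁻¹ * v p * s p.1)) ≠ 1 :=
    (hF.ev_inf_ne x (hv1 p).1 (IsFreeLG.one_le_conj (hv1 p).1 _)).2 ⟨hp, h1⟩
  rw [(hv1 p).2, IsFreeLG.ev_one] at h2
  exact h2 rfl

end Pool.Agent.Lib.MP_106261_lc
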