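import Pool.Agent.Lib.MP_106261_lc.Eval

/-!
# Supports and the colouring lemma
-/

set_option autoImplicit false

open Filter Topology

namespace Pool.Agent.Lib.MP_106261_lc

namespace LOrd

variable {G : Type} [Group G] (x : LOrd G)

/-- The minimum of two elements. -/
noncomputable def mn (a b : G) : G := min (α := Ch x) a b

theorem mn_eq_left {a b : G} (h : x.le a b) : x.mn a b = a :=
  min_eq_left (α := Ch x) (a := a) (b := b) h

theorem mn_eq_right {a b : G} (h : x.le b a) : x.mn a b = b :=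
  min_eq_right (α := Ch x) (a := a) (b := b) h

theorem one_le_iff {a : G} : x.le 1 a ↔ a = 1 ∨ x.pos a := by
  unfold le
  rw [inv_one, one_mul, eq_comm]

theorem ne_of_pos {a : G} (h : x.pos a) : a ≠ 1 := by
  rintro rfl
  exact x.not_pos_one h

theorem mn_ne_one {a b : G} (ha : x.le 1 a) (hb : x.le 1 b) :
    x.mn a b ≠ 1 ↔ a ≠ 1 ∧ b ≠ 1 := by
  rcases x.le_total a b with h | h
  · rw [x.mn_eq_left h]
    refine ⟨fun h1 => ⟨h1, ?_⟩, fun h1 => h1.1⟩
    rintro rfl
    exact h1 (x.le_antisymm h ha)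
  · rw [x.mn_eq_right h]
    refine ⟨fun h1 => ⟨?_, h1⟩, fun h1 => h1.2⟩
    rintro rfl
    exact h1 (x.le_antisymm h hb)

theorem mx_ne_one {a b : G} (ha : x.le 1 a) (hb : x.le 1 b) :
    x.mx a b ≠ 1 ↔ a ≠ 1 ∨ b ≠ 1 := by
  rcases x.le_total a b with h | h
  · rw [x.mx_eq_right h]
    refine ⟨Or.inr, ?_⟩
    rintro (h1 | h1)
    · rintro rfl
      exact h1 (x.le_antisymm h ha)
    · exact h1
  · rw [x.mx_eq_left h]
    refine ⟨Or.inl, ?_⟩
    rintro (h1 | h1)
    · exact h1
    · rintro rfl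
      exact h1 (x.le_antisymm h hb)

theorem mx_one_ne_one {a : G} : x.mx a 1 ≠ 1 ↔ x.pos a := by
  rcases x.le_total a 1 with h | h
  · rw [x.mx_eq_right h]
    refine iff_of_false (fun h => h rfl) fun h1 => ?_
    rcases h with rfl | h
    · exact x.not_pos_one h1
    · rw [mul_one] at h
      exact x.pos_asymm h1 h
  · rw [x.mx_eq_left h]
    rw [one_le_iff] at h
    refine ⟨fun h1 => h.resolve_left h1, x.ne_of_pos⟩

theorem le_mx_right {a b : G} : x.le b (x.mx a b) := by
  rcases x.le_total a b with h | h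
  · rw [x.mx_eq_right h]; exact x.le_refl _
  · rw [x.mx_eq_left h]; exact h

/-- Locally constant functions. -/
def LC {X Y : Type} [TopologicalSpace X] (c : X → Y) : Prop := ∀ x, ∀ᶠ y in 𝓝 x, c y = c x

theorem LC.isClopen {X Y : Type} [TopologicalSpace X] {c : X → Y} (hc : LC c) (P : Y → Prop) :
    IsClopen {x | P (c x)} := by
  have key : ∀ P : Y → Prop, IsOpen {x | P (c x)} := by
    intro P
    rw [isOpen_iff_mem_nhds]
    intro x hx
    filter_upwards [hc x] with y hy
    show P (c y)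
    rw [hy]
    exact hx
  refine ⟨⟨?_⟩, key P⟩
  exact key fun y => ¬ P y

/-- A good partial colouring. -/
structure Good (g : G) (c : LOrd G → Option (Fin 3)) : Prop where
  lc : LC c
  moved : ∀ x j, c x = some j → c (g • x) ≠ some j

theorem exists_free (a b : Option (Fin 3)) : ∃ j : Fin 3, some j ≠ a ∧ some j ≠ b := by
  revert a b
  decide

theorem Good.extend {g : G} {c : LOrd G → Option (Fin 3)} (hc : Good g c) (A : Set (LOrd G))
    (hA : LC fun x => x ∈ A) (hAm : ∀ x ∈ A, g • x ∉ A) :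
    ∃ c' : LOrd G → Option (Fin 3), Good g c' ∧ (∀ x, c x ≠ none → c' x ≠ none) ∧
      ∀ x ∈ A, c' x ≠ none := by
  classical
  choose fr hfr using exists_free
  let c' : LOrd G → Option (Fin 3) := fun x => if c x ≠ none then c x else
    if x ∈ A then some (fr (c (g • x)) (c (g⁻¹ • x))) else none
  have h1 : ∀ x, c x ≠ none → c' x = c x := fun x hx => if_pos hx
  have h2 : ∀ x, c x = none → x ∈ A → c' x = some (fr (c (g • x)) (c (g⁻¹ • x))) := by
    intro x hx hxA
    show (if c x ≠ none then c x else _) = _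
    rw [if_neg (not_not.2 hx), if_pos hxA]
  have h3 : ∀ x, c x = none → x ∉ A → c' x = none := by
    intro x hx hxA
    show (if c x ≠ none then c x else _) = _
    rw [if_neg (not_not.2 hx), if_neg hxA]
  refine ⟨c', ⟨?_, ?_⟩, fun x hx => by rw [h1 x hx]; exact hx, fun x hx => ?_⟩
  · intro x
    have e1 := (continuous_smul' g).continuousAt.eventually (hc.lc (g • x))
    have e2 := (continuous_smul' g⁻¹).continuousAt.eventually (hc.lc (g⁻¹ • x))
    filter_upwards [hc.lc x, hA x, e1, e2] with y hy1 hy2 hy3 hy4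
    show (if c y ≠ none then c y else if y ∈ A then some (fr (c (g • y)) (c (g⁻¹ • y))) else none) =
      (if c x ≠ none then c x else if x ∈ A then some (fr (c (g • x)) (c (g⁻¹ • x))) else none)
    rw [hy1, hy3, hy4]
    have hy2' : (y ∈ A) = (x ∈ A) := hy2
    simp only [hy2']
  · intro x j hx hgx
    by_cases hcx : c x = none
    · by_cases hxA : x ∈ A
      · rw [h2 x hcx hxA] at hx
        have hgA := hAm x hxA
        by_cases hcgx : c (g • x) = none
        · rw [h3 _ hcgx hgA] at hgx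
          cases hgx
        · rw [h1 _ hcgx] at hgx
          have := (hfr (c (g • x)) (c (g⁻¹ • x))).1
          rw [hx, hgx] at this
          exact this rfl
      · rw [h3 x hcx hxA] at hx
        cases hx
    · rw [h1 x hcx] at hx
      by_cases hcgx : c (g • x) = none
      · by_cases hgA : g • x ∈ A
        · rw [h2 _ hcgx hgA] at hgx
          have := (hfr (c (g • g • x)) (c (g⁻¹ • g • x))).2
          rw [hgx, inv_smul_smul, hx] at this
          exact this rfl
        · rw [h3 _ hcgx hgA] at hgx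
          cases hgx
      · rw [h1 _ hcgx] at hgx
        exact hc.moved x j hx hgx
  · by_cases hcx : c x = none
    · rw [h2 x hcx hx]
      simp
    · rw [h1 x hcx]
      exact hcx

theorem Good.merge {g : G} {c c' : LOrd G → Option (Fin 3)} (hc : Good g c) (hc' : Good g c') :
    ∃ c'' : LOrd G → Option (Fin 3), Good g c'' ∧ (∀ x, c x ≠ none → c'' x ≠ none) ∧
      ∀ x, c' x ≠ none → c'' x ≠ none := by
  have hA : ∀ j : Fin 3, LC fun x => x ∈ {x : LOrd G | c' x = some j} := by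
    intro j x
    filter_upwards [hc'.lc x] with y hy
    show (c' y = some j) = (c' x = some j)
    rw [hy]
  obtain ⟨c0, g0, h01, h02⟩ := hc.extend {x | c' x = some 0} (hA 0) fun x hx => hc'.moved x 0 hx
  obtain ⟨c1, g1, h11, h12⟩ := g0.extend {x | c' x = some 1} (hA 1) fun x hx => hc'.moved x 1 hx
  obtain ⟨c2, g2, h21, h22⟩ := g1.extend {x | c' x = some 2} (hA 2) fun x hx => hc'.moved x 2 hx
  refine ⟨c2, g2, fun x hx => h21 x (h11 x (h01 x hx)), fun x hx => ?_⟩
  rcases hj : c' x with _ | j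
  · exact absurd hj hx
  · fin_cases j
    · exact h21 x (h11 x (h02 x hj))
    · exact h21 x (h12 x hj)
    · exact h22 x hj

theorem good_none (g : G) : Good g fun _ => none :=
  ⟨fun _ => Eventually.of_forall fun _ => rfl, fun x j h => by cases h⟩

/-- Sets without common fixed points are covered by good colourings. -/
theorem exists_colouring {I : Type} [DecidableEq I] (g : I → G) (V : Set (LOrd G))
    (hV : IsClosed V) (hmove : ∀ x ∈ V, ∃ i, g i • x ≠ x) :
    ∃ c : I → LOrd G → Option (Fin 3), (∀ i, Good (g i) (c i)) ∧ ∀ x ∈ V, ∃ i, c i x ≠ none := by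
  classical
  refine hV.isCompact.induction_on (p := fun s => ∃ c : I → LOrd G → Option (Fin 3),
    (∀ i, Good (g i) (c i)) ∧ ∀ x ∈ s, ∃ i, c i x ≠ none) ?_ ?_ ?_ ?_
  · exact ⟨fun _ _ => none, fun i => good_none _, fun x hx => absurd hx (Set.notMem_empty x)⟩
  · rintro s t hst ⟨c, h1, h2⟩
    exact ⟨c, h1, fun x hx => h2 x (hst hx)⟩
  · rintro s t ⟨c, h1, h2⟩ ⟨c', h1', h2'⟩
    choose c'' h3 h4 h5 using fun i => (h1 i).merge (h1' i)
    refine ⟨c'', h3, fun x hx => ?_⟩
    rcases hx with hx | hx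
    · obtain ⟨i, hi⟩ := h2 x hx
      exact ⟨i, h4 i x hi⟩
    · obtain ⟨i, hi⟩ := h2' x hx
      exact ⟨i, h5 i x hi⟩
  · intro x hx
    obtain ⟨i, hi⟩ := hmove x hx
    have hu : ∃ u, ¬ (x.pos u ↔ (g i • x).pos u) := by
      by_contra h
      push Not at h
      exact hi (ext' h).symm
    obtain ⟨u, hu⟩ := hu
    let A : Set (LOrd G) := {y | (y.pos u ↔ x.pos u) ∧ ((g i • y).pos u ↔ (g i • x).pos u)}
    have hlc : ∀ z : LOrd G, ∀ᶠ y in 𝓝 z, (y.pos u ↔ z.pos u) := by
      intro z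
      by_cases hz : z.pos u
      · have : ∀ᶠ y in 𝓝 z, y.pos u := (isClopen_pos u).isOpen.mem_nhds hz
        exact this.mono fun y hy => iff_of_true hy hz
      · have : ∀ᶠ y in 𝓝 z, ¬ y.pos u := (isClopen_pos u).compl.isOpen.mem_nhds hz
        exact this.mono fun y hy => iff_of_false hy hz
    have hA : LC fun y => y ∈ A := by
      intro z
      have e1 := (continuous_smul' (g i)).continuousAt.eventually (hlc (g i • z))
      filter_upwards [hlc z, e1] with y hy1 hy2
      show ((y.pos u ↔ x.pos u) ∧ ((g i • y).pos u ↔ (g i • x).pos u)) =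
        ((z.pos u ↔ x.pos u) ∧ ((g i • z).pos u ↔ (g i • x).pos u))
      rw [hy1, hy2]
    have hAm : ∀ y ∈ A, g i • y ∉ A := by
      rintro y ⟨hy1, hy2⟩ ⟨hy3, -⟩
      exact hu (hy3.symm.trans hy2)
    obtain ⟨c, hc1, -, hc3⟩ := (good_none (g i)).extend A hA hAm
    refine ⟨A, mem_nhdsWithin_of_mem_nhds ?_, Function.update (fun _ _ => none) i c, fun k => ?_,
      fun y hy => ⟨i, ?_⟩⟩
    · have := hA x
      filter_upwards [this] with y hy
      have hy' : (y ∈ A) = (x ∈ A) := hy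
      rw [hy']
      exact ⟨Iff.rfl, Iff.rfl⟩
    · by_cases hk : k = i
      · subst hk
        rw [Function.update_self]
        exact hc1
      · rw [Function.update_of_ne hk]
        exact good_none _
    · rw [Function.update_self]
      exact hc3 y hy

end LOrd

namespace IsFreeLG

open LOrd

variable {n : ℕ} {F : Type} [Group F] [Lattice F] [MulLeftMono F] [MulRightMono F]
  {ι : Fin n → F} (hF : IsFreeLG ι)

theorem psi_inf (x : LOrd (FreeGroup (Fin n))) (a b : F) :
    hF.psi x (a ⊓ b) = hF.psi x a ⊓ hF.psi x b :=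
  (hF (LAut x.Ch) fun i => x.lmul (FreeGroup.of i)).exists.choose_spec.2.1 a b

variable (x : LOrd (FreeGroup (Fin n)))

theorem ev_inf (f f' : F) : hF.ev x (f ⊓ f') = x.mn (hF.ev x f) (hF.ev x f') := by
  unfold ev act
  rw [psi_inf]
  rfl

theorem one_le_ev {f : F} (hf : 1 ≤ f) : x.le 1 (hF.ev x f) := by
  have h := hF.ev_sup x f 1
  rw [sup_eq_left.2 hf, ev_one] at h
  rw [h]
  exact x.le_mx_right

theorem ev_inf_ne {f f' : F} (hf : 1 ≤ f) (hf' : 1 ≤ f') :
    hF.ev x (f ⊓ f') ≠ 1 ↔ hF.ev x f ≠ 1 ∧ hF.ev x f' ≠ 1 := by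
  rw [ev_inf]
  exact x.mn_ne_one (hF.one_le_ev x hf) (hF.one_le_ev x hf')

theorem ev_sup_ne {f f' : F} (hf : 1 ≤ f) (hf' : 1 ≤ f') :
    hF.ev x (f ⊔ f') ≠ 1 ↔ hF.ev x f ≠ 1 ∨ hF.ev x f' ≠ 1 := by
  rw [ev_sup]
  exact x.mx_ne_one (hF.one_le_ev x hf) (hF.one_le_ev x hf')

theorem ev_sup_one_ne (f : F) : hF.ev x (f ⊔ 1) ≠ 1 ↔ x.pos (hF.ev x f) := by
  rw [ev_sup, ev_one]
  exact x.mx_one_ne_one

theorem ev_conj (s v : F) : hF.ev x (s⁻¹ * v * s) = 1 ↔ hF.ev (hF.ev x s • x) v = 1 := by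
  have h1 : hF.ev x (s⁻¹ * v * s) = hF.act x s⁻¹ (hF.ev (hF.ev x s • x) v * hF.ev x s) := by
    unfold ev
    rw [act_mul, act_mul, act_eq hF x v]
    rfl
  rw [h1]
  constructor
  · intro h
    have h2 := hF.act_act_inv x s (hF.ev (hF.ev x s • x) v * hF.ev x s)
    rw [h] at h2
    have h3 : hF.ev x s = hF.ev (hF.ev x s • x) v * hF.ev x s := h2
    exact (mul_eq_right.1 h3.symm)
  · intro h
    rw [h, one_mul]
    exact hF.act_inv_act x s 1

theorem lc_ev (f : F) : LC fun x => hF.ev x f := fun x => hF.eventually_ev f x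

/-- The supports of the positive elements are exactly the clopen sets. -/
theorem exists_supp (hn : 0 < n) (V : Set (LOrd (FreeGroup (Fin n)))) (hV : IsClopen V) :
    ∃ q : F, 1 ≤ q ∧ ∀ x, hF.ev x q ≠ 1 ↔ x ∈ V := by
  classical
  let P : Set (LOrd (FreeGroup (Fin n))) → Prop := fun B => ∃ q : F, 1 ≤ q ∧ ∀ x, hF.ev x q ≠ 1 ↔ x ∈ B
  have hpos : ∀ u : FreeGroup (Fin n), P {x | x.pos u} := fun u =>
    ⟨emb ι u ⊔ 1, le_sup_right, fun x => by rw [ev_sup_one_ne, ev_emb]; rfl⟩
  have hinter : ∀ A B, P A → P B → P (A ∩ B) := by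
    rintro A B ⟨q, h1, h2⟩ ⟨q', h1', h2'⟩
    exact ⟨q ⊓ q', le_inf h1 h1', fun x => by rw [ev_inf_ne hF x h1 h1', h2, h2']; rfl⟩
  have hunion : ∀ A B, P A → P B → P (A ∪ B) := by
    rintro A B ⟨q, h1, h2⟩ ⟨q', h1', h2'⟩
    exact ⟨q ⊔ q', h1.trans le_sup_left, fun x => by rw [ev_sup_ne hF x h1 h1', h2, h2']; rfl⟩
  have hempty : P ∅ := ⟨1, le_rfl, fun x => by rw [ev_one]; simp⟩
  have huniv : P Set.univ := by
    have h := hunion _ _ (hpos (FreeGroup.of ⟨0, hn⟩)) (hpos (FreeGroup.of ⟨0, hn⟩)⁻¹)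
    convert h using 1
    ext x
    simp only [Set.mem_univ, Set.mem_union, true_iff]
    exact x.pos_or (FreeGroup.of_ne_one _)
  have hnpos : ∀ u : FreeGroup (Fin n), P {x | ¬ x.pos u} := by
    intro u
    by_cases hu : u = 1
    · convert huniv using 1
      ext x
      simp only [Set.mem_univ, iff_true, Set.mem_ofPred_eq, hu]
      exact x.not_pos_one
    · convert hpos u⁻¹ using 1
      ext x
      simp only [Set.mem_ofPred_eq]
      exact ⟨fun h => (x.pos_or hu).resolve_left h, fun h h' => x.pos_asymm h' h⟩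
  have hfin : ∀ (x : LOrd (FreeGroup (Fin n))) (T : Finset (FreeGroup (Fin n))),
      P {y | ∀ u ∈ T, (y.pos u ↔ x.pos u)} := by
    intro x T
    induction T using Finset.induction_on with
    | empty =>
      convert huniv using 1
      ext y
      simp
    | insert u T hu ih =>
      have h1 : P {y | y.pos u ↔ x.pos u} := by
        by_cases hx : x.pos u
        · convert hpos u using 1
          ext y
          simp [hx]
        · convert hnpos u using 1
          ext y
          simp [hx]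
      convert hinter _ _ h1 ih using 1
      ext y
      simp only [Set.mem_ofPred_eq, Finset.mem_insert, forall_eq_or_imp, Set.mem_inter_iff]
  have hnb : ∀ x ∈ V, ∃ T : Finset (FreeGroup (Fin n)), ∀ y : LOrd (FreeGroup (Fin n)),
      (∀ u ∈ T, (y.pos u ↔ x.pos u)) → y ∈ V := by
    intro x hx
    obtain ⟨O, hO, hOV⟩ := isOpen_induced_iff.1 hV.isOpen
    have hmem : ∀ y : LOrd (FreeGroup (Fin n)), y.1 ∈ O ↔ y ∈ V := fun y => Set.ext_iff.1 hOV y
    have hxO : x.1 ∈ O := (hmem x).2 hx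
    obtain ⟨T, U, hU, hTU⟩ := isOpen_pi_iff.1 hO x.1 hxO
    refine ⟨T, fun y hy => ?_⟩
    have : y.1 ∈ O := by
      apply hTU
      intro u hu
      have h1 := hy u hu
      have h2 : y.1 u = x.1 u := by
        unfold LOrd.pos at h1
        cases hx : x.1 u <;> cases hy : y.1 u <;> simp_all
      rw [h2]
      exact (hU u hu).2
    exact (hmem y).1 this
  obtain ⟨B, hB, hVB, hBV⟩ : ∃ B, P B ∧ V ⊆ B ∧ B ⊆ V := by
    refine hV.isClosed.isCompact.induction_on (p := fun s => ∃ B, P B ∧ s ⊆ B ∧ B ⊆ V) ?_ ?_ ?_ ?_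
    · exact ⟨∅, hempty, Set.empty_subset _, Set.empty_subset _⟩
    · rintro s t hst ⟨B, h1, h2, h3⟩
      exact ⟨B, h1, hst.trans h2, h3⟩
    · rintro s t ⟨B, h1, h2, h3⟩ ⟨B', h1', h2', h3'⟩
      exact ⟨B ∪ B', hunion _ _ h1 h1', Set.union_subset_union h2 h2', Set.union_subset h3 h3'⟩
    · intro x hx
      obtain ⟨T, hT⟩ := hnb x hx
      refine ⟨{y | ∀ u ∈ T, (y.pos u ↔ x.pos u)}, mem_nhdsWithin_of_mem_nhds ?_,
        {y | ∀ u ∈ T, (y.pos u ↔ x.pos u)}, hfin x T, subset_rfl, hT⟩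
      obtain ⟨q, hq1, hq2⟩ := hfin x T
      have := (hF.lc_ev q).isClopen fun a => a ≠ 1
      have h1 : {y | hF.ev y q ≠ 1} = {y | ∀ u ∈ T, (y.pos u ↔ x.pos u)} := by
        ext y
        exact hq2 y
      rw [h1] at this
      exact this.isOpen.mem_nhds fun u _ => Iff.rfl
  obtain rfl : V = B := Set.Subset.antisymm hVB hBV
  exact hB

end IsFreeLG

end Pool.Agent.Lib.MP_106261_lc
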