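import Pool.Agent.Lib.MP_106261_lc.Abel

/-!
# The distinguishing sentence is a first-order sentence
-/

set_option autoImplicit false

namespace Pool.Agent.Lib.MP_106261_lc

open Classical FirstOrder

/-- the language of the frozen statement -/
abbrev LL : FirstOrder.Language := FirstOrder.Language.mk (fun _ => Fin 3) (fun _ => Empty)

/-- the structure of the frozen statement -/
abbrev str (M : Type) [Group M] [Lattice M] : LL.Structure M :=
  { funMap := fun {k} (i : Fin 3) (x : Fin k → M) =>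
      if i = 0 then (List.ofFn x).prod
      else if i = 1 then ((List.ofFn x).prod)⁻¹
      else (List.ofFn x).getD 0 1 ⊔ (List.ofFn x).getD 1 1,
    RelMap := fun {k} (r : Empty) (_ : Fin k → M) => r.elim }

/-- uniformly term-definable functions -/
def UTerm (α : Type) (f : ∀ (M : Type) [Group M] [Lattice M] [MulLeftMono M] [MulRightMono M],
    (α → M) → M) : Prop :=
  ∃ t : LL.Term α, ∀ (M : Type) [Group M] [Lattice M] [MulLeftMono M] [MulRightMono M]
    (v : α → M), @Language.Term.realize LL M (str M) α v t = f M v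

/-- uniformly definable predicates -/
def UDef (α : Type) (p : ∀ (M : Type) [Group M] [Lattice M] [MulLeftMono M] [MulRightMono M],
    (α → M) → Prop) : Prop :=
  ∃ φ : LL.Formula α, ∀ (M : Type) [Group M] [Lattice M] [MulLeftMono M] [MulRightMono M]
    (v : α → M), @Language.Formula.Realize LL M (str M) α φ v ↔ p M v

variable {α : Type}

theorem UTerm.var (a : α) : UTerm α (fun _ _ _ _ _ v => v a) :=
  ⟨Language.Term.var a, fun _ _ _ _ _ _ => rfl⟩

theorem UTerm.one : UTerm α (fun _ _ _ _ _ _ => 1) :=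
  ⟨Language.Term.func (L := LL) (l := 0) (0 : Fin 3) Fin.elim0, fun M _ _ _ _ v => by
    simp [Language.Term.realize, Language.Structure.funMap]⟩

theorem UTerm.mul {f g : ∀ (M : Type) [Group M] [Lattice M] [MulLeftMono M] [MulRightMono M],
    (α → M) → M} (hf : UTerm α f) (hg : UTerm α g) :
    UTerm α (fun M _ _ _ _ v => f M v * g M v) := by
  obtain ⟨s, hs⟩ := hf
  obtain ⟨t, ht⟩ := hg
  refine ⟨Language.Term.func (L := LL) (l := 2) (0 : Fin 3) ![s, t], fun M _ _ _ _ v => ?_⟩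
  simp [Language.Term.realize, Language.Structure.funMap, hs, ht]

theorem UTerm.inv {f : ∀ (M : Type) [Group M] [Lattice M] [MulLeftMono M] [MulRightMono M],
    (α → M) → M} (hf : UTerm α f) :
    UTerm α (fun M _ _ _ _ v => (f M v)⁻¹) := by
  obtain ⟨s, hs⟩ := hf
  refine ⟨Language.Term.func (L := LL) (l := 1) (1 : Fin 3) ![s], fun M _ _ _ _ v => ?_⟩
  simp [Language.Term.realize, Language.Structure.funMap, hs]

theorem UTerm.sup {f g : ∀ (M : Type) [Group M] [Lattice M] [MulLeftMono M] [MulRightMono M],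
    (α → M) → M} (hf : UTerm α f) (hg : UTerm α g) :
    UTerm α (fun M _ _ _ _ v => f M v ⊔ g M v) := by
  obtain ⟨s, hs⟩ := hf
  obtain ⟨t, ht⟩ := hg
  refine ⟨Language.Term.func (L := LL) (l := 2) (2 : Fin 3) ![s, t], fun M _ _ _ _ v => ?_⟩
  simp [Language.Term.realize, Language.Structure.funMap, hs, ht]

theorem UTerm.congr {f g : ∀ (M : Type) [Group M] [Lattice M] [MulLeftMono M] [MulRightMono M],
    (α → M) → M} (hf : UTerm α f)
    (h : ∀ (M : Type) [Group M] [Lattice M] [MulLeftMono M] [MulRightMono M] (v : α → M),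
      f M v = g M v) : UTerm α g := by
  obtain ⟨s, hs⟩ := hf
  exact ⟨s, fun M _ _ _ _ v => by rw [hs, h]⟩

theorem UTerm.inf {f g : ∀ (M : Type) [Group M] [Lattice M] [MulLeftMono M] [MulRightMono M],
    (α → M) → M} (hf : UTerm α f) (hg : UTerm α g) :
    UTerm α (fun M _ _ _ _ v => f M v ⊓ g M v) :=
  (hf.inv.sup hg.inv).inv.congr fun M _ _ _ _ v => by rw [inv_sup, inv_inv, inv_inv]

theorem UTerm.mabs {f : ∀ (M : Type) [Group M] [Lattice M] [MulLeftMono M] [MulRightMono M],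
    (α → M) → M} (hf : UTerm α f) :
    UTerm α (fun M _ _ _ _ v => |f M v|ₘ) :=
  (hf.sup hf.inv).congr fun M _ _ _ _ v => rfl

/-- weakening -/
theorem UTerm.lift {f : ∀ (M : Type) [Group M] [Lattice M] [MulLeftMono M] [MulRightMono M],
    (α → M) → M} (hf : UTerm α f) (β : Type) :
    UTerm (α ⊕ β) (fun M _ _ _ _ v => f M (fun a => v (Sum.inl a))) := by
  obtain ⟨s, hs⟩ := hf
  refine ⟨s.relabel Sum.inl, fun M _ _ _ _ v => ?_⟩
  letI := str M
  exact Language.Term.realize_relabel.trans (hs M _)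

theorem UDef.congr {p q : ∀ (M : Type) [Group M] [Lattice M] [MulLeftMono M] [MulRightMono M],
    (α → M) → Prop} (hp : UDef α p)
    (h : ∀ (M : Type) [Group M] [Lattice M] [MulLeftMono M] [MulRightMono M] (v : α → M),
      p M v ↔ q M v) : UDef α q := by
  obtain ⟨φ, hφ⟩ := hp
  exact ⟨φ, fun M _ _ _ _ v => by rw [hφ, h]⟩

theorem UDef.eq {f g : ∀ (M : Type) [Group M] [Lattice M] [MulLeftMono M] [MulRightMono M],
    (α → M) → M} (hf : UTerm α f) (hg : UTerm α g) :
    UDef α (fun M _ _ _ _ v => f M v = g M v) := by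
  obtain ⟨s, hs⟩ := hf
  obtain ⟨t, ht⟩ := hg
  refine ⟨Language.Term.equal s t, fun M _ _ _ _ v => ?_⟩
  letI := str M
  have h := Language.Formula.realize_equal (t₁ := s) (t₂ := t) (x := v)
  rw [hs M v, ht M v] at h
  exact h

theorem UDef.not {p : ∀ (M : Type) [Group M] [Lattice M] [MulLeftMono M] [MulRightMono M],
    (α → M) → Prop} (hp : UDef α p) : UDef α (fun M _ _ _ _ v => ¬ p M v) := by
  obtain ⟨φ, hφ⟩ := hp
  refine ⟨Language.BoundedFormula.not φ, fun M _ _ _ _ v => ?_⟩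
  letI := str M
  exact Language.Formula.realize_not.trans (not_congr (hφ M v))

theorem UDef.and {p q : ∀ (M : Type) [Group M] [Lattice M] [MulLeftMono M] [MulRightMono M],
    (α → M) → Prop} (hp : UDef α p) (hq : UDef α q) :
    UDef α (fun M _ _ _ _ v => p M v ∧ q M v) := by
  obtain ⟨φ, hφ⟩ := hp
  obtain ⟨ψ, hψ⟩ := hq
  refine ⟨φ ⊓ ψ, fun M _ _ _ _ v => ?_⟩
  letI := str M
  exact Language.Formula.realize_inf.trans (and_congr (hφ M v) (hψ M v))

theorem UDef.imp {p q : ∀ (M : Type) [Group M] [Lattice M] [MulLeftMono M] [MulRightMono M],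
    (α → M) → Prop} (hp : UDef α p) (hq : UDef α q) :
    UDef α (fun M _ _ _ _ v => p M v → q M v) := by
  obtain ⟨φ, hφ⟩ := hp
  obtain ⟨ψ, hψ⟩ := hq
  refine ⟨Language.BoundedFormula.imp φ ψ, fun M _ _ _ _ v => ?_⟩
  letI := str M
  exact Language.Formula.realize_imp.trans (imp_congr (hφ M v) (hψ M v))

theorem UDef.ex (β : Type) [Finite β]
    {p : ∀ (M : Type) [Group M] [Lattice M] [MulLeftMono M] [MulRightMono M],
      ((α ⊕ β) → M) → Prop} (hp : UDef (α ⊕ β) p) :
    UDef α (fun M _ _ _ _ v => ∃ w : β → M, p M (Sum.elim v w)) := by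
  obtain ⟨φ, hφ⟩ := hp
  refine ⟨φ.iExs β, fun M _ _ _ _ v => ?_⟩
  letI := str M
  rw [Language.Formula.realize_iExs]
  exact exists_congr fun w => hφ M _

theorem UDef.all (β : Type) [Finite β]
    {p : ∀ (M : Type) [Group M] [Lattice M] [MulLeftMono M] [MulRightMono M],
      ((α ⊕ β) → M) → Prop} (hp : UDef (α ⊕ β) p) :
    UDef α (fun M _ _ _ _ v => ∀ w : β → M, p M (Sum.elim v w)) := by
  obtain ⟨φ, hφ⟩ := hp
  refine ⟨φ.iAlls β, fun M _ _ _ _ v => ?_⟩
  letI := str M
  rw [Language.Formula.realize_iAlls]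
  exact forall_congr' fun w => hφ M _

theorem UDef.ex1 {p : ∀ (M : Type) [Group M] [Lattice M] [MulLeftMono M] [MulRightMono M],
      ((α ⊕ Unit) → M) → Prop} (hp : UDef (α ⊕ Unit) p) :
    UDef α (fun M _ _ _ _ v => ∃ x : M, p M (Sum.elim v (fun _ => x))) :=
  (UDef.ex Unit hp).congr fun M _ _ _ _ v =>
    ⟨fun ⟨w, hw⟩ => ⟨w (), hw⟩, fun ⟨x, hx⟩ => ⟨fun _ => x, hx⟩⟩

theorem UDef.all1 {p : ∀ (M : Type) [Group M] [Lattice M] [MulLeftMono M] [MulRightMono M],
      ((α ⊕ Unit) → M) → Prop} (hp : UDef (α ⊕ Unit) p) :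
    UDef α (fun M _ _ _ _ v => ∀ x : M, p M (Sum.elim v (fun _ => x))) :=
  (UDef.all Unit hp).congr fun M _ _ _ _ v =>
    ⟨fun h x => h (fun _ => x), fun h w => h (w ())⟩

theorem UDef.finAll {J : Type} [Finite J]
    {p : J → ∀ (M : Type) [Group M] [Lattice M] [MulLeftMono M] [MulRightMono M],
      (α → M) → Prop} (hp : ∀ j, UDef α (p j)) :
    UDef α (fun M _ _ _ _ v => ∀ j, p j M v) := by
  choose φ hφ using hp
  refine ⟨Language.Formula.iInf φ, fun M _ _ _ _ v => ?_⟩
  letI := str M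
  rw [Language.Formula.realize_iInf]
  exact forall_congr' fun j => hφ j M v

theorem UDef.finEx {J : Type} [Finite J]
    {p : J → ∀ (M : Type) [Group M] [Lattice M] [MulLeftMono M] [MulRightMono M],
      (α → M) → Prop} (hp : ∀ j, UDef α (p j)) :
    UDef α (fun M _ _ _ _ v => ∃ j, p j M v) := by
  choose φ hφ using hp
  refine ⟨Language.Formula.iSup φ, fun M _ _ _ _ v => ?_⟩
  letI := str M
  rw [Language.Formula.realize_iSup]
  exact exists_congr fun j => hφ j M v

theorem UDef.theta (k : ℕ)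
    {e : ∀ (M : Type) [Group M] [Lattice M] [MulLeftMono M] [MulRightMono M],
      (α → M) → M} (he : UTerm α e) :
    UDef α (fun M _ _ _ _ v => Theta k M (e M v)) := by
  -- variables: `α`, `g : Fin k`, `f : Fin k × Fin 3`
  have h1 : UDef ((α ⊕ Fin k) ⊕ (Fin k × Fin 3)) (fun M _ _ _ _ v =>
      ∀ q : Fin k × Fin 3, |v (Sum.inr q)|ₘ ⊓
        |v (Sum.inl (Sum.inr q.1)) * v (Sum.inr q) * (v (Sum.inl (Sum.inr q.1)))⁻¹|ₘ = 1) := by
    refine UDef.finAll fun q => UDef.eq ?_ UTerm.one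
    exact (UTerm.var _).mabs.inf (((UTerm.var _).mul (UTerm.var _)).mul (UTerm.var _).inv).mabs
  have h2 : UDef ((α ⊕ Fin k) ⊕ (Fin k × Fin 3)) (fun M _ _ _ _ v =>
      ∀ h : M, (∀ q : Fin k × Fin 3, |h|ₘ ⊓ |v (Sum.inr q)|ₘ = 1) →
        |h|ₘ ⊓ |e M (fun a => v (Sum.inl (Sum.inl a)))|ₘ = 1) := by
    refine UDef.all1 (p := fun M _ _ _ _ v =>
      (∀ q : Fin k × Fin 3, |v (Sum.inr ())|ₘ ⊓ |v (Sum.inl (Sum.inr q))|ₘ = 1) →
        |v (Sum.inr ())|ₘ ⊓ |e M (fun a => v (Sum.inl (Sum.inl (Sum.inl a))))|ₘ = 1) ?_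
    refine UDef.imp (UDef.finAll fun q => UDef.eq ?_ UTerm.one) (UDef.eq ?_ UTerm.one)
    · exact (UTerm.var _).mabs.inf (UTerm.var _).mabs
    · exact (UTerm.var _).mabs.inf (((he.lift _).lift _).lift _).mabs
  exact UDef.ex (Fin k) (UDef.ex (Fin k × Fin 3) (h1.and h2))

theorem UTerm.tt {x w a V : ∀ (M : Type) [Group M] [Lattice M] [MulLeftMono M] [MulRightMono M],
      (α → M) → M} (hx : UTerm α x) (hw : UTerm α w) (ha : UTerm α a) (hV : UTerm α V) :
    UTerm α (fun M _ _ _ _ v => tt (x M v) (w M v) (a M v) (V M v)) :=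
  (((((hw.mul hx).inv.mul (hx.mul hw)).mabs.mul (ha.mabs.mul ha.mabs).inv).sup UTerm.one).inf
    hV.mabs)

theorem UDef.big (k : ℕ)
    {a : ∀ (M : Type) [Group M] [Lattice M] [MulLeftMono M] [MulRightMono M],
      (α → M) → M} (ha : UTerm α a) :
    UDef α (fun M _ _ _ _ v => Big k M (a M v)) := by
  refine UDef.ex1 (p := fun M _ _ _ _ v => ¬ Theta k M (v (Sum.inr ())) ∧
    ∀ x w : M, Theta k M (MP_106261_lc.tt x w (a M (fun a => v (Sum.inl a))) (v (Sum.inr ())))) ?_
  refine UDef.and (UDef.not (UDef.theta k (UTerm.var _))) ?_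
  refine UDef.all1 (p := fun M _ _ _ _ v => ∀ w : M, Theta k M (MP_106261_lc.tt (v (Sum.inr ())) w
    (a M (fun a => v (Sum.inl (Sum.inl a)))) (v (Sum.inl (Sum.inr ()))))) ?_
  refine UDef.all1 (p := fun M _ _ _ _ v => Theta k M (MP_106261_lc.tt (v (Sum.inl (Sum.inr ())))
    (v (Sum.inr ())) (a M (fun a => v (Sum.inl (Sum.inl (Sum.inl a)))))
    (v (Sum.inl (Sum.inl (Sum.inr ())))))) ?_
  exact UDef.theta k (UTerm.tt (UTerm.var _) (UTerm.var _) (((ha.lift _).lift _).lift _)
    (UTerm.var _))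

theorem UDef.sent (k N : ℕ) : UDef Empty (fun M _ _ _ _ _ => Sent k N M) := by
  refine (UDef.all (Fin (N + 1)) (p := fun M _ _ _ _ v => ∃ z e : M, Big k M e ∧
    ∃ q : Fin (N + 1) × Fin (N + 1), q.1 ≠ q.2 ∧
      ¬ Big k M (|(v (Sum.inr q.1))⁻¹ * v (Sum.inr q.2) * (z * z)⁻¹|ₘ ⊓ |e|ₘ)) ?_).congr
    (fun M _ _ _ _ v => Iff.rfl)
  refine UDef.ex1 (p := fun M _ _ _ _ v => ∃ e : M, Big k M e ∧
    ∃ q : Fin (N + 1) × Fin (N + 1), q.1 ≠ q.2 ∧
      ¬ Big k M (|(v (Sum.inl (Sum.inr q.1)))⁻¹ * v (Sum.inl (Sum.inr q.2)) *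
        (v (Sum.inr ()) * v (Sum.inr ()))⁻¹|ₘ ⊓ |e|ₘ)) ?_
  refine UDef.ex1 (p := fun M _ _ _ _ v => Big k M (v (Sum.inr ())) ∧
    ∃ q : Fin (N + 1) × Fin (N + 1), q.1 ≠ q.2 ∧
      ¬ Big k M (|(v (Sum.inl (Sum.inl (Sum.inr q.1))))⁻¹ * v (Sum.inl (Sum.inl (Sum.inr q.2))) *
        (v (Sum.inl (Sum.inr ())) * v (Sum.inl (Sum.inr ())))⁻¹|ₘ ⊓ |v (Sum.inr ())|ₘ)) ?_
  refine UDef.and (UDef.big k (UTerm.var _)) (UDef.finEx fun q => UDef.and ?_ (UDef.not ?_))
  · by_cases h : q.1 ≠ q.2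
    · exact (UDef.eq UTerm.one UTerm.one).congr fun M _ _ _ _ v => by simp [h]
    · exact (UDef.not (UDef.eq UTerm.one UTerm.one)).congr fun M _ _ _ _ v => by simp [h]
  · exact UDef.big k ((((UTerm.var _).inv.mul (UTerm.var _)).mul
      ((UTerm.var _).mul (UTerm.var _)).inv).mabs.inf (UTerm.var _).mabs)

theorem UDef.comm : UDef Empty (fun M _ _ _ _ _ => ∀ x y : M, x * y = y * x) := by
  refine UDef.all1 (p := fun M _ _ _ _ v => ∀ y : M, v (Sum.inr ()) * y = y * v (Sum.inr ())) ?_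
  refine UDef.all1 (p := fun M _ _ _ _ v => v (Sum.inl (Sum.inr ())) * v (Sum.inr ())
    = v (Sum.inr ()) * v (Sum.inl (Sum.inr ()))) ?_
  exact UDef.eq ((UTerm.var _).mul (UTerm.var _)) ((UTerm.var _).mul (UTerm.var _))

/-- uniformly definable sentences transfer between elementarily equivalent structures -/
theorem UDef.transfer {p : ∀ (M : Type) [Group M] [Lattice M] [MulLeftMono M] [MulRightMono M],
    (Empty → M) → Prop} (hp : UDef Empty p) (G : Type) [Group G] [Lattice G] [MulLeftMono G]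
    [MulRightMono G] (H : Type) [Group H] [Lattice H] [MulLeftMono H] [MulRightMono H]
    (h : @Language.ElementarilyEquivalent LL G H (str G) (str H)) :
    p G (fun x => x.elim) ↔ p H (fun x => x.elim) := by
  obtain ⟨φ, hφ⟩ := hp
  letI := str G
  letI := str H
  have h1 := h.realize_sentence φ
  have e1 : ∀ v : Empty → G, (Language.Sentence.Realize G φ ↔ p G v) := by
    intro v
    rw [← hφ G v, Language.Sentence.Realize]
    rw [Unique.eq_default v]
  have e2 : ∀ v : Empty → H, (Language.Sentence.Realize H φ ↔ p H v) := by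
    intro v
    rw [← hφ H v, Language.Sentence.Realize]
    rw [Unique.eq_default v]
  rw [← e1, ← e2]
  exact h1

/-- two generators do not commute -/
theorem IsFree.not_comm {m : ℕ} {H : Type} [Group H] [Lattice H] [MulLeftMono H]
    [MulRightMono H] {ιH : Fin m → H} (hH : IsFree m H ιH) {i j : Fin m} (hij : i ≠ j) :
    ιH i * ιH j ≠ ιH j * ιH i := by
  intro h
  obtain ⟨P, -⟩ := exists_lo_of_real (n := m) (fun _ => 0)
  have h1 : hH.ev P (wd ιH (FreeGroup.of i * FreeGroup.of j))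
      = hH.ev P (wd ιH (FreeGroup.of j * FreeGroup.of i)) := by
    rw [map_mul, map_mul, wd, FreeGroup.lift_apply_of, FreeGroup.lift_apply_of, h]
  rw [hH.ev_wd, hH.ev_wd] at h1
  have h2 : (FreeGroup.of i * FreeGroup.of j : FreeGroup (Fin m))
      = FreeGroup.of j * FreeGroup.of i := h1
  have h3 := congrArg FreeGroup.toWord h2
  simp [FreeGroup.toWord_mul, FreeGroup.toWord_of, FreeGroup.reduce] at h3
  exact hij h3.1

/-- the case `n < m` -/
theorem not_equiv_of_lt {n m : ℕ} (hn : 0 < n) (hnm : n < m)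
    (G : Type) [Group G] [Lattice G] [MulLeftMono G] [MulRightMono G] (ιG : Fin n → G)
    (hG : IsFree n G ιG)
    (H : Type) [Group H] [Lattice H] [MulLeftMono H] [MulRightMono H] (ιH : Fin m → H)
    (hH : IsFree m H ιH) :
    ¬ @Language.ElementarilyEquivalent LL G H (str G) (str H) := by
  intro h
  rcases Nat.lt_or_ge n 2 with hn2 | hn2
  · -- `n = 1`
    have hn1 : n = 1 := by omega
    subst hn1
    have h1 := UDef.comm.transfer G H h
    have hG' : ∀ x y : G, x * y = y * x := by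
      -- the centralizer of any element is closed under the operations
      have hinv : ∀ c a : G, a * c = c * a → a⁻¹ * c = c * a⁻¹ := by
        intro c a ha
        rw [inv_mul_eq_iff_eq_mul, ← mul_assoc, ha, mul_inv_cancel_right]
      -- the centralizer of the generator is everything
      have hgen : ∀ x : G, x * ιG 0 = ιG 0 * x := by
        intro x
        refine hG.induction (p := fun x => x * ιG 0 = ιG 0 * x) ?_ ?_ ?_ ?_ ?_ x
        · simp
        · intro i; rw [Subsingleton.elim i 0]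
        · intro a b ha hb; rw [mul_assoc, hb, ← mul_assoc, ha, mul_assoc]
        · intro a ha; exact hinv _ _ ha
        · intro a b ha hb; rw [sup_mul, ha, hb, mul_sup]
      intro x y
      refine hG.induction (p := fun y => y * x = x * y) ?_ ?_ ?_ ?_ ?_ y |>.symm
      · simp
      · intro i; rw [Subsingleton.elim i 0]; exact (hgen x).symm
      · intro a b ha hb; rw [mul_assoc, hb, ← mul_assoc, ha, mul_assoc]
      · intro a ha; exact hinv _ _ ha
      · intro a b ha hb; rw [sup_mul, ha, hb, mul_sup]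
    have h2 := h1.1 hG'
    have h3 := h2 (ιH ⟨0, by omega⟩) (ιH ⟨1, by omega⟩)
    -- evaluate in the permutation group of a non-commuting representation
    exact hH.not_comm (by simp [Fin.ext_iff]) h3
  · have hm2 : 2 ≤ m := by omega
    have h1 := (UDef.sent m (2 ^ n)).transfer G H h
    exact hH.sent_false hm2 le_rfl hnm (h1.1 (hG.sent_true hn2 hnm.le))

end Pool.Agent.Lib.MP_106261_lc
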