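import Pool.Agent.Lib.MP_106261_lc.Topo

/-!
# The predicate `Theta`: vanishing at all bi-invariant orders is first-order
-/

set_option autoImplicit false

namespace Pool.Agent.Lib.MP_106261_lc

open Classical

variable {n : ℕ} {F : Type} [Group F] [Lattice F] [MulLeftMono F] [MulRightMono F]
  {ι : Fin n → F}

/-! ### The predicate `Theta` -/

/-- `e` is covered by `3 k` elements, each of which is disjoint from a conjugate of itself -/
def Theta (k : ℕ) (M : Type) [Group M] [Lattice M] (e : M) : Prop :=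
  ∃ (g : Fin k → M) (f : Fin k × Fin 3 → M),
    (∀ q, |f q|ₘ ⊓ |g q.1 * f q * (g q.1)⁻¹|ₘ = 1) ∧
      ∀ h : M, (∀ q, |h|ₘ ⊓ |f q|ₘ = 1) → |h|ₘ ⊓ |e|ₘ = 1

theorem IsFree.theta_sound (hF : IsFree n F ι) (hn : 0 < n) {k : ℕ} {e : F} (h : Theta k F e)
    (P : LO (FreeGroup (Fin n))) (hP : P.IsBi) : hF.ev P e = 1 := by
  obtain ⟨g, f, h1, h2⟩ := h
  by_contra hne
  have hf : ∀ q, hF.ev P (f q) = 1 := by
    intro q
    rcases (hF.disj_iff _ _).1 (h1 q) P with h | h
    · exact h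
    · rw [hF.ev_conj_eq_one, hP] at h
      exact h
  obtain ⟨h, hh⟩ := hF.exists_coz_eq hn (hF.coz e ∩ ⋂ q, (hF.coz (f q))ᶜ)
    ((hF.isClopen_coz e).inter (isClopen_iInter_of_finite fun q => (hF.isClopen_coz (f q)).compl))
  have h3 : |h|ₘ ⊓ |e|ₘ = 1 := by
    apply h2
    intro q
    rw [hF.disj_iff]
    intro Q
    by_cases hQ : hF.ev Q h = 1
    · exact Or.inl hQ
    · right
      have : Q ∈ hF.coz h := hQ
      rw [hh] at this
      have := Set.mem_iInter.1 this.2 q
      simpa [IsFree.coz] using this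
  have h4 : P ∈ hF.coz h := by
    rw [hh]
    exact ⟨hne, Set.mem_iInter.2 fun q => by simpa [IsFree.coz] using hf q⟩
  rcases (hF.disj_iff _ _).1 h3 P with h5 | h5
  · exact h4 h5
  · exact hne h5

theorem IsFree.theta_complete (hF : IsFree n F ι) (hn : 0 < n) {k : ℕ} (hk : n ≤ k) {e : F}
    (he : ∀ P : LO (FreeGroup (Fin n)), P.IsBi → hF.ev P e = 1) : Theta k F e := by
  -- the displaced sets
  let W : Fin n → FreeGroup (Fin n) → Set (LO (FreeGroup (Fin n))) := fun i x =>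
    {P | x ∈ P.pos} ∩ {P | x ∈ (FreeGroup.of i • P).pos}ᶜ
  have hWclopen : ∀ i x, IsClopen (W i x) := by
    intro i x
    exact (LO.isClopen_pos x).inter
      ((LO.isClopen_pos ((FreeGroup.of i)⁻¹ * x * FreeGroup.of i)).compl)
  have hWdisp : ∀ i x, ∀ P ∈ W i x, conjHomeo (FreeGroup.of i) P ∉ W i x := by
    intro i x P hP hP'
    exact hP.2 hP'.1
  have hcover : hF.coz e ⊆ ⋃ q : Fin n × FreeGroup (Fin n), W q.1 q.2 := by
    intro P hP
    have h1 : ¬ P.IsBi := fun h => hP (he P h)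
    have h2 : ∃ i : Fin n, FreeGroup.of i • P ≠ P := by
      by_contra hno
      push Not at hno
      apply h1
      intro g
      have h3 : g ∈ MulAction.stabilizer (FreeGroup (Fin n)) P := by
        have h4 : (⊤ : Subgroup (FreeGroup (Fin n))) ≤ MulAction.stabilizer _ P := by
          rw [← FreeGroup.closure_range_of, Subgroup.closure_le]
          rintro _ ⟨i, rfl⟩
          exact hno i
        exact h4 (Subgroup.mem_top g)
      exact h3
    obtain ⟨i, hi⟩ := h2
    obtain ⟨x, hx1, hx2⟩ := LO.exists_of_ne hi.symm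
    exact Set.mem_iUnion.2 ⟨(i, x), hx1, hx2⟩
  obtain ⟨t, ht⟩ := ((hF.isClopen_coz e).isClosed.isCompact).elim_finite_subcover
    (fun q : Fin n × FreeGroup (Fin n) => W q.1 q.2) (fun q => (hWclopen q.1 q.2).isOpen) hcover
  -- colourings
  have hcol : ∀ i : Fin n, ∃ c : LO (FreeGroup (Fin n)) → Option (Fin 3),
      IsLocallyConstant c ∧ (∀ P j, c P = some j → c (FreeGroup.of i • P) ≠ some j) ∧
        ∀ q ∈ t, q.1 = i → ∀ P ∈ W q.1 q.2, c P ≠ none := by
    intro i
    obtain ⟨c, hc1, hc2, hc3⟩ := exists_colouring (conjHomeo (FreeGroup.of i))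
      ((t.filter (fun q => q.1 = i)).toList.map (fun q => W q.1 q.2)) (by
        intro V hV
        obtain ⟨q, hq, rfl⟩ := List.mem_map.1 hV
        have hq' : q.1 = i := (Finset.mem_filter.1 (Finset.mem_toList.1 hq)).2
        refine ⟨hWclopen _ _, ?_⟩
        rw [← hq']
        exact hWdisp q.1 q.2)
    refine ⟨c, hc1, hc2, ?_⟩
    intro q hq hqi P hP
    exact hc3 (W q.1 q.2) (List.mem_map.2 ⟨q, Finset.mem_toList.2 (Finset.mem_filter.2 ⟨hq, hqi⟩),
      rfl⟩) P hP
  choose c hc1 hc2 hc3 using hcol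
  have hf : ∀ i : Fin n, ∀ j : Fin 3, ∃ f, hF.coz f = {P | c i P = some j} := by
    intro i j
    apply hF.exists_coz_eq hn
    exact (hc1 i).isClopen_fiber (some j)
  choose f hf using hf
  have hgf : ∃ (g' : Fin k → F) (f' : Fin k × Fin 3 → F),
      (∀ (i : Fin n) (j : Fin 3), f' (Fin.castLE hk i, j) = f i j) ∧
      (∀ i : Fin n, g' (Fin.castLE hk i) = ι i) ∧
      (∀ q : Fin k × Fin 3, (∃ i : Fin n, q.1 = Fin.castLE hk i) ∨ f' q = 1) := by
    refine ⟨fun i => if h : i.1 < n then ι ⟨i.1, h⟩ else 1,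
      fun q => if h : q.1.1 < n then f ⟨q.1.1, h⟩ q.2 else 1, ?_, ?_, ?_⟩
    · intro i j
      have h : (Fin.castLE hk i).1 < n := i.2
      exact dif_pos h
    · intro i
      have h : (Fin.castLE hk i).1 < n := i.2
      exact dif_pos h
    · intro q
      by_cases h : q.1.1 < n
      · exact Or.inl ⟨⟨q.1.1, h⟩, rfl⟩
      · exact Or.inr (dif_neg h)
  obtain ⟨g', f', hf', hg', hq'⟩ := hgf
  refine ⟨g', f', ?_, ?_⟩
  · intro q
    obtain ⟨i', j⟩ := q
    rcases hq' (i', j) with ⟨i, hi⟩ | h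
    · have hi : i' = Fin.castLE hk i := hi
      subst hi
      have e1 : f' (Fin.castLE hk i, j) = f i j := hf' i j
      have e2 : g' (Fin.castLE hk i) = ι i := hg' i
      change |f' (Fin.castLE hk i, j)|ₘ ⊓ |g' (Fin.castLE hk i) * f' (Fin.castLE hk i, j)
        * (g' (Fin.castLE hk i))⁻¹|ₘ = 1
      rw [e1, e2, hF.disj_iff]
      intro P
      rw [hF.ev_conj_eq_one]
      by_contra hno
      push Not at hno
      obtain ⟨h1, h2⟩ := hno
      have h3 : hF.ev P (ι i)⁻¹ = (FreeGroup.of i)⁻¹ := by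
        have := hF.ev_wd P (FreeGroup.of i)⁻¹
        rwa [map_inv, wd, FreeGroup.lift_apply_of] at this
      rw [h3] at h2
      have h4 : P ∈ hF.coz (f i j) := h1
      have h5 : (FreeGroup.of i)⁻¹ • P ∈ hF.coz (f i j) := h2
      rw [hf] at h4 h5
      have h6 := hc2 _ _ _ h5
      rw [smul_inv_smul] at h6
      exact h6 h4
    · rw [h]
      have e : |(1 : F)|ₘ = 1 := mabs_one
      rw [e]
      exact inf_eq_left.2 (one_le_mabs _)
  · intro h hh
    rw [hF.disj_iff]
    intro P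
    by_contra hno
    push Not at hno
    obtain ⟨h1, h2⟩ := hno
    obtain ⟨q, hq⟩ := Set.mem_iUnion.1 (ht (show P ∈ hF.coz e from h2))
    obtain ⟨hqt, hPq⟩ := Set.mem_iUnion.1 hq
    have h3 := hc3 q.1 q hqt rfl P hPq
    obtain ⟨j, hj⟩ := Option.ne_none_iff_exists'.1 h3
    have h4 := hh (Fin.castLE hk q.1, j)
    rw [hf'] at h4
    rcases (hF.disj_iff _ _).1 h4 P with h5 | h5
    · exact h1 h5
    · have h6 : P ∈ hF.coz (f q.1 j) := by rw [hf]; exact hj
      exact h6 h5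

theorem IsFree.theta_iff (hF : IsFree n F ι) (hn : 0 < n) {k : ℕ} (hk : n ≤ k) (e : F) :
    Theta k F e ↔ ∀ P : LO (FreeGroup (Fin n)), P.IsBi → hF.ev P e = 1 :=
  ⟨fun h P hP => hF.theta_sound hn h P hP, fun h => hF.theta_complete hn hk h⟩

end Pool.Agent.Lib.MP_106261_lc
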