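import Pool.Agent.Lib.MP_106261_lc.Eval

/-!
# The space of left orders, cozero sets, colourings
-/

set_option autoImplicit false

namespace Pool.Agent.Lib.MP_106261_lc

open Classical

/-! ### Colouring lemma -/

/-- a colour different from two given ones -/
theorem exists_pick (a b : Option (Fin 3)) : ∃ j : Fin 3, some j ≠ a ∧ some j ≠ b := by
  revert a b
  decide

/-- a colour different from two given ones -/
noncomputable def pick (a b : Option (Fin 3)) : Fin 3 := (exists_pick a b).choose

theorem pick_ne (a b : Option (Fin 3)) : some (pick a b) ≠ a ∧ some (pick a b) ≠ b :=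
  (exists_pick a b).choose_spec

theorem exists_colouring {X : Type} [TopologicalSpace X] (T : X ≃ₜ X) (L : List (Set X))
    (hL : ∀ W ∈ L, IsClopen W ∧ ∀ x ∈ W, T x ∉ W) :
    ∃ c : X → Option (Fin 3), IsLocallyConstant c ∧ (∀ x j, c x = some j → c (T x) ≠ some j) ∧
      ∀ W ∈ L, ∀ x ∈ W, c x ≠ none := by
  induction L with
  | nil => exact ⟨fun _ => none, IsLocallyConstant.const _, by simp, by simp⟩
  | cons W L ih =>
    obtain ⟨c, hc, hc', hcL⟩ := ih (fun W' hW' => hL W' (List.mem_cons_of_mem _ hW'))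
    obtain ⟨hW, hW'⟩ := hL W (by simp)
    let c' : X → Option (Fin 3) := fun x =>
      if c x ≠ none then c x else if x ∈ W then some (pick (c (T x)) (c (T.symm x))) else none
    refine ⟨c', ?_, ?_, ?_⟩
    · have h1 : IsLocallyConstant (fun x => c (T x)) := hc.comp_continuous T.continuous
      have h2 : IsLocallyConstant (fun x => c (T.symm x)) := hc.comp_continuous T.symm.continuous
      have h3 : IsLocallyConstant (fun x => (x ∈ W : Prop)) := by
        rw [IsLocallyConstant.iff_isOpen_fiber]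
        intro p
        by_cases hp : p
        · have : {x | (x ∈ W) = p} = W := by ext x; simp [hp]
          have h4 : (fun x => (x ∈ W : Prop)) ⁻¹' {p} = W := by
            ext x; simp [hp]
          rw [h4]; exact hW.isOpen
        · have h4 : (fun x => (x ∈ W : Prop)) ⁻¹' {p} = Wᶜ := by
            ext x; simp [hp]
          rw [h4]; exact hW.compl.isOpen
      have h4 := ((hc.prodMk h1).prodMk (h2.prodMk h3)).comp
        (fun q : (Option (Fin 3) × Option (Fin 3)) × (Option (Fin 3) × Prop) =>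
          if q.1.1 ≠ none then q.1.1 else if q.2.2 then some (pick q.1.2 q.2.1) else none)
      exact h4
    · intro x j hx
      by_cases h1 : c x = none
      · have hxW : x ∈ W := by
          by_contra h
          simp [c', h1, h] at hx
        have hx' : pick (c (T x)) (c (T.symm x)) = j := by simpa [c', h1, hxW] using hx
        by_cases h2 : c (T x) = none
        · have h3 : T x ∉ W := hW' x hxW
          simp [c', h2, h3]
        · have h3 : c' (T x) = c (T x) := by simp [c', h2]
          rw [h3, ← hx']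
          exact (pick_ne _ _).1.symm
      · have hx' : c x = some j := by simpa [c', h1] using hx
        by_cases h2 : c (T x) = none
        · by_cases h3 : T x ∈ W
          · have h4 : c' (T x) = some (pick (c (T (T x))) (c (T.symm (T x)))) := by
              simp [c', h2, h3]
            rw [h4, T.symm_apply_apply, hx']
            exact (pick_ne _ _).2
          · simp [c', h2, h3]
        · have h3 : c' (T x) = c (T x) := by simp [c', h2]
          rw [h3]
          exact hc' x j hx'
    · intro W' hW'' x hx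
      rcases List.mem_cons.1 hW'' with rfl | hW''
      · by_cases h1 : c x = none
        · simp [c', h1, hx]
        · simp [c', h1]
      · have := hcL W' hW'' x hx
        simp [c', this]

/-! ### The topology -/

section

variable {G : Type} [Group G]

/-- the embedding of the set of left orders into a product of two-point spaces -/
noncomputable def LO.emb (P : LO G) : G → Bool := fun g => decide (g ∈ P.pos)

noncomputable instance : TopologicalSpace (LO G) := TopologicalSpace.induced LO.emb inferInstance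

theorem LO.emb_injective : Function.Injective (LO.emb : LO G → (G → Bool)) := by
  intro P Q h
  ext g
  have := congrFun h g
  simpa [LO.emb] using this

theorem LO.isEmbedding_emb : Topology.IsEmbedding (LO.emb : LO G → (G → Bool)) :=
  ⟨⟨rfl⟩, LO.emb_injective⟩

theorem LO.range_emb : Set.range (LO.emb : LO G → (G → Bool)) =
    (⋂ a : G, ⋂ b : G, {f : G → Bool | f a = true → f b = true → f (a * b) = true}) ∩
    ({f : G → Bool | f 1 = false} ∩
      ⋂ a : G, {f : G → Bool | a ≠ 1 → f a = true ∨ f a⁻¹ = true}) := by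
  ext f
  simp only [Set.mem_range, Set.mem_inter_iff, Set.mem_iInter, Set.mem_ofPred_eq]
  constructor
  · rintro ⟨P, rfl⟩
    refine ⟨?_, ?_, ?_⟩
    · intro a b ha hb
      simp only [LO.emb, decide_eq_true_eq] at *
      exact P.mul_mem a ha b hb
    · simp only [LO.emb, decide_eq_false_iff_not]
      exact P.one_notMem
    · intro a ha
      simp only [LO.emb, decide_eq_true_eq]
      exact P.total a ha
  · rintro ⟨h1, h2, h3⟩
    refine ⟨⟨{g | f g = true}, fun a ha b hb => h1 a b ha hb, by simp [h2], fun a ha => h3 a ha⟩, ?_⟩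
    funext g
    simp [LO.emb]

instance : CompactSpace (LO G) := by
  have hcl : IsClosed (Set.range (LO.emb : LO G → (G → Bool))) := by
    rw [LO.range_emb]
    refine IsClosed.inter ?_ (IsClosed.inter ?_ ?_)
    · refine isClosed_iInter fun a => isClosed_iInter fun b => ?_
      have hcont : Continuous (fun f : G → Bool => (f a, f b, f (a * b))) := by fun_prop
      exact (isClosed_discrete {q : Bool × Bool × Bool |
        q.1 = true → q.2.1 = true → q.2.2 = true}).preimage hcont
    · have hcont : Continuous (fun f : G → Bool => f 1) := by fun_prop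
      exact (isClosed_discrete {q : Bool | q = false}).preimage hcont
    · refine isClosed_iInter fun a => ?_
      have hcont : Continuous (fun f : G → Bool => (f a, f a⁻¹)) := by fun_prop
      exact (isClosed_discrete {q : Bool × Bool |
        a ≠ 1 → q.1 = true ∨ q.2 = true}).preimage hcont
  exact (Topology.IsClosedEmbedding.mk LO.isEmbedding_emb hcl).compactSpace

theorem LO.isClopen_pos (g : G) : IsClopen {P : LO G | g ∈ P.pos} := by
  have hcont : Continuous (fun P : LO G => P.emb g) :=
    (continuous_apply g).comp LO.isEmbedding_emb.continuous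
  have h : {P : LO G | g ∈ P.pos} = (fun P : LO G => P.emb g) ⁻¹' {true} := by
    ext P; simp [LO.emb]
  rw [h]
  exact (isClopen_discrete {true}).preimage hcont

/-- basic neighbourhoods -/
theorem LO.exists_basic (P : LO G) (U : Set (LO G)) (hU : IsOpen U) (hP : P ∈ U) :
    ∃ S : Finset G, (∀ s ∈ S, s ∈ P.pos) ∧ ∀ P' : LO G, (∀ s ∈ S, s ∈ P'.pos) → P' ∈ U := by
  obtain ⟨U', hU', rfl⟩ := isOpen_induced_iff.1 hU
  obtain ⟨I, u, hI, hsub⟩ := isOpen_pi_iff.1 hU' P.emb hP
  refine ⟨(I.filter (fun g => g ∈ P.pos)) ∪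
    ((I.filter (fun g => g ∉ P.pos ∧ g ≠ 1)).image (fun g => g⁻¹)), ?_, ?_⟩
  · intro s hs
    rcases Finset.mem_union.1 hs with hs | hs
    · exact (Finset.mem_filter.1 hs).2
    · obtain ⟨g, hg, rfl⟩ := Finset.mem_image.1 hs
      obtain ⟨_, hg1, hg2⟩ := Finset.mem_filter.1 hg
      exact (P.notMem_iff hg2).1 hg1
  · intro P' hP'
    apply hsub
    intro g hg
    have h1 := (hI g hg).2
    have h2 : P'.emb g = P.emb g := by
      by_cases hgP : g ∈ P.pos
      · have : g ∈ P'.pos := hP' g (Finset.mem_union_left _ (Finset.mem_filter.2 ⟨hg, hgP⟩))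
        simp [LO.emb, hgP, this]
      · have : g ∉ P'.pos := by
          by_cases hg1 : g = 1
          · rw [hg1]; exact P'.one_notMem
          · rw [P'.notMem_iff hg1]
            exact hP' _ (Finset.mem_union_right _ (Finset.mem_image.2
              ⟨g, Finset.mem_filter.2 ⟨hg, hgP, hg1⟩, rfl⟩))
        simp [LO.emb, hgP, this]
    rw [h2]
    exact h1

/-- conjugation by a group element as a homeomorphism -/
noncomputable def conjHomeo (g : G) : LO G ≃ₜ LO G where
  toFun P := g • P
  invFun P := g⁻¹ • P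
  left_inv P := inv_smul_smul g P
  right_inv P := smul_inv_smul g P
  continuous_toFun := by
    rw [LO.isEmbedding_emb.continuous_iff]
    refine continuous_pi fun x => ?_
    exact (continuous_apply (g⁻¹ * x * g)).comp LO.isEmbedding_emb.continuous
  continuous_invFun := by
    rw [LO.isEmbedding_emb.continuous_iff]
    refine continuous_pi fun x => ?_
    exact (continuous_apply ((g⁻¹)⁻¹ * x * g⁻¹)).comp LO.isEmbedding_emb.continuous

theorem LO.exists_of_ne {P Q : LO G} (h : P ≠ Q) : ∃ x, x ∈ P.pos ∧ x ∉ Q.pos := by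
  by_contra hno
  push Not at hno
  apply h
  ext x
  constructor
  · exact hno x
  · intro hx
    by_contra hxP
    have hx1 : x ≠ 1 := Q.ne_one hx
    exact Q.inv_notMem hx (hno _ ((P.notMem_iff hx1).1 hxP))

/-- bi-invariant orders -/
def LO.IsBi (P : LO G) : Prop := ∀ g : G, g • P = P

end

/-! ### Cozero sets -/

variable {n : ℕ} {F : Type} [Group F] [Lattice F] [MulLeftMono F] [MulRightMono F]
  {ι : Fin n → F}

theorem IsL.mono {F K : Type} [Group F] [Lattice F] [Group K] [Lattice K] {φ : F →* K}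
    (hφ : IsL φ) {a b : F} (h : a ≤ b) : φ a ≤ φ b := by
  rw [← sup_eq_right, ← hφ.1, sup_eq_right.2 h]

theorem IsFree.ev_mono (hF : IsFree n F ι) (P : LO (FreeGroup (Fin n))) {f g : F} (h : f ≤ g) :
    (show Ch P from hF.ev P f) ≤ (show Ch P from hF.ev P g) :=
  (hF.act_isL P).mono h _

theorem IsFree.ev_ext (hF : IsFree n F ι) {f : F}
    (hf : ∀ P : LO (FreeGroup (Fin n)), hF.ev P f = 1) : f = 1 := by
  apply le_antisymm
  · apply hF.le_one_of_ev
    intro P
    rw [hf P]; exact P.one_notMem
  · have h : f⁻¹ ≤ 1 := by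
      apply hF.le_one_of_ev
      intro P
      rw [hF.ev_inv_eq_one P (hf P)]; exact P.one_notMem
    exact Right.inv_le_one_iff.1 h

theorem IsFree.ev_mabs (hF : IsFree n F ι) (P : LO (FreeGroup (Fin n))) (f : F) :
    hF.ev P |f|ₘ = 1 ↔ hF.ev P f = 1 := by
  constructor
  · intro h
    have h1 : (show Ch P from hF.ev P f) ≤ (show Ch P from (1 : FreeGroup (Fin n))) := by
      have := hF.ev_mono P (le_mabs_self f)
      rwa [h] at this
    have h2 : (show Ch P from hF.ev P f⁻¹) ≤ (show Ch P from (1 : FreeGroup (Fin n))) := by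
      have := hF.ev_mono P (inv_le_mabs f)
      rwa [h] at this
    have h3 := (hF.act P f).2 h2
    have h4 : (hF.act P f).1 (show Ch P from hF.ev P f⁻¹)
        = (show Ch P from (1 : FreeGroup (Fin n))) := by
      rw [IsFree.ev, map_inv]
      exact CAut.apply_inv_apply _ _
    have h5 : (show Ch P from (1 : FreeGroup (Fin n))) ≤ (show Ch P from hF.ev P f) :=
      h4.symm.le.trans h3
    have h6 : (show Ch P from hF.ev P f) = (show Ch P from (1 : FreeGroup (Fin n))) :=
      le_antisymm h1 h5
    exact h6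
  · intro h
    have h1 := hF.ev_sup P f f⁻¹
    rw [h, hF.ev_inv_eq_one P h, sup_idem] at h1
    exact h1

theorem IsFree.one_le_ev_mabs (hF : IsFree n F ι) (P : LO (FreeGroup (Fin n))) (f : F) :
    (show Ch P from (1 : FreeGroup (Fin n))) ≤ (show Ch P from hF.ev P |f|ₘ) := by
  have := hF.ev_mono P (one_le_mabs f)
  rwa [hF.ev_one] at this

theorem IsFree.disj_iff (hF : IsFree n F ι) (x y : F) :
    |x|ₘ ⊓ |y|ₘ = 1 ↔ ∀ P : LO (FreeGroup (Fin n)), hF.ev P x = 1 ∨ hF.ev P y = 1 := by
  constructor
  · intro h P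
    have h1 := hF.ev_inf P |x|ₘ |y|ₘ
    rw [h, hF.ev_one] at h1
    rcases le_total (show Ch P from hF.ev P |x|ₘ) (show Ch P from hF.ev P |y|ₘ) with h2 | h2
    · rw [inf_eq_left.2 h2] at h1
      exact Or.inl ((hF.ev_mabs P x).1 h1.symm)
    · rw [inf_eq_right.2 h2] at h1
      exact Or.inr ((hF.ev_mabs P y).1 h1.symm)
  · intro h
    apply hF.ev_ext
    intro P
    have h1 := hF.ev_inf P |x|ₘ |y|ₘ
    rcases h P with h2 | h2
    · rw [(hF.ev_mabs P x).2 h2, inf_eq_left.2 (hF.one_le_ev_mabs P y)] at h1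
      exact h1
    · rw [(hF.ev_mabs P y).2 h2, inf_eq_right.2 (hF.one_le_ev_mabs P x)] at h1
      exact h1

/-- the cozero set of an element -/
def IsFree.coz (hF : IsFree n F ι) (f : F) : Set (LO (FreeGroup (Fin n))) := {P | hF.ev P f ≠ 1}

theorem IsFree.isClopen_coz (hF : IsFree n F ι) (f : F) : IsClopen (hF.coz f) := by
  have hopen : ∀ A : Set (FreeGroup (Fin n)), IsOpen {P | hF.ev P f ∈ A} := by
    intro A
    rw [isOpen_iff_mem_nhds]
    intro P hP
    obtain ⟨S, hS, hS'⟩ := hF.locConst f P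
    have h1 : IsOpen (⋂ s ∈ S, {P' : LO (FreeGroup (Fin n)) | s ∈ P'.pos}) :=
      isOpen_biInter_finset fun s _ => (LO.isClopen_pos s).isOpen
    refine Filter.mem_of_superset (h1.mem_nhds (by simpa using hS)) ?_
    intro P' hP'
    have h2 : hF.ev P' f = hF.ev P f := hS' P' (by simpa using hP')
    change hF.ev P' f ∈ A
    rw [h2]
    exact hP
  refine ⟨⟨?_⟩, hopen {g | g ≠ 1}⟩
  have : (hF.coz f)ᶜ = {P | hF.ev P f ∈ ({1} : Set (FreeGroup (Fin n)))} := by
    ext P; simp [IsFree.coz]
  rw [this]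
  exact hopen {1}

theorem IsFree.exists_coz_inter (hF : IsFree n F ι) (f g : F) :
    ∃ h, hF.coz h = hF.coz f ∩ hF.coz g := by
  refine ⟨|f|ₘ ⊓ |g|ₘ, ?_⟩
  ext P
  have h1 := hF.ev_inf P |f|ₘ |g|ₘ
  have hf := hF.one_le_ev_mabs P f
  have hg := hF.one_le_ev_mabs P g
  simp only [IsFree.coz, Set.mem_ofPred_eq, Set.mem_inter_iff]
  rw [← not_or, not_iff_not]
  constructor
  · intro h
    rw [h] at h1
    rcases le_total (show Ch P from hF.ev P |f|ₘ) (show Ch P from hF.ev P |g|ₘ) with h2 | h2
    · rw [inf_eq_left.2 h2] at h1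
      exact Or.inl ((hF.ev_mabs P f).1 h1.symm)
    · rw [inf_eq_right.2 h2] at h1
      exact Or.inr ((hF.ev_mabs P g).1 h1.symm)
  · rintro (h | h)
    · rw [(hF.ev_mabs P f).2 h, inf_eq_left.2 hg] at h1
      exact h1
    · rw [(hF.ev_mabs P g).2 h, inf_eq_right.2 hf] at h1
      exact h1

theorem IsFree.exists_coz_union (hF : IsFree n F ι) (f g : F) :
    ∃ h, hF.coz h = hF.coz f ∪ hF.coz g := by
  refine ⟨|f|ₘ ⊔ |g|ₘ, ?_⟩
  ext P
  have h1 := hF.ev_sup P |f|ₘ |g|ₘ
  have hf := hF.one_le_ev_mabs P f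
  have hg := hF.one_le_ev_mabs P g
  simp only [IsFree.coz, Set.mem_ofPred_eq, Set.mem_union]
  rw [← not_and_or, not_iff_not]
  constructor
  · intro h
    rw [h] at h1
    have h2 : (show Ch P from hF.ev P |f|ₘ) ≤ (show Ch P from (1 : FreeGroup (Fin n))) :=
      h1 ▸ le_sup_left
    have h3 : (show Ch P from hF.ev P |g|ₘ) ≤ (show Ch P from (1 : FreeGroup (Fin n))) :=
      h1 ▸ le_sup_right
    have h4 : (show Ch P from hF.ev P |f|ₘ) = (show Ch P from (1 : FreeGroup (Fin n))) :=
      le_antisymm h2 hf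
    have h5 : (show Ch P from hF.ev P |g|ₘ) = (show Ch P from (1 : FreeGroup (Fin n))) :=
      le_antisymm h3 hg
    exact ⟨(hF.ev_mabs P f).1 h4, (hF.ev_mabs P g).1 h5⟩
  · rintro ⟨h2, h3⟩
    rw [(hF.ev_mabs P f).2 h2, (hF.ev_mabs P g).2 h3, sup_idem] at h1
    exact h1

theorem IsFree.coz_pos (hF : IsFree n F ι) (s : FreeGroup (Fin n)) :
    hF.coz (wd ι s ⊔ 1) = {P | s ∈ P.pos} := by
  ext P
  have h1 := hF.ev_sup P (wd ι s) 1
  rw [hF.ev_wd, hF.ev_one] at h1
  simp only [IsFree.coz, Set.mem_ofPred_eq]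
  constructor
  · intro h
    rcases lt_or_ge (show Ch P from (1 : FreeGroup (Fin n))) (show Ch P from s) with h2 | h2
    · have := (P.lt_iff _ _).2 h2
      rwa [LO.lt, inv_one, one_mul] at this
    · rw [sup_eq_right.2 h2] at h1
      exact absurd h1 h
  · intro h h2
    have h3 : (show Ch P from (1 : FreeGroup (Fin n))) < (show Ch P from s) := by
      rw [← P.lt_iff, LO.lt, inv_one, one_mul]; exact h
    rw [sup_eq_left.2 h3.le, h2] at h1
    exact h3.ne h1

theorem IsFree.exists_coz_eq (hF : IsFree n F ι) (hn : 0 < n) (V : Set (LO (FreeGroup (Fin n))))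
    (hV : IsClopen V) : ∃ f, hF.coz f = V := by
  -- basic sets
  have hbasic : ∀ S : Finset (FreeGroup (Fin n)),
      ∃ f, hF.coz f = {P | ∀ s ∈ S, s ∈ P.pos} := by
    intro S
    induction S using Finset.induction_on with
    | empty =>
      refine ⟨wd ι (FreeGroup.of ⟨0, hn⟩), ?_⟩
      ext P
      simp [IsFree.coz, hF.ev_wd, FreeGroup.of_ne_one]
    | insert s S _ ih =>
      obtain ⟨f, hf⟩ := ih
      obtain ⟨h, hh⟩ := hF.exists_coz_inter (wd ι s ⊔ 1) f
      refine ⟨h, ?_⟩
      rw [hh, hf, hF.coz_pos]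
      ext P
      simp
  have hcomp : IsCompact V := hV.isClosed.isCompact
  choose! S hS hS' using fun (P : LO (FreeGroup (Fin n))) (hP : P ∈ V) =>
    P.exists_basic V hV.isOpen hP
  obtain ⟨t, ht, htV⟩ := hcomp.elim_nhds_subcover
    (fun P => {P' : LO (FreeGroup (Fin n)) | ∀ s ∈ S P, s ∈ P'.pos}) (by
      intro P hP
      have h1 : IsOpen (⋂ s ∈ S P, {P' : LO (FreeGroup (Fin n)) | s ∈ P'.pos}) :=
        isOpen_biInter_finset fun s _ => (LO.isClopen_pos s).isOpen
      refine Filter.mem_of_superset (h1.mem_nhds (by simpa using hS P hP)) ?_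
      intro P' hP'
      simpa using hP')
  have hunion : ∀ t : Finset (LO (FreeGroup (Fin n))),
      ∃ f, hF.coz f = ⋃ P ∈ t, {P' : LO (FreeGroup (Fin n)) | ∀ s ∈ S P, s ∈ P'.pos} := by
    intro t
    induction t using Finset.induction_on with
    | empty => exact ⟨1, by ext P; simp [IsFree.coz, hF.ev_one]⟩
    | insert P t _ ih =>
      obtain ⟨f, hf⟩ := ih
      obtain ⟨g, hg⟩ := hbasic (S P)
      obtain ⟨h, hh⟩ := hF.exists_coz_union g f
      refine ⟨h, ?_⟩
      rw [hh, hf, hg, Finset.set_biUnion_insert]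
  obtain ⟨f, hf⟩ := hunion t
  refine ⟨f, ?_⟩
  rw [hf]
  apply Set.Subset.antisymm
  · intro P' hP'
    obtain ⟨P, hP, hP''⟩ := Set.mem_iUnion₂.1 hP'
    exact hS' P (ht P hP) P' hP''
  · exact htV

theorem IsFree.ev_conj_eq_one (hF : IsFree n F ι) (P : LO (FreeGroup (Fin n))) (g f : F) :
    hF.ev P (g * f * g⁻¹) = 1 ↔ hF.ev (hF.ev P g⁻¹ • P) f = 1 := by
  have h1 : hF.ev P (f * g⁻¹) = hF.ev (hF.ev P g⁻¹ • P) f * hF.ev P g⁻¹ := hF.ev_mul P f g⁻¹
  have h2 : hF.ev P (g * f * g⁻¹) = (hF.act P g).1 (show Ch P from hF.ev P (f * g⁻¹)) := by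
    rw [mul_assoc, IsFree.ev, map_mul]; rfl
  have h3 : (hF.act P g).1 (show Ch P from hF.ev P g⁻¹)
      = (show Ch P from (1 : FreeGroup (Fin n))) := by
    rw [IsFree.ev, map_inv]
    exact CAut.apply_inv_apply _ _
  constructor
  · intro h
    rw [h2] at h
    have h4 : (show Ch P from hF.ev P (f * g⁻¹)) = (show Ch P from hF.ev P g⁻¹) := by
      apply (hF.act P g).1.injective
      rw [h3]; exact h
    have h5 : hF.ev P (f * g⁻¹) = hF.ev P g⁻¹ := h4
    rw [h1] at h5
    simpa using h5
  · intro h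
    rw [h, one_mul] at h1
    rw [h2, h1]
    exact h3

end Pool.Agent.Lib.MP_106261_lc
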